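import Mathlib

namespace Pool.Agent.Lib.MP781

open Real

theorem re_odd_aux (ζ : ℂ) : 
    (ζ / (1 - ζ ^ 2)).re =
      ζ.re * (1 - (ζ.re ^ 2 + ζ.im ^ 2)) / ((1 - (ζ.re ^ 2 + ζ.im ^ 2)) ^ 2 + 4 * ζ.im ^ 2) := by
  have h1 : (1 - ζ ^ 2).re = 1 - ζ.re ^ 2 + ζ.im ^ 2 := by
    simp [pow_two]; ring
  have h2 : (1 - ζ ^ 2).im = - (2 * ζ.re * ζ.im) := by
    simp [pow_two]; ring
  rw [Complex.div_re, Complex.normSq_apply, h1, h2]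
  have h3 : (1 - ζ.re ^ 2 + ζ.im ^ 2) * (1 - ζ.re ^ 2 + ζ.im ^ 2) +
      -(2 * ζ.re * ζ.im) * -(2 * ζ.re * ζ.im) =
      (1 - (ζ.re ^ 2 + ζ.im ^ 2)) ^ 2 + 4 * ζ.im ^ 2 := by ring
  rw [h3, ← add_div]
  congr 1
  ring

theorem re_even_aux (ζ : ℂ) : 
    (ζ ^ 2 / (1 - ζ ^ 2)).re =
      ((ζ.re ^ 2 + ζ.im ^ 2) - 2 * ζ.im ^ 2 - (ζ.re ^ 2 + ζ.im ^ 2) ^ 2) /
        ((1 - (ζ.re ^ 2 + ζ.im ^ 2)) ^ 2 + 4 * ζ.im ^ 2) := by
  have h1 : (1 - ζ ^ 2).re = 1 - ζ.re ^ 2 + ζ.im ^ 2 := by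
    simp [pow_two]; ring
  have h2 : (1 - ζ ^ 2).im = - (2 * ζ.re * ζ.im) := by
    simp [pow_two]; ring
  have h4 : (ζ ^ 2).re = ζ.re ^ 2 - ζ.im ^ 2 := by simp [pow_two]
  have h5 : (ζ ^ 2).im = 2 * ζ.re * ζ.im := by simp [pow_two]; ring
  rw [Complex.div_re, Complex.normSq_apply, h1, h2, h4, h5]
  have h3 : (1 - ζ.re ^ 2 + ζ.im ^ 2) * (1 - ζ.re ^ 2 + ζ.im ^ 2) +
      -(2 * ζ.re * ζ.im) * -(2 * ζ.re * ζ.im) =
      (1 - (ζ.re ^ 2 + ζ.im ^ 2)) ^ 2 + 4 * ζ.im ^ 2 := by ring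
  rw [h3, ← add_div]
  congr 1
  ring

theorem hasSum_odd {ζ : ℂ} (h : ‖ζ‖ < 1) :
    HasSum (fun i : ℕ => (ζ ^ (2 * i + 1)).re) (ζ / (1 - ζ ^ 2)).re := by
  have h2 : ‖ζ ^ 2‖ < 1 := by
    rw [norm_pow]; exact pow_lt_one₀ (norm_nonneg _) h (by norm_num)
  have := (hasSum_geometric_of_norm_lt_one h2).mul_left ζ
  have h3 := Complex.hasSum_re this
  simpa [pow_succ', pow_mul, div_eq_mul_inv] using h3

theorem hasSum_even {ζ : ℂ} (h : ‖ζ‖ < 1) :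
    HasSum (fun i : ℕ => (ζ ^ (2 * i + 2)).re) (ζ ^ 2 / (1 - ζ ^ 2)).re := by
  have h2 : ‖ζ ^ 2‖ < 1 := by
    rw [norm_pow]; exact pow_lt_one₀ (norm_nonneg _) h (by norm_num)
  have := (hasSum_geometric_of_norm_lt_one h2).mul_left (ζ ^ 2)
  have h3 := Complex.hasSum_re this
  have e : (fun i : ℕ => (ζ ^ (2 * i + 2)).re) = (fun i : ℕ => (ζ ^ 2 * (ζ ^ 2) ^ i).re) := by
    funext i
    congr 1
    rw [← pow_mul]; ring
  rw [e, div_eq_mul_inv]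
  exact h3

/-- polar point -/
noncomputable def pt (u φ : ℝ) : ℂ := ⟨Real.exp (-u) * Real.cos φ, Real.exp (-u) * Real.sin φ⟩

theorem norm_pt (u φ : ℝ) : ‖pt u φ‖ = Real.exp (-u) := by
  rw [Complex.norm_def, Complex.normSq_apply]
  have : (pt u φ).re * (pt u φ).re + (pt u φ).im * (pt u φ).im = Real.exp (-u) ^ 2 := by
    simp only [pt]
    have := Real.sin_sq_add_cos_sq φ
    nlinarith [this]
  rw [this, Real.sqrt_sq (Real.exp_pos _).le]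

theorem sq_pt (u φ : ℝ) : (pt u φ).re ^ 2 + (pt u φ).im ^ 2 = Real.exp (-u) ^ 2 := by
  simp only [pt]
  have := Real.sin_sq_add_cos_sq φ
  nlinarith [this]

theorem one_sub_exp (u : ℝ) : 1 - Real.exp (-u) ^ 2 = 2 * Real.exp (-u) * Real.sinh u := by
  rw [Real.sinh_eq]
  have : Real.exp (-u) * Real.exp u = 1 := by rw [← Real.exp_add]; simp
  nlinarith [this]

/-- `h u S2 = sinh u / (sinh² u + S2)`. -/
noncomputable def hf (u S2 : ℝ) : ℝ := Real.sinh u / (Real.sinh u ^ 2 + S2)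

theorem odd_pt {u : ℝ} (hu : 0 < u) (φ : ℝ) :
    (pt u φ / (1 - pt u φ ^ 2)).re = Real.cos φ * hf u (Real.sin φ ^ 2) / 2 := by
  rw [re_odd_aux, sq_pt, one_sub_exp]
  have hx : Real.exp (-u) ≠ 0 := (Real.exp_pos _).ne'
  have hs : 0 < Real.sinh u := Real.sinh_pos_iff.2 hu
  have hd : 0 < Real.sinh u ^ 2 + Real.sin φ ^ 2 := by positivity
  simp only [pt, hf]
  field_simp
  ring

theorem even_pt {u : ℝ} (hu : 0 < u) (φ : ℝ) :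
    (pt u φ ^ 2 / (1 - pt u φ ^ 2)).re = (Real.cosh u * hf u (Real.sin φ ^ 2) - 1) / 2 := by
  rw [re_even_aux, sq_pt, one_sub_exp]
  have hx : Real.exp (-u) ≠ 0 := (Real.exp_pos _).ne'
  have hs : 0 < Real.sinh u := Real.sinh_pos_iff.2 hu
  have hd : 0 < Real.sinh u ^ 2 + Real.sin φ ^ 2 := by positivity
  have h1 : 1 - Real.exp (-u) ^ 2 = 2 * Real.exp (-u) * Real.sinh u := one_sub_exp u
  have h2 : Real.exp (-u) = Real.cosh u - Real.sinh u := by rw [Real.cosh_sub_sinh]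
  have e1 : Real.exp (-u) ^ 2 - 2 * (pt u φ).im ^ 2 - (Real.exp (-u) ^ 2) ^ 2
     = 2 * Real.exp (-u) ^ 2 * (Real.exp (-u) * Real.sinh u - Real.sin φ ^ 2) := by
    simp only [pt]
    have : (Real.exp (-u) ^ 2) ^ 2 = Real.exp (-u) ^ 2 * (1 - 2 * Real.exp (-u) * Real.sinh u) := by
      rw [← h1]; ring
    rw [this]; ring
  have e2 : (2 * Real.exp (-u) * Real.sinh u) ^ 2 + 4 * (pt u φ).im ^ 2
     = 4 * Real.exp (-u) ^ 2 * (Real.sinh u ^ 2 + Real.sin φ ^ 2) := by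
    simp only [pt]; ring
  rw [e1, e2]
  simp only [hf]
  rw [div_eq_iff (by positivity)]
  field_simp
  rw [h2]
  ring

end Pool.Agent.Lib.MP781
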