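import Mathlib
import Pool.Agent.Lib.MP_781ce4_nt.Geom

namespace Pool.Agent.Lib.MP781

open Real

theorem cosh_le_small {u : ℝ} (h0 : 0 ≤ u) (h1 : u ≤ 1 / 10) :
    Real.cosh u ≤ 1 + 0.51 * u ^ 2 := by
  have h := Real.cosh_le_exp_half_sq u
  have hx : u ^ 2 / 2 ≤ 1 / 200 := by nlinarith
  have h2 : Real.exp (u ^ 2 / 2) ≤ 1 / (1 - u ^ 2 / 2) := by
    have := Real.one_sub_le_exp_neg (u ^ 2 / 2)
    rw [Real.exp_neg] at this
    have hp : 0 < 1 - u ^ 2 / 2 := by linarith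
    rw [le_div_iff₀ hp]
    have he := Real.exp_pos (u ^ 2 / 2)
    calc Real.exp (u ^ 2 / 2) * (1 - u ^ 2 / 2)
        ≤ Real.exp (u ^ 2 / 2) * (Real.exp (u ^ 2 / 2))⁻¹ := by gcongr
      _ = 1 := mul_inv_cancel₀ he.ne'
  refine h.trans (h2.trans ?_)
  rw [div_le_iff₀ (by linarith)]
  nlinarith [sq_nonneg u, mul_nonneg (sq_nonneg u) (sq_nonneg u)]

theorem sinh_le_small {u : ℝ} (h0 : 0 ≤ u) (h1 : u ≤ 1 / 10) :
    Real.sinh u ≤ u + 0.17 * u ^ 3 := by
  have key : MonotoneOn (fun x : ℝ => x + 0.17 * x ^ 3 - Real.sinh x) (Set.Icc 0 (1 / 10)) := by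
    apply monotoneOn_of_deriv_nonneg (convex_Icc _ _)
    · fun_prop
    · fun_prop
    · intro x hx
      rw [interior_Icc] at hx
      have hd : HasDerivAt (fun x : ℝ => x + 0.17 * x ^ 3 - Real.sinh x)
          (1 + 0.17 * (3 * x ^ 2) - Real.cosh x) x := by
        have := ((hasDerivAt_id' x).fun_add ((hasDerivAt_pow 3 x).const_mul 0.17)).fun_sub
          (Real.hasDerivAt_sinh x)
        exact this.congr_deriv (by norm_num)
      rw [hd.deriv]
      have := cosh_le_small hx.1.le hx.2.le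
      nlinarith [this]
  have := key (Set.left_mem_Icc.2 (by norm_num)) ⟨h0, h1⟩ h0
  simp at this
  linarith

theorem self_le_sinh' {u : ℝ} (h0 : 0 ≤ u) : u ≤ Real.sinh u := Real.self_le_sinh_iff.2 h0

theorem one_add_le_cosh {u : ℝ} (h0 : 0 ≤ u) : 1 + u ^ 2 / 2 ≤ Real.cosh u := by
  have key : MonotoneOn (fun x : ℝ => Real.cosh x - (1 + x ^ 2 / 2)) (Set.Ici 0) := by
    apply monotoneOn_of_deriv_nonneg (convex_Ici _)
    · fun_prop
    · fun_prop
    · intro x hx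
      rw [interior_Ici] at hx
      have hd : HasDerivAt (fun x : ℝ => Real.cosh x - (1 + x ^ 2 / 2))
          (Real.sinh x - x) x := by
        have := (Real.hasDerivAt_cosh x).fun_sub (((hasDerivAt_pow 2 x).div_const 2).const_add 1)
        exact this.congr_deriv (by norm_num)
      rw [hd.deriv]
      have := self_le_sinh' (le_of_lt hx)
      linarith
  have := key (Set.self_mem_Ici) h0 h0
  simp at this
  linarith

theorem sinh_le_mul_cosh {u : ℝ} (h0 : 0 ≤ u) : Real.sinh u ≤ u * Real.cosh u := by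
  have key : MonotoneOn (fun x : ℝ => x * Real.cosh x - Real.sinh x) (Set.Ici 0) := by
    apply monotoneOn_of_deriv_nonneg (convex_Ici _)
    · fun_prop
    · fun_prop
    · intro x hx
      rw [interior_Ici] at hx
      have hd : HasDerivAt (fun x : ℝ => x * Real.cosh x - Real.sinh x)
          (x * Real.sinh x) x := by
        have := ((hasDerivAt_id' x).fun_mul (Real.hasDerivAt_cosh x)).fun_sub (Real.hasDerivAt_sinh x)
        exact this.congr_deriv (by ring)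
      rw [hd.deriv]
      have hx' : 0 < x := hx
      have := self_le_sinh' hx'.le
      positivity
  have := key (Set.self_mem_Ici) h0 h0
  simp at this
  linarith

/-- closed form of the odd geometric sum -/
noncomputable def Oc (u : ℝ) : ℝ := 1 / (2 * Real.sinh u)
/-- closed form of the even geometric sum -/
noncomputable def Ec (u : ℝ) : ℝ := (Real.cosh u / Real.sinh u - 1) / 2

theorem Oc_le {u : ℝ} (h0 : 0 < u) : Oc u ≤ 1 / (2 * u) := by
  unfold Oc
  have := self_le_sinh' h0.le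
  gcongr

theorem le_Oc {u : ℝ} (h0 : 0 < u) (h1 : u ≤ 1 / 10) : 1 / (2 * u) - 0.085 * u ≤ Oc u := by
  unfold Oc
  have hs := sinh_le_small h0.le h1
  have hp : 0 < Real.sinh u := Real.sinh_pos_iff.2 h0
  have h2 : 1 / (2 * (u + 0.17 * u ^ 3)) ≤ 1 / (2 * Real.sinh u) := by gcongr
  refine le_trans ?_ h2
  rw [le_div_iff₀ (by positivity)]
  field_simp
  nlinarith [mul_nonneg (sq_nonneg u) (sq_nonneg u)]

theorem Ec_le {u : ℝ} (h0 : 0 < u) (h1 : u ≤ 1 / 10) : Ec u ≤ 1 / (2 * u) - 1 / 2 + 0.255 * u := by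
  unfold Ec
  have hs := self_le_sinh' h0.le
  have hc := cosh_le_small h0.le h1
  have hp : 0 < Real.sinh u := Real.sinh_pos_iff.2 h0
  have h2 : Real.cosh u / Real.sinh u ≤ (1 + 0.51 * u ^ 2) / u := by gcongr
  have h3 : (1 + 0.51 * u ^ 2) / u = 1 / u + 0.51 * u := by field_simp
  have h4 : 1 / (2 * u) = (1 / u) / 2 := by field_simp
  rw [h4]; linarith

theorem le_Ec {u : ℝ} (h0 : 0 < u) : 1 / (2 * u) - 1 / 2 ≤ Ec u := by
  unfold Ec
  have hs := sinh_le_mul_cosh h0.le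
  have hp : 0 < Real.sinh u := Real.sinh_pos_iff.2 h0
  have h2 : 1 / u ≤ Real.cosh u / Real.sinh u := by
    rw [div_le_div_iff₀ h0 hp]; linarith
  have h4 : 1 / (2 * u) = (1 / u) / 2 := by field_simp
  rw [h4]; linarith

theorem abs_hf_sub {u S2 : ℝ} (h0 : 0 < u) (h1 : u ≤ 1 / 10) (hS : 0 ≤ S2) :
    |hf u S2 - u / (u ^ 2 + S2)| ≤ 0.17 * u := by
  unfold hf
  set v := Real.sinh u with hv
  have hvu : u ≤ v := self_le_sinh' h0.le
  have hv2 : v ≤ u + 0.17 * u ^ 3 := sinh_le_small h0.le h1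
  have hvp : 0 < v := lt_of_lt_of_le h0 hvu
  have hd1 : 0 < v ^ 2 + S2 := by positivity
  have hd2 : 0 < u ^ 2 + S2 := by positivity
  have e : v / (v ^ 2 + S2) - u / (u ^ 2 + S2) = (v - u) * ((S2 - u * v) / ((v ^ 2 + S2) * (u ^ 2 + S2))) := by
    field_simp; ring
  rw [e, abs_mul, abs_of_nonneg (by linarith : 0 ≤ v - u)]
  have h3 : |(S2 - u * v) / ((v ^ 2 + S2) * (u ^ 2 + S2))| ≤ 1 / u ^ 2 := by
    rw [abs_div, abs_of_pos (by positivity : 0 < (v ^ 2 + S2) * (u ^ 2 + S2)),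
      div_le_div_iff₀ (by positivity) (by positivity)]
    have h4 : |S2 - u * v| ≤ v ^ 2 + S2 := by
      rw [abs_le]; constructor <;> nlinarith
    calc |S2 - u * v| * u ^ 2 ≤ (v ^ 2 + S2) * (u ^ 2 + S2) := by
          gcongr; linarith
      _ = 1 * ((v ^ 2 + S2) * (u ^ 2 + S2)) := by ring
  calc (v - u) * |(S2 - u * v) / ((v ^ 2 + S2) * (u ^ 2 + S2))| ≤ (0.17 * u ^ 3) * (1 / u ^ 2) := by
        gcongr; linarith
    _ = 0.17 * u := by field_simp

theorem hf_le {u S2 : ℝ} (h0 : 0 < u) (h1 : u ≤ 1 / 10) (hS : 0 ≤ S2) :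
    hf u S2 ≤ u / (u ^ 2 + S2) + 0.17 * u := by
  have := (abs_le.1 (abs_hf_sub h0 h1 hS)).2; linarith

theorem le_hf {u S2 : ℝ} (h0 : 0 < u) (h1 : u ≤ 1 / 10) (hS : 0 ≤ S2) :
    u / (u ^ 2 + S2) - 0.17 * u ≤ hf u S2 := by
  have := (abs_le.1 (abs_hf_sub h0 h1 hS)).1; linarith

theorem hf_nonneg {u S2 : ℝ} (h0 : 0 < u) (hS : 0 ≤ S2) : 0 ≤ hf u S2 := by
  unfold hf
  have hp : 0 < Real.sinh u := Real.sinh_pos_iff.2 h0
  positivity

theorem hf_le_inv {u S2 : ℝ} (h0 : 0 < u) (hS : 0 ≤ S2) : hf u S2 ≤ 1 / u := by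
  unfold hf
  have hp : 0 < Real.sinh u := Real.sinh_pos_iff.2 h0
  have hvu := self_le_sinh' h0.le
  rw [div_le_div_iff₀ (by positivity) h0]
  nlinarith

theorem mul_hf_le {u S2 : ℝ} (h0 : 0 < u) (hS : 0 ≤ S2) : S2 * hf u S2 ≤ Real.sinh u := by
  unfold hf
  have hp : 0 < Real.sinh u := Real.sinh_pos_iff.2 h0
  rw [← mul_div_assoc, div_le_iff₀ (by positivity)]
  nlinarith [mul_pos hp hp]

/-- `cosh u * hf u S2 ≤ u/(u²+S2) + 0.68 u`. -/
theorem cosh_hf_le {u S2 : ℝ} (h0 : 0 < u) (h1 : u ≤ 1 / 10) (hS : 0 ≤ S2) :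
    Real.cosh u * hf u S2 ≤ u / (u ^ 2 + S2) + 0.68 * u := by
  have a1 := hf_le h0 h1 hS
  have a2 := hf_le_inv h0 hS
  have a3 := hf_nonneg h0 hS
  have a4 := cosh_le_small h0.le h1
  have : (Real.cosh u - 1) * hf u S2 ≤ (0.51 * u ^ 2) * (1 / u) := by
    apply mul_le_mul (by linarith) a2 a3 (by positivity)
  have e : (0.51 * u ^ 2) * (1 / u) = 0.51 * u := by field_simp
  rw [e] at this
  nlinarith

theorem le_cosh_hf {u S2 : ℝ} (h0 : 0 < u) (h1 : u ≤ 1 / 10) (hS : 0 ≤ S2) :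
    u / (u ^ 2 + S2) - 0.17 * u ≤ Real.cosh u * hf u S2 := by
  have a1 := le_hf h0 h1 hS
  have a3 := hf_nonneg h0 hS
  have a4 := Real.one_le_cosh u
  nlinarith

theorem hasSum_Oc {u : ℝ} (h0 : 0 < u) :
    HasSum (fun i : ℕ => Real.exp (-u) ^ (2 * i + 1)) (Oc u) := by
  have hx : Real.exp (-u) < 1 := by rw [Real.exp_lt_one_iff]; linarith
  have hx0 : 0 < Real.exp (-u) := Real.exp_pos _
  have h2 : Real.exp (-u) ^ 2 < 1 := by nlinarith
  have := (hasSum_geometric_of_lt_one (by positivity) h2).mul_left (Real.exp (-u))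
  have e1 : (fun i : ℕ => Real.exp (-u) * (Real.exp (-u) ^ 2) ^ i) =
      (fun i : ℕ => Real.exp (-u) ^ (2 * i + 1)) := by
    funext i; rw [← pow_mul, ← pow_succ']
  have e2 : Real.exp (-u) * (1 - Real.exp (-u) ^ 2)⁻¹ = Oc u := by
    rw [one_sub_exp]
    unfold Oc
    have hp : 0 < Real.sinh u := Real.sinh_pos_iff.2 h0
    field_simp
  rw [e1, e2] at this
  exact this

theorem hasSum_Ec {u : ℝ} (h0 : 0 < u) :
    HasSum (fun i : ℕ => Real.exp (-u) ^ (2 * i + 2)) (Ec u) := by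
  have := (hasSum_Oc h0).mul_left (Real.exp (-u))
  have e1 : (fun i : ℕ => Real.exp (-u) * Real.exp (-u) ^ (2 * i + 1)) =
      (fun i : ℕ => Real.exp (-u) ^ (2 * i + 2)) := by
    funext i; ring
  have e2 : Real.exp (-u) * Oc u = Ec u := by
    unfold Ec Oc
    have hp : 0 < Real.sinh u := Real.sinh_pos_iff.2 h0
    rw [← Real.cosh_sub_sinh u]
    field_simp
  rw [e1, e2] at this
  exact this

end Pool.Agent.Lib.MP781
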