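import Mathlib
import Pool.Agent.Lib.MP_781ce4_nt.Bounds

namespace Pool.Agent.Lib.MP781

open Real Finset

/-- dilogarithm -/
noncomputable def Li (a : ℝ) : ℝ := ∑' k : ℕ, a ^ (k + 1) / ((k : ℝ) + 1) ^ 2

theorem summable_Li {a : ℝ} (h0 : 0 ≤ a) (h1 : a < 1) :
    Summable (fun k : ℕ => a ^ (k + 1) / ((k : ℝ) + 1) ^ 2) := by
  have hg : Summable (fun k : ℕ => a ^ (k + 1)) := by
    simpa [pow_succ] using (summable_geometric_of_lt_one h0 h1).mul_right a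
  refine Summable.of_nonneg_of_le (fun k => by positivity) (fun k => ?_) hg
  rw [div_le_iff₀ (by positivity)]
  have : (1 : ℝ) ≤ ((k : ℝ) + 1) ^ 2 := by nlinarith [(Nat.cast_nonneg k : (0 : ℝ) ≤ k)]
  have h2 : 0 ≤ a ^ (k + 1) := by positivity
  nlinarith

theorem hasSum_Li {a : ℝ} (h0 : 0 ≤ a) (h1 : a < 1) :
    HasSum (fun k : ℕ => a ^ (k + 1) / ((k : ℝ) + 1) ^ 2) (Li a) :=
  (summable_Li h0 h1).hasSum

theorem sum_odd_le {u : ℝ} (h0 : 0 < u) (M : ℕ) :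
    ∑ i ∈ range M, Real.exp (-u) ^ (2 * i + 1) ≤ 1 / (2 * u) :=
  (sum_le_hasSum _ (fun i _ => by positivity) (hasSum_Oc h0)).trans (Oc_le h0)

theorem Ec_le_Oc {u : ℝ} (h0 : 0 < u) : Ec u ≤ Oc u := by
  have h := (hasSum_Oc h0)
  have h' := (hasSum_Ec h0)
  refine hasSum_le (fun i => ?_) h' h
  have hx : Real.exp (-u) ≤ 1 := by rw [Real.exp_le_one_iff]; linarith
  exact pow_le_pow_of_le_one (Real.exp_pos _).le hx (by omega)

theorem sum_even_le {u : ℝ} (h0 : 0 < u) (M : ℕ) :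
    ∑ i ∈ range M, Real.exp (-u) ^ (2 * i + 2) ≤ 1 / (2 * u) :=
  (sum_le_hasSum _ (fun i _ => by positivity) (hasSum_Ec h0)).trans ((Ec_le_Oc h0).trans (Oc_le h0))

theorem log_sum_aux {a t : ℝ} (ha0 : 0 ≤ a) (ha1 : a < 1) (ht : 0 < t) (M : ℕ) (e : ℕ → ℕ)
    (hs : ∀ u : ℝ, 0 < u → ∑ i ∈ range M, Real.exp (-u) ^ (e i) ≤ 1 / (2 * u)) :
    ∑ i ∈ range M, (- Real.log (1 - a * Real.exp (-t) ^ (e i))) ≤ Li a / (2 * t) := by
  have hx : ∀ i, |a * Real.exp (-t) ^ (e i)| < 1 := by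
    intro i
    have h1 : Real.exp (-t) ^ (e i) ≤ 1 :=
      pow_le_one₀ (Real.exp_pos _).le (by rw [Real.exp_le_one_iff]; linarith)
    have h2 : 0 < Real.exp (-t) ^ (e i) := by positivity
    rw [abs_of_nonneg (by positivity)]
    nlinarith
  have h1 : HasSum (fun k : ℕ => ∑ i ∈ range M, (a * Real.exp (-t) ^ (e i)) ^ (k + 1) / ((k : ℝ) + 1))
      (∑ i ∈ range M, (- Real.log (1 - a * Real.exp (-t) ^ (e i)))) :=
    hasSum_sum (fun i _ => Real.hasSum_pow_div_log_of_abs_lt_one (hx i))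
  have h2 := (hasSum_Li ha0 ha1).div_const (2 * t)
  refine hasSum_le (fun k => ?_) h1 h2
  have hk : (0 : ℝ) < (k : ℝ) + 1 := by positivity
  have h3 := hs (((k : ℝ) + 1) * t) (by positivity)
  have e1 : ∀ i, (a * Real.exp (-t) ^ (e i)) ^ (k + 1) / ((k : ℝ) + 1) =
      (a ^ (k + 1) / ((k : ℝ) + 1)) * Real.exp (-(((k : ℝ) + 1) * t)) ^ (e i) := by
    intro i
    have : Real.exp (-(((k : ℝ) + 1) * t)) = Real.exp (-t) ^ (k + 1) := by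
      rw [← Real.exp_nat_mul]; congr 1; push_cast; ring
    rw [this, mul_pow, ← pow_mul, ← pow_mul, mul_comm (e i)]
    ring
  simp_rw [e1]
  rw [← Finset.mul_sum]
  calc a ^ (k + 1) / ((k : ℝ) + 1) * ∑ i ∈ range M, Real.exp (-(((k : ℝ) + 1) * t)) ^ (e i)
      ≤ a ^ (k + 1) / ((k : ℝ) + 1) * (1 / (2 * (((k : ℝ) + 1) * t))) := by gcongr
    _ = a ^ (k + 1) / ((k : ℝ) + 1) ^ 2 / (2 * t) := by field_simp

theorem log_sum_odd {a t : ℝ} (ha0 : 0 ≤ a) (ha1 : a < 1) (ht : 0 < t) (M : ℕ) :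
    ∑ i ∈ range M, (- Real.log (1 - a * Real.exp (-t) ^ (2 * i + 1))) ≤ Li a / (2 * t) :=
  log_sum_aux ha0 ha1 ht M (fun i => 2 * i + 1) (fun u hu => sum_odd_le hu M)

theorem log_sum_even {a t : ℝ} (ha0 : 0 ≤ a) (ha1 : a < 1) (ht : 0 < t) (M : ℕ) :
    ∑ i ∈ range M, (- Real.log (1 - a * Real.exp (-t) ^ (2 * i + 2))) ≤ Li a / (2 * t) :=
  log_sum_aux ha0 ha1 ht M (fun i => 2 * i + 2) (fun u hu => sum_even_le hu M)

theorem Li_le {a : ℝ} (h0 : 0 ≤ a) (h1 : a < 1) (K : ℕ) :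
    Li a ≤ ∑ k ∈ range K, a ^ (k + 1) / ((k : ℝ) + 1) ^ 2 +
      a ^ (K + 1) / (((K : ℝ) + 1) ^ 2 * (1 - a)) := by
  have hs := summable_Li h0 h1
  unfold Li
  rw [← hs.sum_add_tsum_nat_add K]
  gcongr
  have hg : HasSum (fun i : ℕ => a ^ (K + 1) / ((K : ℝ) + 1) ^ 2 * a ^ i)
      (a ^ (K + 1) / ((K : ℝ) + 1) ^ 2 * (1 - a)⁻¹) :=
    (hasSum_geometric_of_lt_one h0 h1).mul_left _
  have e : a ^ (K + 1) / (((K : ℝ) + 1) ^ 2 * (1 - a)) =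
      a ^ (K + 1) / ((K : ℝ) + 1) ^ 2 * (1 - a)⁻¹ := by
    rw [← div_div]; rfl
  rw [e]
  refine hasSum_le (fun i => ?_) ((summable_nat_add_iff K).2 hs).hasSum hg
  have h2 : ((K : ℝ) + 1) ^ 2 ≤ (((i + K : ℕ) : ℝ) + 1) ^ 2 := by
    push_cast
    have : (0 : ℝ) ≤ i := Nat.cast_nonneg i
    gcongr
    linarith
  calc a ^ (i + K + 1) / (((i + K : ℕ) : ℝ) + 1) ^ 2 ≤ a ^ (i + K + 1) / ((K : ℝ) + 1) ^ 2 := by
        gcongr
    _ = a ^ (K + 1) / ((K : ℝ) + 1) ^ 2 * a ^ i := by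
        rw [div_mul_eq_mul_div]; congr 1; ring

theorem Li_nine : Li (9 / 10) ≤ 1.3 := by
  refine (Li_le (by norm_num) (by norm_num) 35).trans ?_
  simp only [Finset.sum_range_succ, Finset.sum_range_zero]
  norm_num

theorem Li_half : Li (1 / 2) ≤ 0.5823 := by
  refine (Li_le (by norm_num) (by norm_num) 12).trans ?_
  simp only [Finset.sum_range_succ, Finset.sum_range_zero]
  norm_num

end Pool.Agent.Lib.MP781
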