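import Mathlib
import Pool.Agent.Lib.MP_781ce4_nt.Logs

namespace Pool.Agent.Lib.MP781

open Real Finset

theorem le_exp_tangent {κ : ℝ} (hκ : 0 < κ) (y : ℝ) : y ≤ Real.exp (κ * y - 1 - Real.log κ) := by
  rw [Real.exp_sub, Real.exp_log hκ, le_div_iff₀ hκ]
  have := Real.add_one_le_exp (κ * y - 1)
  linarith

theorem normSq_one_add_two_mul (w : ℂ) : ‖1 + 2 * w‖ ^ 2 = 1 + 4 * ‖w‖ ^ 2 + 4 * w.re := by
  rw [← Complex.normSq_eq_norm_sq, ← Complex.normSq_eq_norm_sq, Complex.normSq_apply,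
    Complex.normSq_apply]
  simp
  ring

theorem normSq_one_sub (w : ℂ) : ‖1 - w‖ ^ 2 = 1 + ‖w‖ ^ 2 - 2 * w.re := by
  rw [← Complex.normSq_eq_norm_sq, ← Complex.normSq_eq_norm_sq, Complex.normSq_apply,
    Complex.normSq_apply]
  simp
  ring

theorem re_sq_eq (w : ℂ) : (w ^ 2).re = 2 * w.re ^ 2 - ‖w‖ ^ 2 := by
  rw [← Complex.normSq_eq_norm_sq, Complex.normSq_apply]
  simp [pow_two]
  ring

theorem normSq_prod (w : ℂ) : ‖(1 + 2 * w) * (1 - w)‖ ^ 2 =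
    1 + ‖w‖ ^ 2 + 4 * ‖w‖ ^ 4 + 2 * w.re - 4 * ‖w‖ ^ 2 * w.re - 4 * (w ^ 2).re := by
  rw [norm_mul, mul_pow, normSq_one_add_two_mul, normSq_one_sub, re_sq_eq]
  ring

theorem pt_pow_norm (u φ : ℝ) (n : ℕ) : ‖pt u φ ^ n‖ = Real.exp (-u) ^ n := by
  rw [norm_pow, norm_pt]

theorem exp_mul_pt (v u φ : ℝ) : (Real.exp (-v) : ℂ) * pt u φ = pt (v + u) φ := by
  apply Complex.ext
  · simp only [pt, Complex.re_ofReal_mul]
    rw [← mul_assoc, ← Real.exp_add]; congr 2; ring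
  · simp only [pt, Complex.im_ofReal_mul]
    rw [← mul_assoc, ← Real.exp_add]; congr 2; ring

theorem exp_mul_pt_pow_re (v u φ : ℝ) (n : ℕ) :
    Real.exp (-v) ^ n * (pt u φ ^ n).re = (pt (v + u) φ ^ n).re := by
  rw [← exp_mul_pt, mul_pow, ← Complex.ofReal_pow, Complex.re_ofReal_mul]

theorem pt_sq (u φ : ℝ) : pt u φ ^ 2 = pt (2 * u) (2 * φ) := by
  apply Complex.ext
  · simp only [pt, pow_two, Complex.mul_re]
    rw [Real.cos_two_mul', show -(2 * u) = -u + -u by ring, Real.exp_add]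
    ring
  · simp only [pt, pow_two, Complex.mul_im]
    rw [Real.sin_two_mul, show -(2 * u) = -u + -u by ring, Real.exp_add]
    ring

theorem exp_pow_eq (t : ℝ) (k n : ℕ) :
    Real.exp (-((k : ℝ) * t)) ^ n = (Real.exp (-t) ^ n) ^ k := by
  rw [← pow_mul, ← Real.exp_nat_mul, ← Real.exp_nat_mul]
  congr 1; push_cast; ring

theorem norm_pt_lt {u : ℝ} (h : 0 < u) (φ : ℝ) : ‖pt u φ‖ < 1 := by
  rw [norm_pt, Real.exp_lt_one_iff]; linarith

theorem hasSum_pt_odd {u : ℝ} (h : 0 < u) (φ : ℝ) :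
    HasSum (fun i : ℕ => (pt u φ ^ (2 * i + 1)).re) (Real.cos φ * hf u (Real.sin φ ^ 2) / 2) := by
  rw [← odd_pt h]; exact hasSum_odd (norm_pt_lt h φ)

theorem hasSum_pt_even {u : ℝ} (h : 0 < u) (φ : ℝ) :
    HasSum (fun i : ℕ => (pt u φ ^ (2 * i + 2)).re)
      ((Real.cosh u * hf u (Real.sin φ ^ 2) - 1) / 2) := by
  rw [← even_pt h]; exact hasSum_even (norm_pt_lt h φ)

/-- partial sums of a summable real sequence whose terms are bounded below by a geometric one -/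
theorem sum_le_add_tail {V : ℕ → ℝ} {Φ K x : ℝ} (h : HasSum V Φ) (hx0 : 0 ≤ x) (hx1 : x < 1)
    (hK : 0 ≤ K) (hV : ∀ i, - V i ≤ K * x ^ (2 * i + 1)) (M : ℕ) :
    ∑ i ∈ range M, V i ≤ Φ + K * x ^ (2 * M) / (1 - x) := by
  have h1 := h.summable.sum_add_tsum_nat_add M
  rw [h.tsum_eq] at h1
  have hx2 : x ^ 2 < 1 := by nlinarith
  have hg : HasSum (fun i : ℕ => K * x ^ (2 * M + 1) * (x ^ 2) ^ i)
      (K * x ^ (2 * M + 1) * (1 - x ^ 2)⁻¹) :=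
    (hasSum_geometric_of_lt_one (by positivity) hx2).mul_left _
  have h2 : HasSum (fun i : ℕ => - V (i + M)) (- ∑' i : ℕ, V (i + M)) :=
    ((summable_nat_add_iff M).2 h.summable).hasSum.neg
  have h3 : - ∑' i : ℕ, V (i + M) ≤ K * x ^ (2 * M + 1) * (1 - x ^ 2)⁻¹ := by
    refine hasSum_le (fun i => ?_) h2 hg
    refine (hV (i + M)).trans (le_of_eq ?_)
    rw [mul_assoc]; congr 1
    rw [← pow_mul, ← pow_add]; congr 1; ring
  have h4 : K * x ^ (2 * M + 1) * (1 - x ^ 2)⁻¹ ≤ K * x ^ (2 * M) / (1 - x) := by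
    rw [div_eq_mul_inv]
    have a1 : x ^ (2 * M + 1) ≤ x ^ (2 * M) := pow_le_pow_of_le_one hx0 hx1.le (by omega)
    have a2 : (1 - x ^ 2)⁻¹ ≤ (1 - x)⁻¹ := by
      apply inv_anti₀ (by linarith); nlinarith
    have a3 : 0 < 1 - x ^ 2 := by linarith
    gcongr
  linarith

/-- the truncated product -/
noncomputable def Pz (M : ℕ) (z : ℂ) : ℂ :=
  ∏ i ∈ range M, ((1 + 2 * z ^ (2 * i + 1)) * (1 - z ^ (2 * i + 1)) * (1 + 2 * z ^ (2 * i + 2)))

end Pool.Agent.Lib.MP781
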