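import Mathlib
import Pool.Agent.Lib.MP_781ce4_nt.Factors

namespace Pool.Agent.Lib.MP781

open Real Finset

/-- polynomial part of the exponent in region B -/
noncomputable def UB (t θ : ℝ) (i : ℕ) : ℝ :=
  ((Real.exp (-(2 * t)) ^ (2 * i + 1) + 4 * Real.exp (-(4 * t)) ^ (2 * i + 1)) +
    (2 * (pt t θ ^ (2 * i + 1)).re - 4 * (pt (3 * t) θ ^ (2 * i + 1)).re
      - 4 * (pt (2 * t) (2 * θ) ^ (2 * i + 1)).re)) +
  ((-(9 / 10) * Real.exp (-t) ^ (2 * i + 2) + 4 * Real.exp (-(2 * t)) ^ (2 * i + 2)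
    - 18 / 5 * Real.exp (-(3 * t)) ^ (2 * i + 2)) +
    (4 * (pt t θ ^ (2 * i + 2)).re - 18 / 5 * (pt (2 * t) θ ^ (2 * i + 2)).re))

noncomputable def PhiB (t θ : ℝ) : ℝ :=
  ((Oc (2 * t) + 4 * Oc (4 * t)) +
    (2 * (Real.cos θ * hf t (Real.sin θ ^ 2) / 2) -
      4 * (Real.cos θ * hf (3 * t) (Real.sin θ ^ 2) / 2)
      - 4 * (Real.cos (2 * θ) * hf (2 * t) (Real.sin (2 * θ) ^ 2) / 2))) +
  ((-(9 / 10) * Ec t + 4 * Ec (2 * t) - 18 / 5 * Ec (3 * t)) +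
    (4 * ((Real.cosh t * hf t (Real.sin θ ^ 2) - 1) / 2) -
      18 / 5 * ((Real.cosh (2 * t) * hf (2 * t) (Real.sin θ ^ 2) - 1) / 2)))

theorem hasSum_UB {t : ℝ} (ht : 0 < t) (θ : ℝ) : HasSum (UB t θ) (PhiB t θ) := by
  have h2 : 0 < 2 * t := by linarith
  have h3 : 0 < 3 * t := by linarith
  have h4 : 0 < 4 * t := by linarith
  unfold PhiB
  exact (((hasSum_Oc h2).add ((hasSum_Oc h4).mul_left 4)).add
    ((((hasSum_pt_odd ht θ).mul_left 2).sub ((hasSum_pt_odd h3 θ).mul_left 4)).sub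
      ((hasSum_pt_odd h2 (2 * θ)).mul_left 4))).add
    (((((hasSum_Ec ht).mul_left (-(9 / 10))).add ((hasSum_Ec h2).mul_left 4)).sub
      ((hasSum_Ec h3).mul_left (18 / 5))).add
      (((hasSum_pt_even ht θ).mul_left 4).sub ((hasSum_pt_even h2 θ).mul_left (18 / 5))))

theorem factorB {t : ℝ} (ht : 0 < t) (θ : ℝ) (i : ℕ) :
    ‖(1 + 2 * pt t θ ^ (2 * i + 1)) * (1 - pt t θ ^ (2 * i + 1)) * (1 + 2 * pt t θ ^ (2 * i + 2))‖ ^ 2
      ≤ Real.exp (UB t θ i - Real.log (1 - 9 / 10 * Real.exp (-t) ^ (2 * i + 2))) := by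
  rw [norm_mul, mul_pow, normSq_prod, normSq_one_add_two_mul, pt_pow_norm, pt_pow_norm]
  set x := Real.exp (-t) with hx
  have hx0 : 0 < x := Real.exp_pos _
  have hx1 : x < 1 := by rw [hx, Real.exp_lt_one_iff]; linarith
  have hκ : 0 < 1 - 9 / 10 * x ^ (2 * i + 2) := by
    have : x ^ (2 * i + 2) ≤ 1 := pow_le_one₀ hx0.le hx1.le
    linarith
  have e1 := le_exp_tangent (κ := 1) one_pos (1 + (x ^ (2 * i + 1)) ^ 2 + 4 * (x ^ (2 * i + 1)) ^ 4 +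
    2 * (pt t θ ^ (2 * i + 1)).re - 4 * (x ^ (2 * i + 1)) ^ 2 * (pt t θ ^ (2 * i + 1)).re
      - 4 * ((pt t θ ^ (2 * i + 1)) ^ 2).re)
  have e2 := le_exp_tangent hκ (1 + 4 * (x ^ (2 * i + 2)) ^ 2 + 4 * (pt t θ ^ (2 * i + 2)).re)
  have n2 : 0 ≤ 1 + 4 * (x ^ (2 * i + 2)) ^ 2 + 4 * (pt t θ ^ (2 * i + 2)).re := by
    have := normSq_one_add_two_mul (pt t θ ^ (2 * i + 2))
    rw [pt_pow_norm] at this
    rw [← hx] at this
    rw [← this]; positivity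
  refine (mul_le_mul e1 e2 n2 (Real.exp_pos _).le).trans (le_of_eq ?_)
  rw [← Real.exp_add]
  congr 1
  have k1 : Real.exp (-(2 * t)) ^ (2 * i + 1) = (x ^ (2 * i + 1)) ^ 2 := by
    have := exp_pow_eq t 2 (2 * i + 1); simpa using this
  have k2 : Real.exp (-(4 * t)) ^ (2 * i + 1) = (x ^ (2 * i + 1)) ^ 4 := by
    have := exp_pow_eq t 4 (2 * i + 1); simpa using this
  have k3 : Real.exp (-(2 * t)) ^ (2 * i + 2) = (x ^ (2 * i + 2)) ^ 2 := by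
    have := exp_pow_eq t 2 (2 * i + 2); simpa using this
  have k4 : Real.exp (-(3 * t)) ^ (2 * i + 2) = (x ^ (2 * i + 2)) ^ 3 := by
    have := exp_pow_eq t 3 (2 * i + 2); simpa using this
  have k5 : (pt (3 * t) θ ^ (2 * i + 1)).re = (x ^ (2 * i + 1)) ^ 2 * (pt t θ ^ (2 * i + 1)).re := by
    rw [← k1, exp_mul_pt_pow_re]; congr 3; ring
  have k6 : (pt (2 * t) (2 * θ) ^ (2 * i + 1)).re = ((pt t θ ^ (2 * i + 1)) ^ 2).re := by
    rw [← pt_sq, ← pow_mul, ← pow_mul, mul_comm 2]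
  have k7 : (pt (2 * t) θ ^ (2 * i + 2)).re = x ^ (2 * i + 2) * (pt t θ ^ (2 * i + 2)).re := by
    rw [exp_mul_pt_pow_re]; congr 3; ring
  rw [UB, k1, k2, k3, k4, k5, k6, k7, Real.log_one]
  ring

theorem UB_lower {t : ℝ} (ht : 0 < t) (θ : ℝ) (i : ℕ) :
    - UB t θ i ≤ 30 * Real.exp (-t) ^ (2 * i + 1) := by
  have hx0 : 0 < Real.exp (-t) := Real.exp_pos _
  have hx1 : Real.exp (-t) ≤ 1 := by rw [Real.exp_le_one_iff]; linarith
  have key : ∀ (k : ℝ), 1 ≤ k → ∀ n, 2 * i + 1 ≤ n →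
      Real.exp (-(k * t)) ^ n ≤ Real.exp (-t) ^ (2 * i + 1) := by
    intro k hk n hn
    have h1 : Real.exp (-(k * t)) ≤ Real.exp (-t) := by
      rw [Real.exp_le_exp]; nlinarith
    exact (pow_le_pow_left₀ (Real.exp_pos _).le h1 n).trans (pow_le_pow_of_le_one hx0.le hx1 hn)
  have keyp : ∀ (k : ℝ), 1 ≤ k → ∀ n, 2 * i + 1 ≤ n → ∀ φ,
      |(pt (k * t) φ ^ n).re| ≤ Real.exp (-t) ^ (2 * i + 1) := by
    intro k hk n hn φ
    refine (Complex.abs_re_le_norm _).trans ?_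
    rw [pt_pow_norm]; exact key k hk n hn
  have a1 := keyp 1 le_rfl (2 * i + 1) le_rfl θ
  have a2 := keyp 3 (by norm_num) (2 * i + 1) le_rfl θ
  have a3 := keyp 2 (by norm_num) (2 * i + 1) le_rfl (2 * θ)
  have a4 := keyp 1 le_rfl (2 * i + 2) (by omega) θ
  have a5 := keyp 2 (by norm_num) (2 * i + 2) (by omega) θ
  have b1 := key 1 le_rfl (2 * i + 2) (by omega)
  have b3 := key 3 (by norm_num) (2 * i + 2) (by omega)
  rw [one_mul] at a1 a4 b1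
  have p1 : 0 < Real.exp (-(2 * t)) ^ (2 * i + 1) := by positivity
  have p2 : 0 < Real.exp (-(4 * t)) ^ (2 * i + 1) := by positivity
  have p3 : 0 < Real.exp (-(2 * t)) ^ (2 * i + 2) := by positivity
  have p4 : 0 < Real.exp (-t) ^ (2 * i + 1) := by positivity
  rw [abs_le] at a1 a2 a3 a4 a5
  unfold UB
  linarith [a1.1, a1.2, a2.1, a2.2, a3.1, a3.2, a4.1, a4.2, a5.1, a5.2]

theorem psi_plus {X : ℝ} (hX : 0.36 ≤ X) :
    2 / (1 + X) - 3.6 / (4 + X) - 6 / (9 + X) ≤ 0.062 := by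
  have h1 : 0 < 1 + X := by linarith
  have h2 : 0 < 4 + X := by linarith
  have h3 : 0 < 9 + X := by linarith
  rw [div_sub_div _ _ h1.ne' h2.ne', div_sub_div _ _ (by positivity) h3.ne', div_le_iff₀ (by positivity)]
  nlinarith [mul_pos h1 h2, mul_pos (mul_pos h1 h2) h3, sq_nonneg X, mul_nonneg (by linarith : 0 ≤ X) (sq_nonneg X)]

theorem psi_minus {X : ℝ} (hX : 0 ≤ X) :
    6 / (9 + X) - 3.6 / (4 + X) ≤ 0.062 := by
  have h2 : 0 < 4 + X := by linarith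
  have h3 : 0 < 9 + X := by linarith
  rw [div_sub_div _ _ h3.ne' h2.ne', div_le_iff₀ (by positivity)]
  nlinarith [sq_nonneg (X - 12.85)]

theorem hodd_pos {c S2 t h1 h3 A1 A3 : ℝ} (c0 : 0 ≤ c) (c1 : c ≤ 1) (hcS : c ^ 2 = 1 - S2)
    (h1n : 0 ≤ h1) (h3n : 0 ≤ h3) (h1u : h1 ≤ A1 + 0.17 * t) (h3l : 3 * A3 - 0.51 * t ≤ h3)
    (m3 : S2 * h3 ≤ 3.03 * t) : c * h1 - 2 * (c * h3) ≤ A1 - 6 * A3 + 7.25 * t := by
  have c3 : 1 - c ≤ S2 := by nlinarith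
  have k1 : (1 - c) * h3 ≤ S2 * h3 := mul_le_mul_of_nonneg_right c3 h3n
  have k2 : c * h1 ≤ 1 * h1 := mul_le_mul_of_nonneg_right c1 h1n
  linarith

theorem hodd_neg {c S2 t h1 h3 A1 A3 : ℝ} (c0 : c ≤ 0) (c1 : -1 ≤ c) (hcS : c ^ 2 = 1 - S2)
    (h1n : 0 ≤ h1) (h3n : 0 ≤ h3) (ht : 0 ≤ t) (h1l : A1 - 0.17 * t ≤ h1)
    (h3u : h3 ≤ 3 * A3 + 0.51 * t)
    (m1 : S2 * h1 ≤ 1.01 * t) : c * h1 - 2 * (c * h3) ≤ 6 * A3 - A1 + 7.25 * t := by
  have c3 : 1 + c ≤ S2 := by nlinarith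
  have k1 : (1 + c) * h1 ≤ S2 * h1 := mul_le_mul_of_nonneg_right c3 h1n
  have k2 : (-c) * h3 ≤ 1 * h3 := mul_le_mul_of_nonneg_right (by linarith) h3n
  linarith

theorem psi_case {t S2 : ℝ} (ht : 0 < t) (hS0 : 0 ≤ S2) (h : 0.36 * t ^ 2 ≤ S2) :
    2 * (t / (t ^ 2 + S2)) - 3.6 * (t / (4 * t ^ 2 + S2)) +
      (t / (t ^ 2 + S2) - 6 * (t / (9 * t ^ 2 + S2))) - t / (t ^ 2 + S2) ≤ 0.062 / t := by
  have x1 : t / (t ^ 2 + S2) = 1 / (1 + S2 / t ^ 2) / t := by field_simp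
  have x2 : t / (4 * t ^ 2 + S2) = 1 / (4 + S2 / t ^ 2) / t := by field_simp
  have x3 : t / (9 * t ^ 2 + S2) = 1 / (9 + S2 / t ^ 2) / t := by field_simp
  have hX : 0.36 ≤ S2 / t ^ 2 := by rw [le_div_iff₀ (by positivity)]; exact h
  have := psi_plus hX
  rw [x1, x2, x3]
  have e : 2 * (1 / (1 + S2 / t ^ 2) / t) - 3.6 * (1 / (4 + S2 / t ^ 2) / t) +
      (1 / (1 + S2 / t ^ 2) / t - 6 * (1 / (9 + S2 / t ^ 2) / t)) - 1 / (1 + S2 / t ^ 2) / t =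
      (2 / (1 + S2 / t ^ 2) - 3.6 / (4 + S2 / t ^ 2) - 6 / (9 + S2 / t ^ 2)) / t := by ring
  rw [e]
  gcongr

theorem psi_case' {t S2 : ℝ} (ht : 0 < t) (hS0 : 0 ≤ S2) :
    2 * (t / (t ^ 2 + S2)) - 3.6 * (t / (4 * t ^ 2 + S2)) +
      (6 * (t / (9 * t ^ 2 + S2)) - t / (t ^ 2 + S2)) - t / (t ^ 2 + S2) ≤ 0.062 / t := by
  have x1 : t / (t ^ 2 + S2) = 1 / (1 + S2 / t ^ 2) / t := by field_simp
  have x2 : t / (4 * t ^ 2 + S2) = 1 / (4 + S2 / t ^ 2) / t := by field_simp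
  have x3 : t / (9 * t ^ 2 + S2) = 1 / (9 + S2 / t ^ 2) / t := by field_simp
  have hX : 0 ≤ S2 / t ^ 2 := by positivity
  have := psi_minus hX
  rw [x1, x2, x3]
  have e : 2 * (1 / (1 + S2 / t ^ 2) / t) - 3.6 * (1 / (4 + S2 / t ^ 2) / t) +
      (6 * (1 / (9 + S2 / t ^ 2) / t) - 1 / (1 + S2 / t ^ 2) / t) - 1 / (1 + S2 / t ^ 2) / t =
      (6 / (9 + S2 / t ^ 2) - 3.6 / (4 + S2 / t ^ 2)) / t := by ring
  rw [e]
  gcongr

theorem second_harm {t S2 H A1 : ℝ} (ht : 0 < t) (hS0 : 0 ≤ S2) (hS : S2 ≤ 1 / 4)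
    (hA1 : A1 = t / (t ^ 2 + S2)) (k1 : A1 / 2 - 0.34 * t ≤ H) :
    - 2 * ((1 - 2 * S2) * H) ≤ - A1 + 2.68 * t := by
  have d1 : 0 < t ^ 2 + S2 := by positivity
  have hSA : S2 * A1 ≤ t := by
    rw [hA1, ← mul_div_assoc, div_le_iff₀ d1]; nlinarith [pow_pos ht 3]
  have k2 : 0 ≤ 1 - 2 * S2 := by linarith
  have k3 := mul_le_mul_of_nonneg_left k1 k2
  have k4 : S2 * t ≥ 0 := by positivity
  nlinarith

theorem constB {t : ℝ} (ht : 0 < t) (ht1 : t ≤ 1 / 76) :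
    0.762 / t + 0.05 + 15 * t ≤ 0.766 / t := by
  rw [div_add' _ _ _ ht.ne', div_add' _ _ _ ht.ne', div_le_div_iff_of_pos_right ht]
  nlinarith

theorem PO_B {t : ℝ} (ht : 0 < t) : Oc (2 * t) + 4 * Oc (4 * t) ≤ 0.75 / t := by
  have o2 := Oc_le (u := 2 * t) (by linarith)
  have o4 := Oc_le (u := 4 * t) (by linarith)
  have q2 : 1 / (2 * (2 * t)) = 0.25 / t := by field_simp; norm_num
  have q4 : 1 / (2 * (4 * t)) = 0.125 / t := by field_simp; norm_num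
  rw [q2] at o2; rw [q4] at o4
  have : (0.75 : ℝ) / t = 0.25 / t + 4 * (0.125 / t) := by field_simp; norm_num
  rw [this]; linarith

theorem PE_B {t : ℝ} (ht : 0 < t) (ht1 : t ≤ 1 / 76) :
    -(9 / 10) * Ec t + 4 * Ec (2 * t) - 18 / 5 * Ec (3 * t) ≤ -0.05 / t + 0.25 + 2.04 * t := by
  have e1 := le_Ec ht
  have e2 := Ec_le (u := 2 * t) (by linarith) (by linarith)
  have e3 := le_Ec (u := 3 * t) (by linarith)
  have q1 : 1 / (2 * t) = 0.5 / t := by field_simp; norm_num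
  have q2 : 1 / (2 * (2 * t)) = 0.25 / t := by field_simp; norm_num
  have q3 : 1 / (2 * (3 * t)) = (1 / 6) / t := by field_simp; norm_num
  rw [q1] at e1; rw [q2] at e2; rw [q3] at e3
  have : (-0.05 : ℝ) / t = -(9 / 10) * (0.5 / t) + 4 * (0.25 / t) - 18 / 5 * ((1 / 6) / t) := by
    field_simp; norm_num
  rw [this]; linarith

theorem sinh_le_101 {u : ℝ} (h0 : 0 ≤ u) (h1 : u ≤ 1 / 10) : Real.sinh u ≤ 1.01 * u := by
  have sh1 := sinh_le_small h0 h1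
  have sq1 : u ^ 2 ≤ 1 / 100 := by nlinarith
  nlinarith [mul_le_mul_of_nonneg_left sq1 h0]

/-- the analytic inequality of region B in abstract form -/
theorem PhiB_le {t θ : ℝ} (ht : 0 < t) (ht1 : t ≤ 1 / 76) (hS : Real.sin θ ^ 2 ≤ 1 / 4)
    (hc : 0 ≤ Real.cos θ → 0.36 * t ^ 2 ≤ Real.sin θ ^ 2) : PhiB t θ ≤ 0.766 / t := by
  have hS0 : 0 ≤ Real.sin θ ^ 2 := by positivity
  have hcS : Real.cos θ ^ 2 = 1 - Real.sin θ ^ 2 := by linarith [Real.sin_sq_add_cos_sq θ]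
  have hc2 : Real.cos (2 * θ) = 1 - 2 * Real.sin θ ^ 2 := by rw [Real.cos_two_mul']; linarith
  have hs2 : Real.sin (2 * θ) ^ 2 ≤ 4 * Real.sin θ ^ 2 := by
    rw [Real.sin_two_mul]; nlinarith
  have hc1 := Real.cos_le_one θ
  have hc1' := Real.neg_one_le_cos θ
  have t2 : 0 < 2 * t := by linarith
  have t3 : 0 < 3 * t := by linarith
  have u1 : t ≤ 1 / 10 := by linarith
  have u2 : 2 * t ≤ 1 / 10 := by linarith
  have u3 : 3 * t ≤ 1 / 10 := by linarith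
  have h22 := le_hf t2 u2 (sq_nonneg (Real.sin (2 * θ)))
  have hs0 : 0 ≤ Real.sin (2 * θ) ^ 2 := sq_nonneg _
  unfold PhiB
  rw [hc2]
  generalize Real.sin (2 * θ) ^ 2 = s22 at *
  generalize Real.sin θ ^ 2 = S2 at *
  generalize Real.cos θ = c at *
  have r2 : 2 * t / ((2 * t) ^ 2 + S2) = 2 * (t / (4 * t ^ 2 + S2)) := by field_simp; ring
  have r3 : 3 * t / ((3 * t) ^ 2 + S2) = 3 * (t / (9 * t ^ 2 + S2)) := by field_simp; ring
  have g1 := cosh_hf_le ht u1 hS0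
  have g2 := le_cosh_hf t2 u2 hS0
  have h1u := hf_le ht u1 hS0
  have h1l := le_hf ht u1 hS0
  have h3u := hf_le t3 u3 hS0
  have h3l := le_hf t3 u3 hS0
  rw [r2] at g2
  rw [r3] at h3u h3l
  have h1n := hf_nonneg ht hS0
  have h3n := hf_nonneg t3 hS0
  have m1 := (mul_hf_le ht hS0).trans (sinh_le_101 ht.le u1)
  have m3 := (mul_hf_le t3 hS0).trans (sinh_le_101 t3.le u3)
  have pO := PO_B ht
  have pE := PE_B ht ht1
  have hcon := constB ht ht1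
  have hsplit : (0.762 : ℝ) / t = 0.75 / t + -0.05 / t + 0.062 / t := by
    rw [← add_div, ← add_div]; norm_num
  have h22' : t / (t ^ 2 + S2) / 2 ≤ 2 * t / ((2 * t) ^ 2 + s22) := by
    rw [div_div, div_le_div_iff₀ (by positivity) (by positivity)]
    nlinarith
  have hsec := second_harm (H := hf (2 * t) s22) ht hS0 hS rfl (by linarith)
  rcases le_or_gt 0 c with hcc | hcc
  · have hodd := hodd_pos (t := t) (A1 := t / (t ^ 2 + S2)) (A3 := t / (9 * t ^ 2 + S2))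
      hcc hc1 hcS h1n h3n h1u (by linarith) (by linarith)
    have hpsi := psi_case ht hS0 (hc hcc)
    linarith
  · have hodd := hodd_neg (t := t) (A1 := t / (t ^ 2 + S2)) (A3 := t / (9 * t ^ 2 + S2))
      hcc.le hc1' hcS h1n h3n ht.le (by linarith) (by linarith) (by linarith)
    have hpsi := psi_case' ht hS0
    linarith

theorem regionB {t θ : ℝ} (ht : 0 < t) (ht1 : t ≤ 1 / 76) (hS : Real.sin θ ^ 2 ≤ 1 / 4)
    (hc : 0 ≤ Real.cos θ → 0.36 * t ^ 2 ≤ Real.sin θ ^ 2) (M : ℕ) :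
    ‖Pz M (pt t θ)‖ ^ 2 ≤
      Real.exp (1.416 / t + 60 * Real.exp (-t) ^ (2 * M) / (1 - Real.exp (-t))) := by
  have hx1 : Real.exp (-t) < 1 := by rw [Real.exp_lt_one_iff]; linarith
  unfold Pz
  rw [norm_prod, ← Finset.prod_pow]
  calc ∏ i ∈ range M, ‖(1 + 2 * pt t θ ^ (2 * i + 1)) * (1 - pt t θ ^ (2 * i + 1)) *
        (1 + 2 * pt t θ ^ (2 * i + 2))‖ ^ 2
      ≤ ∏ i ∈ range M, Real.exp (UB t θ i - Real.log (1 - 9 / 10 * Real.exp (-t) ^ (2 * i + 2))) :=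
        Finset.prod_le_prod (fun i _ => by positivity) (fun i _ => factorB ht θ i)
    _ = Real.exp (∑ i ∈ range M, UB t θ i +
          ∑ i ∈ range M, (- Real.log (1 - 9 / 10 * Real.exp (-t) ^ (2 * i + 2)))) := by
        rw [← Real.exp_sum, ← Finset.sum_add_distrib]; rfl
    _ ≤ _ := by
        rw [Real.exp_le_exp]
        have h1 := sum_le_add_tail (hasSum_UB ht θ) (Real.exp_pos _).le hx1 (by norm_num)
          (UB_lower ht θ) M
        have h2 := log_sum_even (a := 9 / 10) (by norm_num) (by norm_num) ht M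
        have h3 := PhiB_le ht ht1 hS hc
        have h4 : Li (9 / 10) / (2 * t) ≤ 1.3 / (2 * t) := by
          have := Li_nine; gcongr
        have h5 : (1.3 : ℝ) / (2 * t) = 0.65 / t := by field_simp; norm_num
        have h6 : (1.416 : ℝ) / t = 0.65 / t + 0.766 / t := by rw [← add_div]; norm_num
        have h7 : 30 * Real.exp (-t) ^ (2 * M) / (1 - Real.exp (-t)) ≤
            60 * Real.exp (-t) ^ (2 * M) / (1 - Real.exp (-t)) := by
          have : 0 < 1 - Real.exp (-t) := by linarith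
          gcongr; norm_num
        linarith

end Pool.Agent.Lib.MP781
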