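import Mathlib
import Pool.Agent.Lib.MP_781ce4_nt.RegionB

namespace Pool.Agent.Lib.MP781

open Real Finset

/-- polynomial part of the exponent in region A -/
noncomputable def UA (t θ : ℝ) (i : ℕ) : ℝ :=
  ((-(7 / 5) * Real.exp (-t) ^ (2 * i + 1) + 5 * Real.exp (-(2 * t)) ^ (2 * i + 1)
      - 41 / 10 * Real.exp (-(3 * t)) ^ (2 * i + 1)) +
    (2 * (pt t θ ^ (2 * i + 1)).re - 13 / 5 * (pt (2 * t) θ ^ (2 * i + 1)).re)) +
  ((-(9 / 10) * Real.exp (-t) ^ (2 * i + 2) + 4 * Real.exp (-(2 * t)) ^ (2 * i + 2)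
    - 18 / 5 * Real.exp (-(3 * t)) ^ (2 * i + 2)) +
    (4 * (pt t θ ^ (2 * i + 2)).re - 18 / 5 * (pt (2 * t) θ ^ (2 * i + 2)).re))

noncomputable def PhiA (t θ : ℝ) : ℝ :=
  ((-(7 / 5) * Oc t + 5 * Oc (2 * t) - 41 / 10 * Oc (3 * t)) +
    (2 * (Real.cos θ * hf t (Real.sin θ ^ 2) / 2) -
      13 / 5 * (Real.cos θ * hf (2 * t) (Real.sin θ ^ 2) / 2))) +
  ((-(9 / 10) * Ec t + 4 * Ec (2 * t) - 18 / 5 * Ec (3 * t)) +
    (4 * ((Real.cosh t * hf t (Real.sin θ ^ 2) - 1) / 2) -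
      18 / 5 * ((Real.cosh (2 * t) * hf (2 * t) (Real.sin θ ^ 2) - 1) / 2)))

theorem hasSum_UA {t : ℝ} (ht : 0 < t) (θ : ℝ) : HasSum (UA t θ) (PhiA t θ) := by
  have h2 : 0 < 2 * t := by linarith
  have h3 : 0 < 3 * t := by linarith
  unfold PhiA
  exact (((((hasSum_Oc ht).mul_left (-(7 / 5))).add ((hasSum_Oc h2).mul_left 5)).sub
      ((hasSum_Oc h3).mul_left (41 / 10))).add
    (((hasSum_pt_odd ht θ).mul_left 2).sub ((hasSum_pt_odd h2 θ).mul_left (13 / 5)))).add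
    (((((hasSum_Ec ht).mul_left (-(9 / 10))).add ((hasSum_Ec h2).mul_left 4)).sub
      ((hasSum_Ec h3).mul_left (18 / 5))).add
      (((hasSum_pt_even ht θ).mul_left 4).sub ((hasSum_pt_even h2 θ).mul_left (18 / 5))))

theorem factorA {t : ℝ} (ht : 0 < t) (θ : ℝ) (i : ℕ) :
    ‖(1 + 2 * pt t θ ^ (2 * i + 1)) * (1 - pt t θ ^ (2 * i + 1)) * (1 + 2 * pt t θ ^ (2 * i + 2))‖ ^ 2
      ≤ Real.exp (UA t θ i + (- Real.log (1 - 9 / 10 * Real.exp (-t) ^ (2 * i + 1)))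
        + (- Real.log (1 - 1 / 2 * Real.exp (-t) ^ (2 * i + 1)))
        + (- Real.log (1 - 9 / 10 * Real.exp (-t) ^ (2 * i + 2)))) := by
  rw [norm_mul, norm_mul, mul_pow, mul_pow, normSq_one_sub, normSq_one_add_two_mul,
    normSq_one_add_two_mul, pt_pow_norm, pt_pow_norm]
  set x := Real.exp (-t) with hx
  have hx0 : 0 < x := Real.exp_pos _
  have hx1 : x < 1 := by rw [hx, Real.exp_lt_one_iff]; linarith
  have hκ : 0 < 1 - 9 / 10 * x ^ (2 * i + 2) := by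
    have : x ^ (2 * i + 2) ≤ 1 := pow_le_one₀ hx0.le hx1.le
    linarith
  have hκ1 : 0 < 1 - 9 / 10 * x ^ (2 * i + 1) := by
    have : x ^ (2 * i + 1) ≤ 1 := pow_le_one₀ hx0.le hx1.le
    linarith
  have hκ2 : 0 < 1 - 1 / 2 * x ^ (2 * i + 1) := by
    have : x ^ (2 * i + 1) ≤ 1 := pow_le_one₀ hx0.le hx1.le
    linarith
  have e0 := le_exp_tangent hκ1 (1 + 4 * (x ^ (2 * i + 1)) ^ 2 + 4 * (pt t θ ^ (2 * i + 1)).re)
  have e1 := le_exp_tangent hκ2 (1 + (x ^ (2 * i + 1)) ^ 2 - 2 * (pt t θ ^ (2 * i + 1)).re)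
  have e2 := le_exp_tangent hκ (1 + 4 * (x ^ (2 * i + 2)) ^ 2 + 4 * (pt t θ ^ (2 * i + 2)).re)
  have n2 : 0 ≤ 1 + 4 * (x ^ (2 * i + 2)) ^ 2 + 4 * (pt t θ ^ (2 * i + 2)).re := by
    have := normSq_one_add_two_mul (pt t θ ^ (2 * i + 2))
    rw [pt_pow_norm] at this
    rw [← hx] at this
    rw [← this]; positivity
  have n1 : 0 ≤ 1 + (x ^ (2 * i + 1)) ^ 2 - 2 * (pt t θ ^ (2 * i + 1)).re := by
    have := normSq_one_sub (pt t θ ^ (2 * i + 1))
    rw [pt_pow_norm] at this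
    rw [← hx] at this
    rw [← this]; positivity
  refine (mul_le_mul (mul_le_mul e0 e1 n1 (Real.exp_pos _).le) e2 n2 (by positivity)).trans (le_of_eq ?_)
  rw [← Real.exp_add, ← Real.exp_add]
  congr 1
  have k1 : Real.exp (-(2 * t)) ^ (2 * i + 1) = (x ^ (2 * i + 1)) ^ 2 := by
    have := exp_pow_eq t 2 (2 * i + 1); simpa using this
  have k2 : Real.exp (-(3 * t)) ^ (2 * i + 1) = (x ^ (2 * i + 1)) ^ 3 := by
    have := exp_pow_eq t 3 (2 * i + 1); simpa using this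
  have k3 : Real.exp (-(2 * t)) ^ (2 * i + 2) = (x ^ (2 * i + 2)) ^ 2 := by
    have := exp_pow_eq t 2 (2 * i + 2); simpa using this
  have k4 : Real.exp (-(3 * t)) ^ (2 * i + 2) = (x ^ (2 * i + 2)) ^ 3 := by
    have := exp_pow_eq t 3 (2 * i + 2); simpa using this
  have k5 : (pt (2 * t) θ ^ (2 * i + 1)).re = x ^ (2 * i + 1) * (pt t θ ^ (2 * i + 1)).re := by
    rw [exp_mul_pt_pow_re]; congr 3; ring
  have k7 : (pt (2 * t) θ ^ (2 * i + 2)).re = x ^ (2 * i + 2) * (pt t θ ^ (2 * i + 2)).re := by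
    rw [exp_mul_pt_pow_re]; congr 3; ring
  rw [UA, k1, k2, k3, k4, k5, k7]
  ring

theorem UA_lower {t : ℝ} (ht : 0 < t) (θ : ℝ) (i : ℕ) :
    - UA t θ i ≤ 30 * Real.exp (-t) ^ (2 * i + 1) := by
  have hx0 : 0 < Real.exp (-t) := Real.exp_pos _
  have hx1 : Real.exp (-t) ≤ 1 := by rw [Real.exp_le_one_iff]; linarith
  have key : ∀ (k : ℝ), 1 ≤ k → ∀ n, 2 * i + 1 ≤ n →
      Real.exp (-(k * t)) ^ n ≤ Real.exp (-t) ^ (2 * i + 1) := by
    intro k hk n hn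
    have h1 : Real.exp (-(k * t)) ≤ Real.exp (-t) := by
      rw [Real.exp_le_exp]; nlinarith
    exact (pow_le_pow_left₀ (Real.exp_pos _).le h1 n).trans (pow_le_pow_of_le_one hx0.le hx1 hn)
  have keyp : ∀ (k : ℝ), 1 ≤ k → ∀ n, 2 * i + 1 ≤ n → ∀ φ,
      |(pt (k * t) φ ^ n).re| ≤ Real.exp (-t) ^ (2 * i + 1) := by
    intro k hk n hn φ
    refine (Complex.abs_re_le_norm _).trans ?_
    rw [pt_pow_norm]; exact key k hk n hn
  have a1 := keyp 1 le_rfl (2 * i + 1) le_rfl θ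
  have a2 := keyp 2 (by norm_num) (2 * i + 1) le_rfl θ
  have a4 := keyp 1 le_rfl (2 * i + 2) (by omega) θ
  have a5 := keyp 2 (by norm_num) (2 * i + 2) (by omega) θ
  have b1 := key 1 le_rfl (2 * i + 2) (by omega)
  have b3 := key 3 (by norm_num) (2 * i + 2) (by omega)
  have b4 := key 3 (by norm_num) (2 * i + 1) (by omega)
  rw [one_mul] at a1 a4 b1
  have p1 : 0 < Real.exp (-(2 * t)) ^ (2 * i + 1) := by positivity
  have p3 : 0 < Real.exp (-(2 * t)) ^ (2 * i + 2) := by positivity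
  have p4 : 0 < Real.exp (-t) ^ (2 * i + 1) := by positivity
  rw [abs_le] at a1 a2 a4 a5
  unfold UA
  linarith [a1.1, a1.2, a2.1, a2.2, a4.1, a4.2, a5.1, a5.2]

theorem constA {t : ℝ} (ht : 0 < t) (ht1 : t ≤ 1 / 76) :
    -(11 / 60) / t + 0.05 + 26 * t ≤ -0.17515 / t := by
  rw [div_add' _ _ _ ht.ne', div_add' _ _ _ ht.ne', div_le_div_iff_of_pos_right ht]
  nlinarith

theorem PO_A {t : ℝ} (ht : 0 < t) (ht1 : t ≤ 1 / 76) :
    -(7 / 5) * Oc t + 5 * Oc (2 * t) - 41 / 10 * Oc (3 * t) ≤ -(2 / 15) / t + 1.17 * t := by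
  have o1 := le_Oc ht (by linarith)
  have o2 := Oc_le (u := 2 * t) (by linarith)
  have o3 := le_Oc (u := 3 * t) (by linarith) (by linarith)
  have q1 : 1 / (2 * t) = 0.5 / t := by field_simp; norm_num
  have q2 : 1 / (2 * (2 * t)) = 0.25 / t := by field_simp; norm_num
  have q3 : 1 / (2 * (3 * t)) = (1 / 6) / t := by field_simp; norm_num
  rw [q1] at o1; rw [q2] at o2; rw [q3] at o3
  have : (-(2 / 15) : ℝ) / t = -(7 / 5) * (0.5 / t) + 5 * (0.25 / t) - 41 / 10 * ((1 / 6) / t) := by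
    field_simp; norm_num
  rw [this]; linarith

theorem hf_le_four {u S2 : ℝ} (h0 : 0 < u) (h1 : u ≤ 1 / 10) (hS : 1 / 4 ≤ S2) :
    hf u S2 ≤ 4.04 * u := by
  have h2 := sinh_le_101 h0.le h1
  have h3 := (mul_hf_le h0 (by linarith : 0 ≤ S2)).trans h2
  have h4 := hf_nonneg h0 (by linarith : 0 ≤ S2)
  nlinarith

theorem PhiA_le {t θ : ℝ} (ht : 0 < t) (ht1 : t ≤ 1 / 76) (hS : 1 / 4 ≤ Real.sin θ ^ 2) :
    PhiA t θ ≤ -0.17515 / t := by
  have hc1 := Real.cos_le_one θ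
  have hc1' := Real.neg_one_le_cos θ
  have t2 : 0 < 2 * t := by linarith
  have u1 : t ≤ 1 / 10 := by linarith
  have u2 : 2 * t ≤ 1 / 10 := by linarith
  unfold PhiA
  generalize Real.sin θ ^ 2 = S2 at *
  generalize Real.cos θ = c at *
  have hS0 : 0 ≤ S2 := by linarith
  have k1 := hf_le_four ht u1 hS
  have k2 := hf_le_four t2 u2 hS
  have n1 := hf_nonneg ht hS0
  have n2 := hf_nonneg t2 hS0
  have cc : Real.cosh t ≤ 1.01 := by
    have := cosh_le_small ht.le u1; nlinarith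
  have cc1 := Real.one_le_cosh t
  have cc2 := Real.one_le_cosh (2 * t)
  have pO := PO_A ht ht1
  have pE := PE_B ht ht1
  have hcon := constA ht ht1
  have m1 : c * hf t S2 ≤ 1 * hf t S2 := mul_le_mul_of_nonneg_right hc1 n1
  have m2 : (-c) * hf (2 * t) S2 ≤ 1 * hf (2 * t) S2 := mul_le_mul_of_nonneg_right (by linarith) n2
  have m3 : Real.cosh t * hf t S2 ≤ 1.01 * (4.04 * t) := by
    apply mul_le_mul cc k1 n1 (by norm_num)
  have m4 : 0 ≤ Real.cosh (2 * t) * hf (2 * t) S2 := by positivity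
  have hsplit : (-(11 / 60) : ℝ) / t = -(2 / 15) / t + -0.05 / t := by
    rw [← add_div]; norm_num
  linarith

theorem regionA {t θ : ℝ} (ht : 0 < t) (ht1 : t ≤ 1 / 76) (hS : 1 / 4 ≤ Real.sin θ ^ 2) (M : ℕ) :
    ‖Pz M (pt t θ)‖ ^ 2 ≤
      Real.exp (1.416 / t + 60 * Real.exp (-t) ^ (2 * M) / (1 - Real.exp (-t))) := by
  have hx1 : Real.exp (-t) < 1 := by rw [Real.exp_lt_one_iff]; linarith
  unfold Pz
  rw [norm_prod, ← Finset.prod_pow]
  calc ∏ i ∈ range M, ‖(1 + 2 * pt t θ ^ (2 * i + 1)) * (1 - pt t θ ^ (2 * i + 1)) *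
        (1 + 2 * pt t θ ^ (2 * i + 2))‖ ^ 2
      ≤ ∏ i ∈ range M, Real.exp (UA t θ i + (- Real.log (1 - 9 / 10 * Real.exp (-t) ^ (2 * i + 1)))
        + (- Real.log (1 - 1 / 2 * Real.exp (-t) ^ (2 * i + 1)))
        + (- Real.log (1 - 9 / 10 * Real.exp (-t) ^ (2 * i + 2)))) :=
        Finset.prod_le_prod (fun i _ => by positivity) (fun i _ => factorA ht θ i)
    _ = Real.exp (∑ i ∈ range M, UA t θ i +
          ∑ i ∈ range M, (- Real.log (1 - 9 / 10 * Real.exp (-t) ^ (2 * i + 1))) +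
          ∑ i ∈ range M, (- Real.log (1 - 1 / 2 * Real.exp (-t) ^ (2 * i + 1))) +
          ∑ i ∈ range M, (- Real.log (1 - 9 / 10 * Real.exp (-t) ^ (2 * i + 2)))) := by
        rw [← Real.exp_sum, ← Finset.sum_add_distrib, ← Finset.sum_add_distrib,
          ← Finset.sum_add_distrib]
    _ ≤ _ := by
        rw [Real.exp_le_exp]
        have h1 := sum_le_add_tail (hasSum_UA ht θ) (Real.exp_pos _).le hx1 (by norm_num)
          (UA_lower ht θ) M
        have h2 := log_sum_even (a := 9 / 10) (by norm_num) (by norm_num) ht M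
        have h2' := log_sum_odd (a := 9 / 10) (by norm_num) (by norm_num) ht M
        have h2'' := log_sum_odd (a := 1 / 2) (by norm_num) (by norm_num) ht M
        have h3 := PhiA_le ht ht1 hS
        have h4 : Li (9 / 10) / (2 * t) ≤ 1.3 / (2 * t) := by
          have := Li_nine; gcongr
        have h4' : Li (1 / 2) / (2 * t) ≤ 0.5823 / (2 * t) := by
          have := Li_half; gcongr
        have h5 : (1.3 : ℝ) / (2 * t) = 0.65 / t := by field_simp; norm_num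
        have h5' : (0.5823 : ℝ) / (2 * t) = 0.29115 / t := by field_simp; norm_num
        have h6 : (1.416 : ℝ) / t = 0.65 / t + 0.65 / t + 0.29115 / t + -0.17515 / t := by
          rw [← add_div, ← add_div, ← add_div]; norm_num
        have h7 : 30 * Real.exp (-t) ^ (2 * M) / (1 - Real.exp (-t)) ≤
            60 * Real.exp (-t) ^ (2 * M) / (1 - Real.exp (-t)) := by
          have : 0 < 1 - Real.exp (-t) := by linarith
          gcongr; norm_num
        linarith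

end Pool.Agent.Lib.MP781
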