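import Mathlib
import Pool.Agent.Lib.MP_781ce4_nt.RegionA

namespace Pool.Agent.Lib.MP781

open Real Finset

/-- `p(x) = x - (11/10) x² + (7/12) x³`, a majorant of `log ((1+2x)/(1+x))` on `[0,1]`. -/
noncomputable def pp (x : ℝ) : ℝ := x - 11 / 10 * x ^ 2 + 7 / 12 * x ^ 3

theorem cubic_nonneg {x : ℝ} (h0 : 0 ≤ x) : 0 ≤ 0.8 - 2.85 * x + 0.85 * x ^ 2 + 3.5 * x ^ 3 := by
  nlinarith [mul_nonneg h0 (sq_nonneg (x - 0.46)), sq_nonneg (x - 0.46), sq_nonneg (x - 0.45),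
    mul_nonneg h0 (sq_nonneg (x - 0.47)), mul_nonneg h0 (sq_nonneg (x - 0.5)), sq_nonneg (x - 0.47)]

theorem log_le_pp {x : ℝ} (h0 : 0 ≤ x) : Real.log (1 + 2 * x) - Real.log (1 + x) ≤ pp x := by
  have key : MonotoneOn (fun x : ℝ => pp x - (Real.log (1 + 2 * x) - Real.log (1 + x)))
      (Set.Ici 0) := by
    apply monotoneOn_of_deriv_nonneg (convex_Ici _)
    · apply ContinuousOn.sub
      · unfold pp; fun_prop
      · apply ContinuousOn.sub
        · apply ContinuousOn.log (by fun_prop)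
          intro x hx; have : (0:ℝ) ≤ x := hx; positivity
        · apply ContinuousOn.log (by fun_prop)
          intro x hx; have : (0:ℝ) ≤ x := hx; positivity
    · intro x hx
      rw [interior_Ici] at hx
      have hx' : 0 < x := hx
      apply DifferentiableAt.differentiableWithinAt
      unfold pp
      have h1 : (1 + 2 * x) ≠ 0 := by positivity
      have h2 : (1 + x) ≠ 0 := by positivity
      fun_prop (disch := assumption)
    · intro x hx
      rw [interior_Ici] at hx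
      have hx' : 0 < x := hx
      have h1 : (1 + 2 * x) ≠ 0 := by positivity
      have h2 : (1 + x) ≠ 0 := by positivity
      have hd1 : HasDerivAt pp (1 - 11 / 10 * (2 * x) + 7 / 12 * (3 * x ^ 2)) x := by
        have := ((hasDerivAt_id' x).fun_sub ((hasDerivAt_pow 2 x).const_mul (11 / 10))).fun_add
          ((hasDerivAt_pow 3 x).const_mul (7 / 12))
        exact this.congr_deriv (by norm_num)
      have hd2 : HasDerivAt (fun x : ℝ => Real.log (1 + 2 * x)) (2 / (1 + 2 * x)) x := by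
        have := (((hasDerivAt_id' x).const_mul 2).const_add 1).log h1
        exact this.congr_deriv (by norm_num)
      have hd3 : HasDerivAt (fun x : ℝ => Real.log (1 + x)) (1 / (1 + x)) x := by
        have := ((hasDerivAt_id' x).const_add 1).log h2
        exact this
      have hd := hd1.fun_sub (hd2.fun_sub hd3)
      rw [hd.deriv]
      have e : 1 - 11 / 10 * (2 * x) + 7 / 12 * (3 * x ^ 2) - (2 / (1 + 2 * x) - 1 / (1 + x)) =
          (x * (0.8 - 2.85 * x + 0.85 * x ^ 2 + 3.5 * x ^ 3)) / ((1 + 2 * x) * (1 + x)) := by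
        field_simp; ring
      rw [e]
      have := cubic_nonneg hx'.le
      positivity
  have := key (Set.self_mem_Ici) h0 h0
  simp only [pp] at this ⊢
  norm_num at this
  linarith

theorem pp_nonneg {x : ℝ} (h0 : 0 ≤ x) : 0 ≤ pp x := by
  unfold pp
  have : x - 11 / 10 * x ^ 2 + 7 / 12 * x ^ 3 = x * (1 - 11 / 10 * x + 7 / 12 * x ^ 2) := by ring
  rw [this]
  apply mul_nonneg h0
  nlinarith [sq_nonneg (x - 0.94)]

theorem artanh_le {x : ℝ} (h0 : 0 ≤ x) (h1 : x < 1) :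
    Real.log (1 + x) - Real.log (1 - x) ≤ 2 * (x + x ^ 3 / (3 * (1 - x ^ 2))) := by
  have hs := Real.hasSum_log_sub_log_of_abs_lt_one (x := x) (by rw [abs_of_nonneg h0]; exact h1)
  have hx2 : x ^ 2 < 1 := by nlinarith
  have hs' := (hasSum_nat_add_iff' 1).2 hs
  have hg : HasSum (fun i : ℕ => (2 / 3 * x ^ 3) * (x ^ 2) ^ i) ((2 / 3 * x ^ 3) * (1 - x ^ 2)⁻¹) :=
    (hasSum_geometric_of_lt_one (by positivity) hx2).mul_left _
  have hle := hasSum_le (fun i => ?_) hs' hg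
  · simp at hle
    have : 2 * (x + x ^ 3 / (3 * (1 - x ^ 2))) = 2 * x + 2 / 3 * x ^ 3 * (1 - x ^ 2)⁻¹ := by
      have : 1 - x ^ 2 ≠ 0 := by linarith
      field_simp
    rw [this]
    linarith
  · have e : (2 / 3 * x ^ 3) * (x ^ 2) ^ i = 2 * (1 / 3) * x ^ (2 * (i + 1) + 1) := by
      rw [← pow_mul]; ring
    rw [e]
    have h3 : (1 : ℝ) / (2 * ((i + 1 : ℕ) : ℝ) + 1) ≤ 1 / 3 := by
      apply one_div_le_one_div_of_le (by norm_num)
      push_cast
      have : (0 : ℝ) ≤ i := Nat.cast_nonneg i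
      linarith
    gcongr

/-- the pointwise bound of region 0 -/
theorem ratio_le {ρ c : ℝ} (h0 : 0 ≤ ρ) (h1 : ρ < 1) (hc : c ≤ 1) (hc' : -1 ≤ c) :
    1 + 4 * ρ ^ 2 + 4 * (ρ * c) ≤
      Real.exp (2 * (pp ρ + (1 - c) * (ρ ^ 2 + ρ ^ 3 / (3 * (1 - ρ ^ 2))))) * (1 + ρ ^ 2 + 2 * (ρ * c)) := by
  -- upper bound for the numerator
  set A := ρ ^ 3 / (3 * (1 - ρ ^ 2)) with hA
  have hy0 : 0 < (1 + 2 * ρ) ^ 2 := by positivity
  have num : 1 + 4 * ρ ^ 2 + 4 * (ρ * c) ≤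
      Real.exp (2 * Real.log (1 + 2 * ρ) - 2 * (1 - c) * (ρ - ρ ^ 2)) := by
    have h2 := le_exp_tangent (κ := ((1 + 2 * ρ) ^ 2)⁻¹) (by positivity) (1 + 4 * ρ ^ 2 + 4 * (ρ * c))
    refine h2.trans ?_
    rw [Real.exp_le_exp, Real.log_inv, Real.log_pow]
    have e : ((1 + 2 * ρ) ^ 2)⁻¹ * (1 + 4 * ρ ^ 2 + 4 * (ρ * c)) - 1 =
        - ((1 - c) * (4 * ρ / (1 + 2 * ρ) ^ 2)) := by
      field_simp; ring
    rw [e]
    have h3 : ρ - ρ ^ 2 ≤ 2 * ρ / (1 + 2 * ρ) ^ 2 := by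
      rw [le_div_iff₀ hy0]
      nlinarith [mul_nonneg h0 (mul_nonneg (by linarith : 0 ≤ ρ + 1) (sq_nonneg (2 * ρ - 1)))]
    have h4 : (1 - c) * (ρ - ρ ^ 2) ≤ (1 - c) * (2 * ρ / (1 + 2 * ρ) ^ 2) :=
      mul_le_mul_of_nonneg_left h3 (by linarith)
    have h5 : 4 * ρ / (1 + 2 * ρ) ^ 2 = 2 * (2 * ρ / (1 + 2 * ρ) ^ 2) := by ring
    rw [h5]
    push_cast
    nlinarith
  have den : Real.exp (2 * Real.log (1 + ρ) - (1 - c) * (Real.log (1 + ρ) - Real.log (1 - ρ))) ≤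
      1 + ρ ^ 2 + 2 * (ρ * c) := by
    have hA0 : 0 < (1 + ρ) ^ 2 := by positivity
    have hB0 : 0 < (1 - ρ) ^ 2 := by
      have : 0 < 1 - ρ := by linarith
      positivity
    have hcc := strictConcaveOn_log_Ioi.concaveOn.2 (Set.mem_Ioi.2 hA0) (Set.mem_Ioi.2 hB0)
      (by linarith : 0 ≤ (1 + c) / 2) (by linarith : 0 ≤ (1 - c) / 2) (by ring)
    simp only [smul_eq_mul] at hcc
    have e1 : (1 + c) / 2 * (1 + ρ) ^ 2 + (1 - c) / 2 * (1 - ρ) ^ 2 = 1 + ρ ^ 2 + 2 * (ρ * c) := by ring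
    rw [e1, Real.log_pow, Real.log_pow] at hcc
    have hpos : 0 < 1 + ρ ^ 2 + 2 * (ρ * c) := by
      rw [← e1]
      rcases le_or_gt c 0 with h | h
      · have : 0 ≤ (1 + c) / 2 * (1 + ρ) ^ 2 := by
          have : 0 ≤ (1 + c) / 2 := by linarith
          positivity
        have : 0 < (1 - c) / 2 * (1 - ρ) ^ 2 := by
          have : 0 < (1 - c) / 2 := by linarith
          positivity
        linarith
      · have : 0 ≤ (1 - c) / 2 * (1 - ρ) ^ 2 := by
          have : 0 ≤ (1 - c) / 2 := by linarith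
          positivity
        have : 0 < (1 + c) / 2 * (1 + ρ) ^ 2 := by positivity
        linarith
    rw [← Real.le_log_iff_exp_le hpos]
    refine le_trans (le_of_eq ?_) hcc
    push_cast; ring
  have hlog := log_le_pp h0
  have hart := artanh_le h0 h1
  calc 1 + 4 * ρ ^ 2 + 4 * (ρ * c) ≤
      Real.exp (2 * Real.log (1 + 2 * ρ) - 2 * (1 - c) * (ρ - ρ ^ 2)) := num
    _ ≤ Real.exp (2 * (pp ρ + (1 - c) * (ρ ^ 2 + A))) *
        Real.exp (2 * Real.log (1 + ρ) - (1 - c) * (Real.log (1 + ρ) - Real.log (1 - ρ))) := by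
        rw [← Real.exp_add, Real.exp_le_exp]
        have h4 : (1 - c) * (Real.log (1 + ρ) - Real.log (1 - ρ)) ≤ (1 - c) * (2 * (ρ + A)) :=
          mul_le_mul_of_nonneg_left hart (by linarith)
        nlinarith
    _ ≤ _ := by gcongr

end Pool.Agent.Lib.MP781
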