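import Mathlib
import Pool.Agent.Lib.MP_781ce4_nt.Region0

namespace Pool.Agent.Lib.MP781

open Real Finset

theorem prod_identity {R : Type*} [CommRing R] (z : R) (M : ℕ) :
    ((∏ j ∈ range (2 * M), (1 + z ^ (j + 1))) * ∏ i ∈ range M, (1 - z ^ (2 * i + 1))) *
      ∏ i ∈ range M, (1 - z ^ (2 * i + 2)) = ∏ i ∈ range (2 * M), (1 - z ^ (2 * i + 2)) := by
  induction M with
  | zero => simp
  | succ M ih =>
    rw [show 2 * (M + 1) = 2 * M + 1 + 1 by ring, prod_range_succ, prod_range_succ,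
      prod_range_succ _ (2 * M + 1), prod_range_succ _ (2 * M), prod_range_succ _ M,
      prod_range_succ _ M, ← ih]
    ring

theorem Pz_eq (M : ℕ) (z : ℂ) : Pz M z =
    (∏ j ∈ range (2 * M), (1 + 2 * z ^ (j + 1))) * ∏ i ∈ range M, (1 - z ^ (2 * i + 1)) := by
  unfold Pz
  induction M with
  | zero => simp
  | succ M ih =>
    rw [show 2 * (M + 1) = 2 * M + 1 + 1 by ring, prod_range_succ, prod_range_succ,
      prod_range_succ _ (2 * M), prod_range_succ _ M, ih]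
    ring

theorem one_sub_ne_zero {z : ℂ} (h : ‖z‖ < 1) {n : ℕ} (hn : n ≠ 0) : 1 - z ^ n ≠ 0 := by
  intro h0
  have h1 : z ^ n = 1 := by linear_combination -h0
  have h2 : ‖z ^ n‖ < 1 := by rw [norm_pow]; exact pow_lt_one₀ (norm_nonneg _) h hn
  rw [h1] at h2
  simp at h2

theorem prod_Ico_identity {z : ℂ} (h : ‖z‖ < 1) (M : ℕ) :
    (∏ j ∈ range (2 * M), (1 + z ^ (j + 1))) * ∏ i ∈ range M, (1 - z ^ (2 * i + 1)) =
      ∏ i ∈ Ico M (2 * M), (1 - z ^ (2 * i + 2)) := by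
  have h1 := prod_identity z M
  have h2 := prod_range_mul_prod_Ico (fun i => 1 - z ^ (2 * i + 2)) (show M ≤ 2 * M by omega)
  have hne : ∏ i ∈ range M, (1 - z ^ (2 * i + 2)) ≠ 0 :=
    prod_ne_zero_iff.2 (fun i _ => one_sub_ne_zero h (by omega))
  apply mul_right_cancel₀ hne
  rw [h1, ← h2]
  ring

theorem tail_prod_le {z : ℂ} {x : ℝ} (hx0 : 0 ≤ x) (hx : ‖z‖ = x) (hx1 : x < 1) (M : ℕ) :
    ‖∏ i ∈ Ico M (2 * M), (1 - z ^ (2 * i + 2))‖ ≤ Real.exp (x ^ (2 * M) / (1 - x)) := by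
  rw [norm_prod]
  calc ∏ i ∈ Ico M (2 * M), ‖1 - z ^ (2 * i + 2)‖
      ≤ ∏ i ∈ Ico M (2 * M), Real.exp (x ^ (2 * i + 2)) := by
        apply Finset.prod_le_prod (fun i _ => norm_nonneg _)
        intro i _
        calc ‖1 - z ^ (2 * i + 2)‖ ≤ ‖(1 : ℂ)‖ + ‖z ^ (2 * i + 2)‖ := norm_sub_le _ _
          _ = x ^ (2 * i + 2) + 1 := by rw [norm_one, norm_pow, hx]; ring
          _ ≤ _ := Real.add_one_le_exp _
    _ = Real.exp (∑ i ∈ Ico M (2 * M), x ^ (2 * i + 2)) := by rw [Real.exp_sum]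
    _ ≤ _ := by
        rw [Real.exp_le_exp]
        have hx2 : x ^ 2 < 1 := by nlinarith
        have hg : HasSum (fun i : ℕ => x ^ (2 * M + 2) * (x ^ 2) ^ i)
            (x ^ (2 * M + 2) * (1 - x ^ 2)⁻¹) :=
          (hasSum_geometric_of_lt_one (by positivity) hx2).mul_left _
        rw [Finset.sum_Ico_eq_sum_range]
        have h1 : ∑ k ∈ range (2 * M - M), x ^ (2 * (M + k) + 2) ≤
            x ^ (2 * M + 2) * (1 - x ^ 2)⁻¹ := by
          have : ∑ k ∈ range (2 * M - M), x ^ (2 * (M + k) + 2) =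
              ∑ k ∈ range (2 * M - M), x ^ (2 * M + 2) * (x ^ 2) ^ k := by
            apply Finset.sum_congr rfl
            intro k _
            rw [← pow_mul, ← pow_add]; congr 1; ring
          rw [this]
          exact sum_le_hasSum _ (fun i _ => by positivity) hg
        refine h1.trans ?_
        rw [div_eq_mul_inv]
        have a1 : x ^ (2 * M + 2) ≤ x ^ (2 * M) := pow_le_pow_of_le_one hx0 hx1.le (by omega)
        have a2 : (1 - x ^ 2)⁻¹ ≤ (1 - x)⁻¹ := by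
          apply inv_anti₀ (by linarith); nlinarith
        have a3 : 0 < 1 - x ^ 2 := by linarith
        gcongr

theorem hasSum_all {u : ℝ} (h0 : 0 < u) :
    HasSum (fun j : ℕ => Real.exp (-u) ^ (j + 1)) (Oc u + Ec u) := by
  have h1 := hasSum_Oc h0
  have h2 := hasSum_Ec h0
  exact HasSum.even_add_odd (f := fun j : ℕ => Real.exp (-u) ^ (j + 1)) h1 h2

/-- total of the `pp` part -/
theorem sum_pp_le {t : ℝ} (ht : 0 < t) (ht1 : t ≤ 1 / 76) (N : ℕ) :
    ∑ j ∈ range N, pp (Real.exp (-t) ^ (j + 1)) ≤ (29 / 45) / t - 0.24 + t := by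
  have t2 : 0 < 2 * t := by linarith
  have t3 : 0 < 3 * t := by linarith
  have hs : HasSum (fun j : ℕ => pp (Real.exp (-t) ^ (j + 1)))
      ((Oc t + Ec t) - 11 / 10 * (Oc (2 * t) + Ec (2 * t)) + 7 / 12 * (Oc (3 * t) + Ec (3 * t))) := by
    have := ((hasSum_all ht).sub ((hasSum_all t2).mul_left (11 / 10))).add
      ((hasSum_all t3).mul_left (7 / 12))
    have e : (fun j : ℕ => pp (Real.exp (-t) ^ (j + 1))) = (fun j : ℕ =>
        Real.exp (-t) ^ (j + 1) - 11 / 10 * Real.exp (-(2 * t)) ^ (j + 1) +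
          7 / 12 * Real.exp (-(3 * t)) ^ (j + 1)) := by
      funext j
      have k1 : Real.exp (-(2 * t)) ^ (j + 1) = (Real.exp (-t) ^ (j + 1)) ^ 2 := by
        have := exp_pow_eq t 2 (j + 1); simpa using this
      have k2 : Real.exp (-(3 * t)) ^ (j + 1) = (Real.exp (-t) ^ (j + 1)) ^ 3 := by
        have := exp_pow_eq t 3 (j + 1); simpa using this
      rw [k1, k2, pp]
    rw [e]; exact this
  refine (sum_le_hasSum _ (fun i _ => pp_nonneg (by positivity)) hs).trans ?_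
  have o1 := Oc_le ht
  have e1 := Ec_le ht (by linarith)
  have o2 := le_Oc t2 (by linarith)
  have e2 := le_Ec t2
  have o3 := Oc_le t3
  have e3 := Ec_le t3 (by linarith)
  have q1 : 1 / (2 * t) = 0.5 / t := by field_simp; norm_num
  have q2 : 1 / (2 * (2 * t)) = 0.25 / t := by field_simp; norm_num
  have q3 : 1 / (2 * (3 * t)) = (1 / 6) / t := by field_simp; norm_num
  rw [q1] at o1 e1
  rw [q2] at o2 e2
  rw [q3] at o3 e3
  have : (29 / 45 : ℝ) / t = (0.5 / t + 0.5 / t) - 11 / 10 * (0.25 / t + 0.25 / t)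
      + 7 / 12 * ((1 / 6) / t + (1 / 6) / t) := by
    field_simp; norm_num
  rw [this]
  nlinarith

theorem one_sub_exp_ge {t : ℝ} (ht : 0 < t) :
    2 * t * Real.exp (-t) ≤ 1 - Real.exp (-(2 * t)) := by
  have h1 := one_sub_exp t
  have h2 : Real.exp (-(2 * t)) = Real.exp (-t) ^ 2 := by
    rw [← Real.exp_nat_mul]; congr 1; push_cast; ring
  rw [h2, h1]
  have := self_le_sinh' ht.le
  have := Real.exp_pos (-t)
  nlinarith

theorem sum_j_le {t : ℝ} (ht : 0 < t) (N : ℕ) :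
    ∑ j ∈ range N, ((j : ℝ) + 1) * Real.exp (-(2 * t)) ^ (j + 1) ≤ 1 / (4 * t ^ 2) := by
  set y := Real.exp (-(2 * t)) with hy
  have hy0 : 0 < y := Real.exp_pos _
  have hy1 : y < 1 := by rw [hy, Real.exp_lt_one_iff]; linarith
  have hs := (hasSum_choose_mul_geometric_of_norm_lt_one (𝕜 := ℝ) 1
    (by rw [Real.norm_of_nonneg hy0.le]; exact hy1 : ‖y‖ < 1)).mul_left y
  have e : (fun n : ℕ => y * (((n + 1).choose 1 : ℕ) * y ^ n)) =
      (fun j : ℕ => ((j : ℝ) + 1) * y ^ (j + 1)) := by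
    funext n; simp; ring
  rw [e] at hs
  refine (sum_le_hasSum _ (fun i _ => by positivity) hs).trans ?_
  have h1 := one_sub_exp_ge ht
  rw [← hy] at h1
  have h2 : Real.exp (-t) ^ 2 = y := by
    rw [hy, ← Real.exp_nat_mul]; congr 1; push_cast; ring
  have hx : 0 < Real.exp (-t) := Real.exp_pos _
  have h3 : (2 * t * Real.exp (-t)) ^ 2 ≤ (1 - y) ^ 2 := by gcongr
  have h4 : (2 * t * Real.exp (-t)) ^ 2 = 4 * t ^ 2 * y := by rw [mul_pow, h2]; ring
  rw [h4] at h3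
  have h5 : 0 < 1 - y := by linarith
  rw [show (1 + 1 : ℕ) = 2 by norm_num, mul_one_div, div_le_div_iff₀ (by positivity) (by positivity)]
  linarith

theorem sum_j2_le {t : ℝ} (ht : 0 < t) (N : ℕ) :
    ∑ j ∈ range N, ((j : ℝ) + 1) ^ 2 * Real.exp (-(2 * t)) ^ (j + 1) ≤
      Real.exp t / (4 * t ^ 3) := by
  set y := Real.exp (-(2 * t)) with hy
  have hy0 : 0 < y := Real.exp_pos _
  have hy1 : y < 1 := by rw [hy, Real.exp_lt_one_iff]; linarith
  have hs := (hasSum_choose_mul_geometric_of_norm_lt_one (𝕜 := ℝ) 2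
    (by rw [Real.norm_of_nonneg hy0.le]; exact hy1 : ‖y‖ < 1)).mul_left (2 * y)
  have e : (fun n : ℕ => 2 * y * (((n + 2).choose 2 : ℕ) * y ^ n)) =
      (fun j : ℕ => ((j : ℝ) + 1) * ((j : ℝ) + 2) * y ^ (j + 1)) := by
    funext n
    have h : (((n + 2).choose 2 : ℕ) : ℝ) = ((n : ℝ) + 2) * ((n : ℝ) + 1) / 2 := by
      rw [Nat.cast_choose_two]; push_cast; ring
    rw [h]; ring
  rw [e] at hs
  have hle : ∑ j ∈ range N, ((j : ℝ) + 1) ^ 2 * y ^ (j + 1) ≤
      ∑ j ∈ range N, ((j : ℝ) + 1) * ((j : ℝ) + 2) * y ^ (j + 1) := by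
    apply Finset.sum_le_sum
    intro j _
    have : (0 : ℝ) ≤ j := Nat.cast_nonneg j
    gcongr
    nlinarith
  refine hle.trans ((sum_le_hasSum _ (fun i _ => by positivity) hs).trans ?_)
  have h1 := one_sub_exp_ge ht
  rw [← hy] at h1
  have hx : 0 < Real.exp (-t) := Real.exp_pos _
  have h3 : (2 * t * Real.exp (-t)) ^ 3 ≤ (1 - y) ^ 3 := by gcongr
  have h4 : (2 * t * Real.exp (-t)) ^ 3 * Real.exp t = 8 * t ^ 3 * y := by
    have : Real.exp (-t) ^ 3 * Real.exp t = y := by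
      rw [hy, ← Real.exp_nat_mul, ← Real.exp_add]; congr 1; push_cast; ring
    rw [mul_pow]
    calc (2 * t) ^ 3 * Real.exp (-t) ^ 3 * Real.exp t
        = (2 * t) ^ 3 * (Real.exp (-t) ^ 3 * Real.exp t) := by ring
      _ = 8 * t ^ 3 * y := by rw [this]; ring
  have h5 : 0 < 1 - y := by linarith
  have h6 : 8 * t ^ 3 * y ≤ (1 - y) ^ 3 * Real.exp t := by
    rw [← h4]; gcongr
  rw [show (2 + 1 : ℕ) = 3 by norm_num, mul_one_div, div_le_div_iff₀ (by positivity) (by positivity)]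
  linarith

end Pool.Agent.Lib.MP781
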