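import Mathlib
import Pool.Agent.Lib.MP_781ce4_nt.Region0b

namespace Pool.Agent.Lib.MP781

open Real Finset

theorem pt_eq_exp (u φ : ℝ) : pt u φ = Complex.exp (((-u : ℝ) : ℂ) + (φ : ℂ) * Complex.I) := by
  apply Complex.ext
  · rw [Complex.exp_re]; simp [pt]
  · rw [Complex.exp_im]; simp [pt]

theorem pt_pow_re (u φ : ℝ) (n : ℕ) : (pt u φ ^ n).re = Real.exp (-u) ^ n * Real.cos (n * φ) := by
  rw [pt_eq_exp, ← Complex.exp_nat_mul, Complex.exp_re]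
  have h1 : ((n : ℂ) * (((-u : ℝ) : ℂ) + (φ : ℂ) * Complex.I)).re = n * (-u) := by simp
  have h2 : ((n : ℂ) * (((-u : ℝ) : ℂ) + (φ : ℂ) * Complex.I)).im = n * φ := by simp
  rw [h1, h2, Real.exp_nat_mul]

theorem G_le {t : ℝ} (ht : 0 < t) (j : ℕ) :
    (Real.exp (-t) ^ (j + 1)) ^ 2 +
      (Real.exp (-t) ^ (j + 1)) ^ 3 / (3 * (1 - (Real.exp (-t) ^ (j + 1)) ^ 2)) ≤
    Real.exp (-(2 * t)) ^ (j + 1) * (1 + 1 / (6 * (((j : ℝ) + 1) * t))) := by
  have hj : (0 : ℝ) ≤ j := Nat.cast_nonneg j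
  have hu : 0 < ((j : ℝ) + 1) * t := by positivity
  have k1 : Real.exp (-(2 * t)) ^ (j + 1) = (Real.exp (-t) ^ (j + 1)) ^ 2 := by
    have := exp_pow_eq t 2 (j + 1); simpa using this
  have k2 : Real.exp (-t) ^ (j + 1) = Real.exp (-(((j : ℝ) + 1) * t)) := by
    rw [← Real.exp_nat_mul]; congr 1; push_cast; ring
  rw [k1, k2]
  set u := ((j : ℝ) + 1) * t with hudef
  have h1 := one_sub_exp u
  rw [h1]
  have hs := self_le_sinh' hu.le
  have hsp : 0 < Real.sinh u := lt_of_lt_of_le hu hs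
  have hx : 0 < Real.exp (-u) := Real.exp_pos _
  have e : Real.exp (-u) ^ 3 / (3 * (2 * Real.exp (-u) * Real.sinh u)) =
      Real.exp (-u) ^ 2 * (1 / (6 * Real.sinh u)) := by
    field_simp; norm_num
  rw [e, mul_add, mul_one]
  gcongr

theorem exp_small {t : ℝ} (ht : 0 < t) (ht1 : t ≤ 1 / 76) : Real.exp t ≤ 1.0134 := by
  have h := Real.add_one_le_exp (-t)
  have h2 : Real.exp t * Real.exp (-t) = 1 := by rw [← Real.exp_add]; simp
  have h3 := Real.exp_pos t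
  have h4 : Real.exp t * (-t + 1) ≤ Real.exp t * Real.exp (-t) :=
    mul_le_mul_of_nonneg_left h h3.le
  rw [h2] at h4
  nlinarith

theorem region0 {t θ : ℝ} (ht : 0 < t) (ht1 : t ≤ 1 / 76) (hθ : θ ^ 2 ≤ 0.3601 * t ^ 2) (M : ℕ) :
    ‖Pz M (pt t θ)‖ ^ 2 ≤
      Real.exp (1.416 / t + 60 * Real.exp (-t) ^ (2 * M) / (1 - Real.exp (-t))) := by
  set x := Real.exp (-t) with hx
  have hx0 : 0 < x := Real.exp_pos _
  have hx1 : x < 1 := by rw [hx, Real.exp_lt_one_iff]; linarith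
  set z := pt t θ with hz
  have hzn : ‖z‖ = x := norm_pt t θ
  have hzlt : ‖z‖ < 1 := by rw [hzn]; exact hx1
  -- product identity
  have hid : Pz M z * ∏ j ∈ range (2 * M), (1 + z ^ (j + 1)) =
      (∏ j ∈ range (2 * M), (1 + 2 * z ^ (j + 1))) * ∏ i ∈ Ico M (2 * M), (1 - z ^ (2 * i + 2)) := by
    rw [Pz_eq, ← prod_Ico_identity hzlt]; ring
  have hne : ∀ j, 0 < ‖1 + z ^ (j + 1)‖ ^ 2 := by
    intro j
    have : 1 + z ^ (j + 1) ≠ 0 := by
      intro h0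
      have h1 : z ^ (j + 1) = -1 := by linear_combination h0
      have h2 : ‖z ^ (j + 1)‖ < 1 := by
        rw [norm_pow]; exact pow_lt_one₀ (norm_nonneg _) hzlt (by omega)
      rw [h1] at h2
      simp at h2
    positivity
  have hD : 0 < ∏ j ∈ range (2 * M), ‖1 + z ^ (j + 1)‖ ^ 2 := Finset.prod_pos (fun j _ => hne j)
  have hnorm : ‖Pz M z‖ ^ 2 * ∏ j ∈ range (2 * M), ‖1 + z ^ (j + 1)‖ ^ 2 =
      (∏ j ∈ range (2 * M), ‖1 + 2 * z ^ (j + 1)‖ ^ 2) *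
        ‖∏ i ∈ Ico M (2 * M), (1 - z ^ (2 * i + 2))‖ ^ 2 := by
    have := congrArg (fun w : ℂ => ‖w‖ ^ 2) hid
    simp only [norm_mul, mul_pow, norm_prod] at this
    rw [Finset.prod_pow, Finset.prod_pow, norm_prod]
    exact this
  -- pointwise factor bound
  have hfac : ∀ j ∈ range (2 * M), ‖1 + 2 * z ^ (j + 1)‖ ^ 2 ≤
      Real.exp (2 * pp (x ^ (j + 1)) + θ ^ 2 * (((j : ℝ) + 1) ^ 2 * Real.exp (-(2 * t)) ^ (j + 1))
        + θ ^ 2 / (6 * t) * (((j : ℝ) + 1) * Real.exp (-(2 * t)) ^ (j + 1))) *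
        ‖1 + z ^ (j + 1)‖ ^ 2 := by
    intro j _
    have hre : (z ^ (j + 1)).re = x ^ (j + 1) * Real.cos (((j : ℝ) + 1) * θ) := by
      rw [hz, pt_pow_re]; push_cast; rfl
    have hn1 : ‖1 + z ^ (j + 1)‖ ^ 2 =
        1 + (x ^ (j + 1)) ^ 2 + 2 * (x ^ (j + 1) * Real.cos (((j : ℝ) + 1) * θ)) := by
      rw [← Complex.normSq_eq_norm_sq, Complex.normSq_add, map_one, Complex.normSq_eq_norm_sq,
        norm_pow, hzn]
      simp only [one_mul, Complex.conj_re, hre]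
    have hn2 : ‖1 + 2 * z ^ (j + 1)‖ ^ 2 =
        1 + 4 * (x ^ (j + 1)) ^ 2 + 4 * (x ^ (j + 1) * Real.cos (((j : ℝ) + 1) * θ)) := by
      rw [normSq_one_add_two_mul, norm_pow, hzn, hre]
    rw [hn1, hn2]
    have hρ0 : 0 ≤ x ^ (j + 1) := by positivity
    have hρ1 : x ^ (j + 1) < 1 := pow_lt_one₀ hx0.le hx1 (by omega)
    refine (ratio_le hρ0 hρ1 (Real.cos_le_one _) (Real.neg_one_le_cos _)).trans ?_
    have hpos : 0 ≤ 1 + (x ^ (j + 1)) ^ 2 + 2 * (x ^ (j + 1) * Real.cos (((j : ℝ) + 1) * θ)) := by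
      rw [← hn1]; positivity
    gcongr
    have hj : (0 : ℝ) ≤ j := Nat.cast_nonneg j
    have hcos := Real.one_sub_sq_div_two_le_cos (x := ((j : ℝ) + 1) * θ)
    have hG := G_le ht j
    rw [← hx] at hG
    have hG0 : 0 ≤ (x ^ (j + 1)) ^ 2 + (x ^ (j + 1)) ^ 3 / (3 * (1 - (x ^ (j + 1)) ^ 2)) := by
      have : 0 < 1 - (x ^ (j + 1)) ^ 2 := by nlinarith
      positivity
    have h1 : (1 - Real.cos (((j : ℝ) + 1) * θ)) *
        ((x ^ (j + 1)) ^ 2 + (x ^ (j + 1)) ^ 3 / (3 * (1 - (x ^ (j + 1)) ^ 2))) ≤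
        ((((j : ℝ) + 1) * θ) ^ 2 / 2) *
          (Real.exp (-(2 * t)) ^ (j + 1) * (1 + 1 / (6 * (((j : ℝ) + 1) * t)))) := by
      apply mul_le_mul (by linarith) hG hG0 (by positivity)
    have h2 : 2 * (((((j : ℝ) + 1) * θ) ^ 2 / 2) *
          (Real.exp (-(2 * t)) ^ (j + 1) * (1 + 1 / (6 * (((j : ℝ) + 1) * t))))) =
        θ ^ 2 * (((j : ℝ) + 1) ^ 2 * Real.exp (-(2 * t)) ^ (j + 1))
        + θ ^ 2 / (6 * t) * (((j : ℝ) + 1) * Real.exp (-(2 * t)) ^ (j + 1)) := by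
      field_simp
    linarith
  have hmain : (∏ j ∈ range (2 * M), ‖1 + 2 * z ^ (j + 1)‖ ^ 2) ≤
      Real.exp (2 * ∑ j ∈ range (2 * M), pp (x ^ (j + 1)) +
        θ ^ 2 * ∑ j ∈ range (2 * M), (((j : ℝ) + 1) ^ 2 * Real.exp (-(2 * t)) ^ (j + 1))
        + θ ^ 2 / (6 * t) * ∑ j ∈ range (2 * M), (((j : ℝ) + 1) * Real.exp (-(2 * t)) ^ (j + 1))) *
      ∏ j ∈ range (2 * M), ‖1 + z ^ (j + 1)‖ ^ 2 := by
    refine (Finset.prod_le_prod (fun j _ => by positivity) hfac).trans (le_of_eq ?_)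
    rw [Finset.prod_mul_distrib, ← Real.exp_sum, Finset.sum_add_distrib, Finset.sum_add_distrib,
      Finset.mul_sum, Finset.mul_sum, Finset.mul_sum]
  have htail := tail_prod_le hx0.le hzn hx1 M
  have hexp1 : 2 * ∑ j ∈ range (2 * M), pp (x ^ (j + 1)) +
        θ ^ 2 * ∑ j ∈ range (2 * M), (((j : ℝ) + 1) ^ 2 * Real.exp (-(2 * t)) ^ (j + 1))
        + θ ^ 2 / (6 * t) * ∑ j ∈ range (2 * M), (((j : ℝ) + 1) * Real.exp (-(2 * t)) ^ (j + 1))
        ≤ 1.416 / t := by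
    have s1 := sum_pp_le ht ht1 (2 * M)
    have s2 := sum_j2_le ht (2 * M)
    have s3 := sum_j_le ht (2 * M)
    have he := exp_small ht ht1
    have s2' : θ ^ 2 * ∑ j ∈ range (2 * M), (((j : ℝ) + 1) ^ 2 * Real.exp (-(2 * t)) ^ (j + 1)) ≤
        (0.3601 * t ^ 2) * (1.0134 / (4 * t ^ 3)) := by
      apply mul_le_mul hθ _ (Finset.sum_nonneg (fun i _ => by positivity)) (by positivity)
      refine s2.trans ?_
      gcongr
    have s3' : θ ^ 2 / (6 * t) * ∑ j ∈ range (2 * M), (((j : ℝ) + 1) * Real.exp (-(2 * t)) ^ (j + 1)) ≤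
        (0.3601 * t ^ 2) / (6 * t) * (1 / (4 * t ^ 2)) := by
      apply mul_le_mul _ s3 (Finset.sum_nonneg (fun i _ => by positivity)) (by positivity)
      gcongr
    have q2 : (0.3601 * t ^ 2) * (1.0134 / (4 * t ^ 3)) = (0.3601 * 1.0134 / 4) / t := by
      field_simp
    have q3 : (0.3601 * t ^ 2) / (6 * t) * (1 / (4 * t ^ 2)) = (0.3601 / 24) / t := by
      field_simp; norm_num
    rw [q2] at s2'
    rw [q3] at s3'
    have hfin : 2 * ((29 / 45) / t - 0.24 + t) + (0.3601 * 1.0134 / 4) / t + (0.3601 / 24) / t ≤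
        1.416 / t := by
      have : 2 * ((29 / 45) / t - 0.24 + t) + (0.3601 * 1.0134 / 4) / t + (0.3601 / 24) / t =
        (2 * (29 / 45) + 0.3601 * 1.0134 / 4 + 0.3601 / 24) / t + (2 * t - 0.48) := by ring
      rw [this]
      have h1 : (2 * (29 / 45) + 0.3601 * 1.0134 / 4 + 0.3601 / 24) / t ≤ 1.416 / t := by
        gcongr; norm_num
      linarith
    linarith
  have htot : ‖Pz M z‖ ^ 2 * ∏ j ∈ range (2 * M), ‖1 + z ^ (j + 1)‖ ^ 2 ≤
      (Real.exp (1.416 / t) * Real.exp (2 * (x ^ (2 * M) / (1 - x)))) *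
        ∏ j ∈ range (2 * M), ‖1 + z ^ (j + 1)‖ ^ 2 := by
    rw [hnorm]
    calc (∏ j ∈ range (2 * M), ‖1 + 2 * z ^ (j + 1)‖ ^ 2) *
          ‖∏ i ∈ Ico M (2 * M), (1 - z ^ (2 * i + 2))‖ ^ 2
        ≤ (Real.exp (1.416 / t) * ∏ j ∈ range (2 * M), ‖1 + z ^ (j + 1)‖ ^ 2) *
          (Real.exp (x ^ (2 * M) / (1 - x))) ^ 2 := by
          gcongr
          refine hmain.trans ?_
          gcongr
      _ = _ := by
          rw [← Real.exp_nat_mul]; push_cast; ring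
  have hfinal := le_of_mul_le_mul_right htot hD
  refine hfinal.trans ?_
  rw [← Real.exp_add, Real.exp_le_exp]
  have : 0 < 1 - x := by linarith
  have h60 : 2 * (x ^ (2 * M) / (1 - x)) ≤ 60 * x ^ (2 * M) / (1 - x) := by
    rw [← mul_div_assoc]; gcongr; norm_num
  linarith

theorem theta_sq_le {t θ : ℝ} (ht : 0 < t) (ht1 : t ≤ 1 / 76) (hθ : |θ| ≤ π)
    (hc : 0 ≤ Real.cos θ) (hS : Real.sin θ ^ 2 ≤ 0.36 * t ^ 2) : θ ^ 2 ≤ 0.3601 * t ^ 2 := by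
  have hcs := Real.sin_sq_add_cos_sq θ
  have ht2 : t ^ 2 ≤ 1 / 5776 := by nlinarith
  have hc2 : 0.9999 ≤ Real.cos θ ^ 2 := by nlinarith
  have hcpos : 0 < Real.cos θ := by
    rcases hc.lt_or_eq with h | h
    · exact h
    · rw [← h] at hc2; norm_num at hc2
  have hlt : |θ| < π / 2 := by
    by_contra hcon
    push Not at hcon
    have : Real.cos |θ| ≤ 0 := Real.cos_nonpos_of_pi_div_two_le_of_le hcon (by linarith [Real.pi_pos])
    rw [Real.cos_abs] at this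
    linarith
  have h1 : |θ| ≤ Real.tan |θ| := Real.le_tan (abs_nonneg _) hlt
  have h2 : θ ^ 2 ≤ Real.tan |θ| ^ 2 := by
    rw [← sq_abs θ]; gcongr
  have h3 : Real.tan |θ| ^ 2 = Real.sin θ ^ 2 / Real.cos θ ^ 2 := by
    rw [Real.tan_eq_sin_div_cos, div_pow, Real.cos_abs]
    congr 1
    rcases abs_cases θ with ⟨h, _⟩ | ⟨h, _⟩
    · rw [h]
    · rw [h, Real.sin_neg]; ring
  rw [h3] at h2
  refine h2.trans ?_
  rw [div_le_iff₀ (by positivity)]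
  nlinarith [sq_nonneg t]

/-- Main analytic bound. -/
theorem norm_Pz_sq_le {t : ℝ} (ht : 0 < t) (ht1 : t ≤ 1 / 76) {z : ℂ} (hz : ‖z‖ = Real.exp (-t))
    (M : ℕ) : ‖Pz M z‖ ^ 2 ≤
      Real.exp (1.416 / t + 60 * Real.exp (-t) ^ (2 * M) / (1 - Real.exp (-t))) := by
  have hzpt : z = pt t (Complex.arg z) := by
    apply Complex.ext
    · simp only [pt]; rw [← hz]; exact (Complex.norm_mul_cos_arg z).symm
    · simp only [pt]; rw [← hz]; exact (Complex.norm_mul_sin_arg z).symm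
  have harg : |Complex.arg z| ≤ π := Complex.abs_arg_le_pi z
  rw [hzpt]
  generalize Complex.arg z = θ at harg
  rcases le_or_gt (1 / 4) (Real.sin θ ^ 2) with h1 | h1
  · exact regionA ht ht1 h1 M
  · by_cases h2 : 0 ≤ Real.cos θ ∧ Real.sin θ ^ 2 < 0.36 * t ^ 2
    · exact region0 ht ht1 (theta_sq_le ht ht1 harg h2.1 h2.2.le) M
    · apply regionB ht ht1 h1.le _ M
      intro hc
      by_contra h3
      push Not at h3
      exact h2 ⟨hc, h3⟩

end Pool.Agent.Lib.MP781
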