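import Mathlib
import Pool.Agent.Lib.MP_781ce4_nt.Region0c

namespace Pool.Agent.Lib.MP781

open Real Finset Polynomial

theorem iteratedDeriv_eval (p : ℂ[X]) (n : ℕ) :
    iteratedDeriv n (fun z => p.eval z) = fun z => (derivative^[n] p).eval z := by
  induction n with
  | zero => simp
  | succ n ih =>
    rw [iteratedDeriv_succ, ih]
    funext z
    rw [Polynomial.deriv, Function.iterate_succ_apply']

theorem cauchy_coeff (p : ℂ[X]) {r C : ℝ} (hr : 0 < r) (hC : ∀ z : ℂ, ‖z‖ = r → ‖p.eval z‖ ≤ C)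
    (n : ℕ) : ‖p.coeff n‖ ≤ C / r ^ n := by
  have h := Complex.norm_iteratedDeriv_le_of_forall_mem_sphere_norm_le (c := 0) (R := r) (C := C)
    (f := fun z => p.eval z) n hr
    (Differentiable.diffContOnCl (by fun_prop))
    (fun z hz => hC z (by simpa using hz))
  rw [iteratedDeriv_eval] at h
  simp only at h
  rw [← Polynomial.coeff_zero_eq_eval_zero, Polynomial.coeff_iterate_derivative, zero_add,
    Nat.descFactorial_self, nsmul_eq_mul, norm_mul] at h
  have h1 : ‖((n.factorial : ℕ) : ℂ)‖ = (n.factorial : ℝ) := by simp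
  rw [h1] at h
  have h2 : (0 : ℝ) < n.factorial := by positivity
  have h3 : (n.factorial : ℝ) * ‖p.coeff n‖ ≤ (n.factorial : ℝ) * (C / r ^ n) := by
    refine h.trans (le_of_eq ?_); ring
  exact le_of_mul_le_mul_left h3 h2

/-- The truncated product as an integer polynomial. -/
noncomputable def PP (M : ℕ) : ℤ[X] :=
  ∏ i ∈ range M, ((1 + 2 * X ^ (2 * i + 1)) * (1 - X ^ (2 * i + 1)) * (1 + 2 * X ^ (2 * i + 2)))

theorem PP_eval (M : ℕ) (z : ℂ) : ((PP M).map (Int.castRingHom ℂ)).eval z = Pz M z := by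
  unfold PP Pz
  rw [Polynomial.map_prod, Polynomial.eval_prod]
  apply Finset.prod_congr rfl
  intro i _
  simp

theorem PP_coeff_bound {t : ℝ} (ht : 0 < t) (ht1 : t ≤ 1 / 76) (n M : ℕ) :
    |((PP M).coeff n : ℝ)| ≤
      Real.exp (0.708 / t + 30 * Real.exp (-t) ^ (2 * M) / (1 - Real.exp (-t)) + n * t) := by
  set E : ℝ := 30 * Real.exp (-t) ^ (2 * M) / (1 - Real.exp (-t)) with hE
  have h := cauchy_coeff ((PP M).map (Int.castRingHom ℂ)) (r := Real.exp (-t))
    (C := Real.exp (0.708 / t + E))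
    (Real.exp_pos _) (fun z hz => ?_) n
  · rw [Polynomial.coeff_map] at h
    have h1 : ‖(Int.castRingHom ℂ) ((PP M).coeff n)‖ = |((PP M).coeff n : ℝ)| := by
      simp
    rw [h1] at h
    refine h.trans (le_of_eq ?_)
    have h4 : (Real.exp (-t) ^ n)⁻¹ = Real.exp (n * t) := by
      rw [← Real.exp_nat_mul, ← Real.exp_neg]
      congr 1; ring
    rw [Real.exp_add _ (n * t), div_eq_mul_inv, h4]
  · rw [PP_eval]
    have h2 := norm_Pz_sq_le ht ht1 hz M
    have h5 : 60 * Real.exp (-t) ^ (2 * M) / (1 - Real.exp (-t)) = 2 * E := by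
      rw [hE]; ring
    rw [h5] at h2
    have h3 : Real.exp (1.416 / t + 2 * E) =
      Real.exp (0.708 / t + E) ^ 2 := by
      rw [← Real.exp_nat_mul]; congr 1; push_cast; ring
    rw [h3] at h2
    exact (pow_le_pow_iff_left₀ (norm_nonneg _) (Real.exp_pos _).le (by norm_num)).1 h2

/-- If the coefficient is `a` for all large truncations, it obeys the limiting bound. -/
theorem coeff_bound_limit {t : ℝ} (ht : 0 < t) (ht1 : t ≤ 1 / 76) (n : ℕ) (a : ℤ) (M0 : ℕ)
    (ha : ∀ M, M0 ≤ M → (PP M).coeff n = a) : |(a : ℝ)| ≤ Real.exp (0.708 / t + n * t) := by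
  have hx0 : 0 < Real.exp (-t) := Real.exp_pos _
  have hx1 : Real.exp (-t) < 1 := by rw [Real.exp_lt_one_iff]; linarith
  have hlim : Filter.Tendsto (fun M : ℕ =>
      Real.exp (0.708 / t + 30 * Real.exp (-t) ^ (2 * M) / (1 - Real.exp (-t)) + n * t))
      Filter.atTop (nhds (Real.exp (0.708 / t + 30 * 0 / (1 - Real.exp (-t)) + n * t))) := by
    have h1 : Filter.Tendsto (fun M : ℕ => Real.exp (-t) ^ (2 * M)) Filter.atTop (nhds 0) := by
      have h2 : Real.exp (-t) ^ 2 < 1 := by nlinarith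
      have := tendsto_pow_atTop_nhds_zero_of_lt_one (by positivity) h2
      simpa [pow_mul] using this
    apply (Real.continuous_exp.tendsto _).comp
    exact ((h1.const_mul 30).div_const _ |>.const_add _).add_const _
  have e : Real.exp (0.708 / t + 30 * 0 / (1 - Real.exp (-t)) + n * t) =
      Real.exp (0.708 / t + n * t) := by congr 1; ring
  rw [e] at hlim
  refine ge_of_tendsto hlim ?_
  filter_upwards [Filter.eventually_ge_atTop M0] with M hM
  have := PP_coeff_bound ht ht1 n M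
  rwa [ha M hM] at this

/-- coefficient stability -/
theorem PP_coeff_succ {n M : ℕ} (h : n ≤ 2 * M) : (PP (M + 1)).coeff n = (PP M).coeff n := by
  have e : PP (M + 1) = PP M + X ^ (2 * M + 1) *
      (PP M * (1 - 2 * X ^ (2 * M + 1) + 2 * X * (1 + X ^ (2 * M + 1) - 2 * X ^ (4 * M + 2)))) := by
    unfold PP
    rw [prod_range_succ]
    ring
  rw [e, coeff_add, coeff_X_pow_mul', if_neg (by omega), add_zero]

theorem PP_coeff_stable {n M0 M : ℕ} (h : n ≤ 2 * M0) (hM : M0 ≤ M) :
    (PP M).coeff n = (PP M0).coeff n := by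
  induction M, hM using Nat.le_induction with
  | base => rfl
  | succ M hM ih => rw [PP_coeff_succ (by omega), ih]

theorem PP_coeff_le {n M : ℕ} (h : n ≤ 2 * M) (hn : 4096 ≤ n) :
    |((PP M).coeff n : ℝ)| ≤ Real.exp (1.683 * Real.sqrt n) := by
  have hs : (64 : ℝ) ≤ Real.sqrt n := by
    rw [show (64 : ℝ) = Real.sqrt 4096 by
      rw [show (4096 : ℝ) = 64 ^ 2 by norm_num]; rw [Real.sqrt_sq (by norm_num)]]
    apply Real.sqrt_le_sqrt
    exact_mod_cast hn
  have hs0 : 0 < Real.sqrt n := by linarith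
  have ht : 0 < 0.84 / Real.sqrt n := by positivity
  have ht1 : 0.84 / Real.sqrt n ≤ 1 / 76 := by
    rw [div_le_div_iff₀ hs0 (by norm_num)]; linarith
  have := coeff_bound_limit ht ht1 n ((PP M).coeff n) M (fun M' hM' => PP_coeff_stable h hM')
  refine this.trans ?_
  rw [Real.exp_le_exp]
  have hn2 : (n : ℝ) = Real.sqrt n * Real.sqrt n := (Real.mul_self_sqrt (Nat.cast_nonneg n)).symm
  have e : 0.708 / (0.84 / Real.sqrt n) + n * (0.84 / Real.sqrt n) =
      (0.708 / 0.84 + 0.84) * Real.sqrt n := by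
    rw [hn2]
    rw [Real.sqrt_mul_self hs0.le]
    field_simp
  rw [e]
  gcongr
  norm_num

end Pool.Agent.Lib.MP781
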