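import Mathlib
import Pool.Agent.Lib.MP_781ce4_nt.Coeff

namespace Pool.Agent.Lib.MP781

open PowerSeries Finset
open scoped PowerSeries.WithPiTopology

theorem coeff_eq_of_dvd {f g : ℤ⟦X⟧} {n N : ℕ} (hn : n < N) (h : (X : ℤ⟦X⟧) ^ N ∣ f - g) :
    coeff n f = coeff n g := by
  have := (PowerSeries.X_pow_dvd_iff.1 h) n hn
  rw [map_sub] at this
  linarith

theorem dvd_prod_sub_one {ι : Type*} (s : Finset ι) (f : ι → ℤ⟦X⟧) (N : ℕ)
    (hf : ∀ i ∈ s, (X : ℤ⟦X⟧) ^ N ∣ f i - 1) : (X : ℤ⟦X⟧) ^ N ∣ (∏ i ∈ s, f i) - 1 := by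
  classical
  induction s using Finset.induction_on with
  | empty => simp
  | insert a s ha ih =>
    rw [prod_insert ha]
    have h1 := hf a (mem_insert_self _ _)
    have h2 := ih (fun i hi => hf i (mem_insert_of_mem hi))
    have e : f a * ∏ i ∈ s, f i - 1 = (f a - 1) * ∏ i ∈ s, f i + (∏ i ∈ s, f i - 1) := by ring
    rw [e]
    exact dvd_add (Dvd.dvd.mul_right h1 _) h2

theorem coeff_of_hasProd (f : ℕ → ℤ⟦X⟧) (a : ℤ⟦X⟧) (h : HasProd f a) (n K : ℕ)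
    (hf : ∀ i, K ≤ i → (X : ℤ⟦X⟧) ^ (n + 1) ∣ f i - 1) :
    coeff n a = coeff n (∏ i ∈ range K, f i) := by
  have h1 := h.tendsto_prod_nat
  have h2 : Filter.Tendsto (fun L => coeff n (∏ i ∈ range L, f i)) Filter.atTop
      (nhds (coeff n a)) :=
    ((WithPiTopology.continuous_coeff ℤ n).tendsto a).comp h1
  have h3 : Filter.Tendsto (fun L => coeff n (∏ i ∈ range L, f i)) Filter.atTop
      (nhds (coeff n (∏ i ∈ range K, f i))) := by
    apply tendsto_const_nhds.congr'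
    filter_upwards [Filter.eventually_ge_atTop K] with L hL
    have e : ∏ i ∈ range L, f i = (∏ i ∈ range K, f i) * ∏ i ∈ Ico K L, f i :=
      (prod_range_mul_prod_Ico f hL).symm
    rw [e]
    symm
    apply coeff_eq_of_dvd (Nat.lt_succ_self n)
    have h4 := dvd_prod_sub_one (Ico K L) f (n + 1) (fun i hi => hf i (mem_Ico.1 hi).1)
    have e2 : (∏ i ∈ range K, f i) * ∏ i ∈ Ico K L, f i - ∏ i ∈ range K, f i =
      (∏ i ∈ range K, f i) * (∏ i ∈ Ico K L, f i - 1) := by ring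
    rw [e2]
    exact Dvd.dvd.mul_left h4 _
  exact tendsto_nhds_unique h2 h3

/-- `∏_{i<K} (1 + X^{i+1})` -/
noncomputable def QQ (K : ℕ) : Polynomial ℤ := ∏ i ∈ range K, (1 + Polynomial.X ^ (i + 1))

theorem card_distincts_eq_coeff {n K : ℕ} (h : n ≤ K) :
    ((Nat.Partition.distincts n).card : ℤ) = (QQ K).coeff n := by
  have h1 := Nat.Partition.hasProd_powerSeriesMk_card_countRestricted ℤ (m := 2) (by norm_num)
  have h2 := coeff_of_hasProd _ _ h1 n K (by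
    intro i hi
    rw [sum_range_succ, sum_range_one]
    simp only [mul_zero, pow_zero, mul_one, add_sub_cancel_left]
    exact pow_dvd_pow _ (by omega))
  rw [PowerSeries.coeff_mk, Nat.Partition.countRestricted_two] at h2
  rw [h2, ← Polynomial.coeff_coe]
  congr 1
  unfold QQ
  rw [← Polynomial.coeToPowerSeries.ringHom_apply, map_prod]
  apply prod_congr rfl
  intro i _
  rw [sum_range_succ, sum_range_one]
  simp

/-- the sign weight -/
def sgnw : ℕ → ℕ → ℤ := fun _ c => (-1) ^ (c + 1)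

/-- the factor of the generating function -/
noncomputable def Fg {R : Type*} [CommRing R] [TopologicalSpace R] (f : ℕ → ℕ → R) (i : ℕ) :
    R⟦X⟧ := 1 + ∑' j, f (i + 1) (j + 1) • (X : R⟦X⟧) ^ ((i + 1) * (j + 1))

theorem hasProd_Fg {R : Type*} [CommRing R] [TopologicalSpace R] [T2Space R] (f : ℕ → ℕ → R) :
    HasProd (Fg f) (Nat.Partition.genFun f) := Nat.Partition.hasProd_genFun f

theorem Fg_eq {R : Type*} [CommRing R] [TopologicalSpace R] (f : ℕ → ℕ → R) (i : ℕ) :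
    Fg f i = 1 + ∑' j, C (f (i + 1) (j + 1)) * (X : R⟦X⟧) ^ ((i + 1) * (j + 1)) := by
  unfold Fg
  congr 1
  apply tsum_congr
  intro j
  rw [PowerSeries.smul_eq_C_mul]

theorem factor_identity (i : ℕ) : ∃ S : ℤ⟦X⟧, Fg sgnw i = 1 + X ^ (i + 1) * S ∧
    (1 + X ^ (i + 1)) * (1 + X ^ (i + 1) * S) = 1 + 2 * X ^ (i + 1) := by
  have hc : constantCoeff (-(X : ℤ⟦X⟧) ^ (i + 1)) = 0 := by simp
  refine ⟨∑' j : ℕ, (-(X : ℤ⟦X⟧) ^ (i + 1)) ^ j, ?_, ?_⟩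
  · rw [Fg_eq]
    congr 1
    rw [← (WithPiTopology.summable_pow_of_constantCoeff_eq_zero hc).tsum_mul_left]
    apply tsum_congr
    intro j
    unfold sgnw
    have hC : C ((-1 : ℤ) ^ (j + 1 + 1)) = (-1 : ℤ⟦X⟧) ^ j := by
      rw [map_pow, map_neg, map_one]; ring
    rw [hC, neg_pow (X ^ (i + 1)) j, ← pow_mul, mul_add (i + 1) j 1, mul_one, pow_add]
    ring
  · have h := WithPiTopology.tsum_pow_mul_one_sub_of_constantCoeff_eq_zero (R := ℤ) hc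
    linear_combination (X : ℤ⟦X⟧) ^ (i + 1) * h

theorem one_sub_prod_ne_zero (M : ℕ) : ∏ i ∈ range M, (1 - (X : ℤ⟦X⟧) ^ (2 * i + 2)) ≠ 0 := by
  rw [prod_ne_zero_iff]
  intro i _ h
  have := congrArg constantCoeff h
  simp at this

theorem E_dvd (M : ℕ) : (X : ℤ⟦X⟧) ^ (2 * M + 1) ∣
    (∏ j ∈ range (2 * M), (1 + (X : ℤ⟦X⟧) ^ (j + 1))) *
      (∏ i ∈ range M, (1 - (X : ℤ⟦X⟧) ^ (2 * i + 1))) - 1 := by
  have h1 := prod_identity (X : ℤ⟦X⟧) M
  have h2 := prod_range_mul_prod_Ico (fun i => 1 - (X : ℤ⟦X⟧) ^ (2 * i + 2))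
    (show M ≤ 2 * M by omega)
  have h3 : (∏ j ∈ range (2 * M), (1 + (X : ℤ⟦X⟧) ^ (j + 1))) *
      (∏ i ∈ range M, (1 - (X : ℤ⟦X⟧) ^ (2 * i + 1))) =
      ∏ i ∈ Ico M (2 * M), (1 - (X : ℤ⟦X⟧) ^ (2 * i + 2)) := by
    apply mul_right_cancel₀ (one_sub_prod_ne_zero M)
    rw [h1, ← h2]
    ring
  rw [h3]
  apply dvd_prod_sub_one
  intro i hi
  rw [mem_Ico] at hi
  have e : (1 - (X : ℤ⟦X⟧) ^ (2 * i + 2)) - 1 = -(X ^ (2 * i + 2)) := by ring
  rw [e, dvd_neg]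
  exact pow_dvd_pow _ (by omega)

theorem coe_PP (M : ℕ) : ((PP M : Polynomial ℤ) : ℤ⟦X⟧) =
    (∏ j ∈ range (2 * M), (1 + 2 * (X : ℤ⟦X⟧) ^ (j + 1))) *
      ∏ i ∈ range M, (1 - (X : ℤ⟦X⟧) ^ (2 * i + 1)) := by
  have h : ((PP M : Polynomial ℤ) : ℤ⟦X⟧) = ∏ i ∈ range M,
      ((1 + 2 * (X : ℤ⟦X⟧) ^ (2 * i + 1)) * (1 - X ^ (2 * i + 1)) * (1 + 2 * X ^ (2 * i + 2))) := by
    unfold PP
    rw [← Polynomial.coeToPowerSeries.ringHom_apply, map_prod]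
    apply prod_congr rfl
    intro i _
    simp only [map_mul, map_add, map_sub, map_one, map_pow, map_ofNat,
      Polynomial.coeToPowerSeries.ringHom_apply, Polynomial.coe_X]
  rw [h]
  clear h
  induction M with
  | zero => simp
  | succ M ih =>
    rw [show 2 * (M + 1) = 2 * M + 1 + 1 by ring, prod_range_succ, prod_range_succ,
      prod_range_succ _ (2 * M), prod_range_succ _ M, ih]
    ring

theorem sum_sgn_eq_coeff {n M : ℕ} (h : n ≤ 2 * M) :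
    (∑ p : n.Partition, p.parts.toFinsupp.prod sgnw) = (PP M).coeff n := by
  have h1 := hasProd_Fg (R := ℤ) sgnw
  have h2 := coeff_of_hasProd _ _ h1 n (2 * M) (by
    intro i hi
    obtain ⟨S, hS, _⟩ := factor_identity i
    rw [hS, add_sub_cancel_left]
    exact Dvd.dvd.mul_right (pow_dvd_pow _ (by omega)) _)
  rw [Nat.Partition.coeff_genFun] at h2
  rw [h2, ← Polynomial.coeff_coe, coe_PP]
  symm
  apply coeff_eq_of_dvd (N := 2 * M + 1) (by omega)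
  set F : ℕ → ℤ⟦X⟧ := Fg sgnw with hF
  have h3 : ∏ j ∈ range (2 * M), (1 + 2 * (X : ℤ⟦X⟧) ^ (j + 1)) =
      (∏ j ∈ range (2 * M), (1 + (X : ℤ⟦X⟧) ^ (j + 1))) * ∏ j ∈ range (2 * M), F j := by
    rw [← prod_mul_distrib]
    apply prod_congr rfl
    intro i _
    obtain ⟨S, hS, hS2⟩ := factor_identity i
    rw [hF, hS, hS2]
  rw [h3]
  have e : (∏ j ∈ range (2 * M), (1 + (X : ℤ⟦X⟧) ^ (j + 1))) * (∏ j ∈ range (2 * M), F j) *
      ∏ i ∈ range M, (1 - (X : ℤ⟦X⟧) ^ (2 * i + 1)) - ∏ j ∈ range (2 * M), F j =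
      (∏ j ∈ range (2 * M), F j) * ((∏ j ∈ range (2 * M), (1 + (X : ℤ⟦X⟧) ^ (j + 1))) *
      (∏ i ∈ range M, (1 - (X : ℤ⟦X⟧) ^ (2 * i + 1))) - 1) := by ring
  rw [e]
  exact Dvd.dvd.mul_left (E_dvd M) _

end Pool.Agent.Lib.MP781
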