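import Mathlib
import Pool.Agent.Lib.MP_781ce4_nt.GenF

namespace Pool.Agent.Lib.MP781

open Finset

/-- The number of missing integers of a partition: the `k` with `1 ≤ k < (largest part)` that do
not occur as a part. -/
def missing {n : ℕ} (p : n.Partition) : ℕ :=
  ((Finset.Ico 1 p.parts.sup).filter (fun k => k ∉ p.parts)).card

/-- number of elements exceeding `k` -/
def gtc (s : Multiset ℕ) (k : ℕ) : ℕ := (s.filter (fun x => k < x)).card

theorem gtc_antitone (s : Multiset ℕ) : Antitone (gtc s) := by
  intro a b hab
  apply Multiset.card_le_card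
  apply Multiset.monotone_filter_right
  intro x hx
  omega

theorem gtc_cons (a : ℕ) (s : Multiset ℕ) (k : ℕ) :
    gtc (a ::ₘ s) k = (if k < a then 1 else 0) + gtc s k := by
  unfold gtc
  rw [Multiset.filter_cons]
  split_ifs <;> simp [add_comm]

theorem gtc_succ (s : Multiset ℕ) (k : ℕ) : gtc s k = gtc s (k + 1) + s.count (k + 1) := by
  induction s using Multiset.induction_on with
  | empty => simp [gtc]
  | cons a s ih =>
    rw [gtc_cons, gtc_cons, ih, Multiset.count_cons]
    split_ifs <;> omega

theorem gtc_eq_zero {s : Multiset ℕ} {k : ℕ} (h : s.sup ≤ k) : gtc s k = 0 := by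
  unfold gtc
  rw [Multiset.card_eq_zero, Multiset.filter_eq_nil]
  intro a ha
  have := Multiset.le_sup ha
  omega

theorem gtc_pos {s : Multiset ℕ} {k : ℕ} (h : k < s.sup) : 0 < gtc s k := by
  unfold gtc
  rw [Multiset.card_pos]
  intro h0
  rw [Multiset.filter_eq_nil] at h0
  have : s.sup ≤ k := Multiset.sup_le.2 (fun b hb => not_lt.1 (h0 b hb))
  omega

theorem sum_gtc (s : Multiset ℕ) (L : ℕ) (h : ∀ x ∈ s, x ≤ L) :
    ∑ k ∈ range L, gtc s k = s.sum := by
  induction s using Multiset.induction_on with
  | empty => simp [gtc]
  | cons a s ih =>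
    have h1 : ∑ k ∈ range L, gtc (a ::ₘ s) k =
        ∑ k ∈ range L, ((if k < a then 1 else 0) + gtc s k) :=
      Finset.sum_congr rfl (fun k _ => gtc_cons a s k)
    rw [h1, Finset.sum_add_distrib, ih (fun x hx => h x (Multiset.mem_cons_of_mem hx)),
      Multiset.sum_cons, ← Finset.card_filter]
    congr 1
    have h2 : (range L).filter (fun k => k < a) = range a := by
      ext k
      simp only [mem_filter, mem_range]
      have := h a (Multiset.mem_cons_self a s)
      omega
    rw [h2, card_range]

/-- conjugate partition -/
def conj {n : ℕ} (p : n.Partition) : n.Partition where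
  parts := (Multiset.range p.parts.sup).map (gtc p.parts)
  parts_pos := by
    intro i hi
    rw [Multiset.mem_map] at hi
    obtain ⟨k, hk, rfl⟩ := hi
    exact gtc_pos (Multiset.mem_range.1 hk)
  parts_sum := by
    have h := sum_gtc p.parts p.parts.sup (fun x hx => Multiset.le_sup hx)
    rw [p.parts_sum] at h
    exact h

theorem card_conj {n : ℕ} (p : n.Partition) : (conj p).parts.card = p.parts.sup := by
  unfold conj
  simp

theorem conj_injective (n : ℕ) : Function.Injective (conj (n := n)) := by
  intro p q hpq
  have hL : p.parts.sup = q.parts.sup := by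
    rw [← card_conj, ← card_conj, hpq]
  have h1 : (Multiset.range p.parts.sup).map (gtc p.parts) =
      (Multiset.range p.parts.sup).map (gtc q.parts) := by
    have := congrArg Nat.Partition.parts hpq
    unfold conj at this
    simp only at this
    rw [← hL] at this
    exact this
  have hsort : ∀ s : Multiset ℕ, List.Pairwise (fun a b => b ≤ a)
      ((List.range p.parts.sup).map (gtc s)) := by
    intro s
    rw [List.pairwise_map]
    apply List.Pairwise.imp _ List.pairwise_lt_range
    intro a b hab
    exact gtc_antitone s hab.le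
  have h2 : (List.range p.parts.sup).map (gtc p.parts) =
      (List.range p.parts.sup).map (gtc q.parts) := by
    have h3 : ((List.range p.parts.sup).map (gtc p.parts)).Perm
        ((List.range p.parts.sup).map (gtc q.parts)) := Multiset.coe_eq_coe.1 h1
    exact h3.eq_of_pairwise (fun a b _ _ h h' => le_antisymm h' h) (hsort _) (hsort _)
  have h3 : ∀ k, gtc p.parts k = gtc q.parts k := by
    intro k
    rcases lt_or_ge k p.parts.sup with hk | hk
    · have := List.map_inj_left.1 h2 k (List.mem_range.2 hk)
      exact this
    · rw [gtc_eq_zero hk, gtc_eq_zero (hL ▸ hk)]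
  apply Nat.Partition.ext
  rw [Multiset.ext]
  intro a
  rcases Nat.eq_zero_or_pos a with rfl | ha
  · rw [Multiset.count_eq_zero_of_notMem (fun h => absurd (p.parts_pos h) (lt_irrefl 0)),
      Multiset.count_eq_zero_of_notMem (fun h => absurd (q.parts_pos h) (lt_irrefl 0))]
  · obtain ⟨k, rfl⟩ : ∃ k, a = k + 1 := ⟨a - 1, by omega⟩
    have e1 := gtc_succ p.parts k
    have e2 := gtc_succ q.parts k
    rw [h3 k, h3 (k + 1)] at e1
    omega

theorem conj_bijective (n : ℕ) : Function.Bijective (conj (n := n)) :=
  Finite.injective_iff_bijective.1 (conj_injective n)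

theorem toFinset_conj {n : ℕ} (p : n.Partition) :
    (conj p).parts.toFinset = (p.parts.toFinset.image (fun x => gtc p.parts (x - 1))) := by
  ext v
  rw [Multiset.mem_toFinset, mem_image]
  unfold conj
  simp only [Multiset.mem_map, Multiset.mem_range, Multiset.mem_toFinset]
  constructor
  · rintro ⟨k, hk, rfl⟩
    -- the smallest part exceeding k
    have hex : ∃ x, x ∈ p.parts ∧ k < x := by
      by_contra hcon
      push Not at hcon
      have : p.parts.sup ≤ k := Multiset.sup_le.2 hcon
      omega
    classical
    let x := Nat.find hex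
    have hx : x ∈ p.parts ∧ k < x := Nat.find_spec hex
    refine ⟨x, hx.1, ?_⟩
    have hmin : ∀ m, m < x → ¬(m ∈ p.parts ∧ k < m) := fun m hm => Nat.find_min hex hm
    have key : ∀ j, k + j < x → gtc p.parts (k + j) = gtc p.parts k := by
      intro j
      induction j with
      | zero => intro _; rfl
      | succ j ih =>
        intro hj
        have h1 := gtc_succ p.parts (k + j)
        have h2 : p.parts.count (k + j + 1) = 0 := by
          apply Multiset.count_eq_zero_of_notMem
          intro hmem
          exact hmin (k + j + 1) (by omega) ⟨hmem, by omega⟩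
        rw [h2, add_zero] at h1
        rw [← add_assoc, ← h1]
        exact ih (by omega)
    have := key (x - 1 - k) (by omega)
    rw [← this]
    congr 1
    omega
  · rintro ⟨x, hx, rfl⟩
    refine ⟨x - 1, ?_, rfl⟩
    have h1 := Multiset.le_sup hx
    have h2 := p.parts_pos hx
    omega

theorem card_toFinset_conj {n : ℕ} (p : n.Partition) :
    (conj p).parts.toFinset.card = p.parts.toFinset.card := by
  rw [toFinset_conj, card_image_of_injOn]
  have key : ∀ x y, x ∈ p.parts → y ∈ p.parts → x < y →
      gtc p.parts (y - 1) < gtc p.parts (x - 1) := by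
    intro x y hx hy hxy
    have h1 := gtc_succ p.parts (x - 1)
    have hx0 := p.parts_pos hx
    have e : x - 1 + 1 = x := by omega
    rw [e] at h1
    have h2 : 0 < p.parts.count x := Multiset.count_pos.2 hx
    have h3 := gtc_antitone p.parts (show x ≤ y - 1 by omega)
    omega
  intro x hx y hy hxy
  simp only at hxy
  rw [Finset.mem_coe, Multiset.mem_toFinset] at hx hy
  rcases lt_trichotomy x y with h | h | h
  · have := key x y hx hy h; omega
  · exact h
  · have := key y x hy hx h; omega

theorem missing_add {n : ℕ} (p : n.Partition) :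
    missing p + p.parts.toFinset.card = p.parts.sup := by
  unfold missing
  have h0 : p.parts.toFinset ⊆ Finset.Ico 1 (p.parts.sup + 1) := by
    intro x hx
    rw [Multiset.mem_toFinset] at hx
    rw [mem_Ico]
    have h1 := Multiset.le_sup hx
    have h2 := p.parts_pos hx
    omega
  have h1 : (Finset.Ico 1 p.parts.sup).filter (fun k => k ∉ p.parts) =
      (Finset.Ico 1 (p.parts.sup + 1)) \ p.parts.toFinset := by
    ext k
    simp only [mem_filter, mem_Ico, mem_sdiff, Multiset.mem_toFinset]
    constructor
    · rintro ⟨⟨h1, h2⟩, h3⟩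
      exact ⟨⟨h1, by omega⟩, h3⟩
    · rintro ⟨⟨h1, h2⟩, h3⟩
      refine ⟨⟨h1, ?_⟩, h3⟩
      rcases Nat.lt_or_ge k p.parts.sup with h | h
      · exact h
      · exfalso
        have hk : k = p.parts.sup := by omega
        apply h3
        -- the sup of a nonempty multiset of naturals is attained
        have hex : ∃ x ∈ p.parts, k - 1 < x := by
          by_contra hcon
          push Not at hcon
          have : p.parts.sup ≤ k - 1 := Multiset.sup_le.2 hcon
          omega
        obtain ⟨x, hx, hx2⟩ := hex
        have := Multiset.le_sup hx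
        have : x = k := by omega
        rw [← this]; exact hx
  rw [h1, Finset.card_sdiff_add_card_eq_card h0, Nat.card_Ico]
  omega

theorem prod_sgnw_eq (s : Multiset ℕ) :
    s.toFinsupp.prod sgnw = (-1) ^ (s.card + s.toFinset.card) := by
  rw [Finsupp.prod, Multiset.toFinsupp_support]
  unfold sgnw
  rw [Finset.prod_pow_eq_pow_sum, Finset.sum_add_distrib]
  simp only [Multiset.toFinsupp_apply, Multiset.toFinset_sum_count_eq, sum_const, smul_eq_mul,
    mul_one]

theorem sgn_missing {n : ℕ} (p : n.Partition) :
    ((-1 : ℤ)) ^ missing p = (conj p).parts.toFinsupp.prod sgnw := by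
  rw [prod_sgnw_eq, card_conj, card_toFinset_conj, ← missing_add p, add_assoc, pow_add, ← two_mul,
    pow_mul]
  norm_num

theorem sum_sgn_missing (n : ℕ) :
    ∑ p : n.Partition, ((-1 : ℤ)) ^ missing p =
      ∑ p : n.Partition, p.parts.toFinsupp.prod sgnw := by
  rw [← (conj_bijective n).sum_comp (fun p => p.parts.toFinsupp.prod sgnw)]
  exact Finset.sum_congr rfl (fun p _ => sgn_missing p)

/-- partitions with exactly `m` missing integers -/
def Pnm (n m : ℕ) : ℕ := (Finset.univ.filter (fun p : n.Partition => missing p = m)).card

theorem even_sub_odd (n : ℕ) :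
    ((Finset.univ.filter (fun p : n.Partition => Even (missing p))).card : ℤ) -
      ((Finset.univ.filter (fun p : n.Partition => Odd (missing p))).card : ℤ) =
      ∑ p : n.Partition, ((-1 : ℤ)) ^ missing p := by
  rw [Finset.card_filter, Finset.card_filter]
  push_cast
  rw [← Finset.sum_sub_distrib]
  apply Finset.sum_congr rfl
  intro p _
  rcases Nat.even_or_odd (missing p) with h | h
  · have h2 : ¬ Odd (missing p) := Nat.not_odd_iff_even.2 h
    rw [if_pos h, if_neg h2, h.neg_one_pow]; rfl
  · have h2 : ¬ Even (missing p) := Nat.not_even_iff_odd.2 h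
    rw [if_neg h2, if_pos h, h.neg_one_pow]; rfl

end Pool.Agent.Lib.MP781
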