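import Mathlib
import Pool.Agent.Lib.MP_781ce4_nt.GenF

namespace Pool.Agent.Lib.MP781

open Finset

/-! ### The computations -/

/-- multiply by `∏_{i<k} (1 + X^{j+i})` modulo `Md`, where `X = 2^w` -/
def loopQ (w Md : ℕ) : ℕ → ℕ → ℕ → ℕ
  | 0, _, T => T
  | k + 1, j, T =>
    bif Nat.ble T 0 then 0 else loopQ w Md k (j + 1) ((T + Nat.shiftLeft T (w * j)) % Md)

/-- one step of the second computation -/
def stepA (w Md i T : ℕ) : ℕ :=
  let T1 := (T + Nat.shiftLeft T (w * (2 * i + 1) + 1)) % Md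
  let T2 := (T1 + (Md - (Nat.shiftLeft T1 (w * (2 * i + 1))) % Md)) % Md
  (T2 + Nat.shiftLeft T2 (w * (2 * i + 2) + 1)) % Md

/-- second computation -/
def loopA (w Md : ℕ) : ℕ → ℕ → ℕ → ℕ
  | 0, _, T => T
  | k + 1, i, T => bif Nat.ble T 0 then 0 else loopA w Md k (i + 1) (stepA w Md i T)

/-- the packed values of `q` -/
def TQ (w h : ℕ) : ℕ :=
  (loopQ w (2 ^ (w * (4 * h))) (2 * h - 1) 1 1 *
    (1 + 2 ^ (w * (2 * h)) * ((2 ^ (w * (2 * h)) - 1) / (2 ^ w - 1)))) % (2 ^ (w * (4 * h)))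

/-- the packed values of the difference, shifted by `2^(w-1)` -/
def TA (w h : ℕ) : ℕ :=
  ((loopA w (2 ^ (w * (4 * h))) h 0 1 *
    (1 + (2 ^ w + 2 * (2 ^ w) ^ 2) *
      (2 ^ (w * (2 * h)) * ((2 ^ (w * (2 * h)) - 1) / ((2 ^ w) ^ 2 - 1))))) +
    2 ^ (w - 1) * ((2 ^ (w * (4 * h)) - 1) / (2 ^ w - 1))) % (2 ^ (w * (4 * h)))

/-! ### Correctness of the loops -/

theorem natShiftLeft_eq (a b : ℕ) : Nat.shiftLeft a b = a * 2 ^ b := Nat.shiftLeft_eq a b

theorem loopQ_spec (w Md : ℕ) (k j T : ℕ) :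
    (loopQ w Md k j T : ℤ) ≡ T * ∏ i ∈ range k, (1 + ((2 : ℤ) ^ w) ^ (j + i)) [ZMOD (Md : ℤ)] := by
  induction k generalizing j T with
  | zero => simp [loopQ]
  | succ k ih =>
    rcases Nat.eq_zero_or_pos T with rfl | hT
    · simp [loopQ]
    · have hb : Nat.ble T 0 = false := by
        rw [Bool.eq_false_iff]
        intro h
        have := Nat.le_of_ble_eq_true h
        omega
      have e1 : loopQ w Md (k + 1) j T =
          loopQ w Md k (j + 1) ((T + Nat.shiftLeft T (w * j)) % Md) := by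
        rw [loopQ, hb]; rfl
      rw [e1]
      refine (ih _ _).trans ?_
      have h1 : (((T + Nat.shiftLeft T (w * j)) % Md : ℕ) : ℤ) ≡
          T * (1 + ((2 : ℤ) ^ w) ^ j) [ZMOD (Md : ℤ)] := by
        rw [natShiftLeft_eq]
        push_cast
        refine (Int.mod_modEq _ _).trans ?_
        have : (T : ℤ) + T * 2 ^ (w * j) = T * (1 + ((2 : ℤ) ^ w) ^ j) := by
          rw [← pow_mul]; ring
        rw [this]
      refine (Int.ModEq.mul_right _ h1).trans ?_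
      rw [prod_range_succ']
      have : ∏ i ∈ range k, (1 + ((2 : ℤ) ^ w) ^ (j + 1 + i)) =
          ∏ i ∈ range k, (1 + ((2 : ℤ) ^ w) ^ (j + (i + 1))) := by
        apply prod_congr rfl; intro i _; congr 2; ring
      rw [this, add_zero]
      have e2 : (T : ℤ) * (1 + ((2 : ℤ) ^ w) ^ j) *
          ∏ i ∈ range k, (1 + ((2 : ℤ) ^ w) ^ (j + (i + 1))) =
        T * ((∏ i ∈ range k, (1 + ((2 : ℤ) ^ w) ^ (j + (i + 1)))) * (1 + ((2 : ℤ) ^ w) ^ j)) := by
        ring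
      rw [e2]

theorem stepA_spec (w Md i T : ℕ) (hMd : 0 < Md) :
    (stepA w Md i T : ℤ) ≡ T * ((1 + 2 * ((2 : ℤ) ^ w) ^ (2 * i + 1)) *
      (1 - ((2 : ℤ) ^ w) ^ (2 * i + 1)) * (1 + 2 * ((2 : ℤ) ^ w) ^ (2 * i + 2)))
      [ZMOD (Md : ℤ)] := by
  set y : ℤ := ((2 : ℤ) ^ w) ^ (2 * i + 1) with hy
  set z : ℤ := ((2 : ℤ) ^ w) ^ (2 * i + 2) with hz
  set T1 := (T + Nat.shiftLeft T (w * (2 * i + 1) + 1)) % Md with hT1
  set T2 := (T1 + (Md - (Nat.shiftLeft T1 (w * (2 * i + 1))) % Md)) % Md with hT2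
  have e : stepA w Md i T = (T2 + Nat.shiftLeft T2 (w * (2 * i + 2) + 1)) % Md := rfl
  have h1 : (T1 : ℤ) ≡ T * (1 + 2 * y) [ZMOD (Md : ℤ)] := by
    rw [hT1, natShiftLeft_eq]
    push_cast
    refine (Int.mod_modEq _ _).trans ?_
    have : (T : ℤ) + T * 2 ^ (w * (2 * i + 1) + 1) = T * (1 + 2 * y) := by
      rw [hy, ← pow_mul]; ring
    rw [this]
  have h2 : (T2 : ℤ) ≡ T1 * (1 - y) [ZMOD (Md : ℤ)] := by
    have hle : (Nat.shiftLeft T1 (w * (2 * i + 1))) % Md ≤ Md := (Nat.mod_lt _ hMd).le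
    rw [hT2, natShiftLeft_eq]
    rw [natShiftLeft_eq] at hle
    push_cast [Nat.cast_sub hle]
    refine (Int.mod_modEq _ _).trans ?_
    have h3 : ((T1 : ℤ) * 2 ^ (w * (2 * i + 1))) % Md ≡ T1 * y [ZMOD (Md : ℤ)] := by
      refine (Int.mod_modEq _ _).trans ?_
      rw [hy, ← pow_mul]
    have h4 : (T1 : ℤ) + (Md - ((T1 : ℤ) * 2 ^ (w * (2 * i + 1))) % Md) ≡
        T1 + (0 - T1 * y) [ZMOD (Md : ℤ)] := by
      refine Int.ModEq.add_left _ (Int.ModEq.sub ?_ h3)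
      exact (Int.modEq_zero_iff_dvd).2 (dvd_refl _)
    refine h4.trans ?_
    have : (T1 : ℤ) + (0 - T1 * y) = T1 * (1 - y) := by ring
    rw [this]
  rw [e]
  have h5 : (((T2 + Nat.shiftLeft T2 (w * (2 * i + 2) + 1)) % Md : ℕ) : ℤ) ≡
      T2 * (1 + 2 * z) [ZMOD (Md : ℤ)] := by
    rw [natShiftLeft_eq]
    push_cast
    refine (Int.mod_modEq _ _).trans ?_
    have : (T2 : ℤ) + T2 * 2 ^ (w * (2 * i + 2) + 1) = T2 * (1 + 2 * z) := by
      rw [hz, ← pow_mul]; ring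
    rw [this]
  refine h5.trans ((Int.ModEq.mul_right _ (h2.trans (Int.ModEq.mul_right _ h1))).trans ?_)
  have : (T : ℤ) * (1 + 2 * y) * (1 - y) * (1 + 2 * z) =
    T * ((1 + 2 * y) * (1 - y) * (1 + 2 * z)) := by ring
  rw [this]

theorem loopA_spec (w Md : ℕ) (hMd : 0 < Md) (k i T : ℕ) :
    (loopA w Md k i T : ℤ) ≡ T * ∏ l ∈ range k, ((1 + 2 * ((2 : ℤ) ^ w) ^ (2 * (i + l) + 1)) *
      (1 - ((2 : ℤ) ^ w) ^ (2 * (i + l) + 1)) * (1 + 2 * ((2 : ℤ) ^ w) ^ (2 * (i + l) + 2)))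
      [ZMOD (Md : ℤ)] := by
  induction k generalizing i T with
  | zero => simp [loopA]
  | succ k ih =>
    rcases Nat.eq_zero_or_pos T with rfl | hT
    · simp [loopA]
    · have hb : Nat.ble T 0 = false := by
        rw [Bool.eq_false_iff]
        intro h
        have := Nat.le_of_ble_eq_true h
        omega
      have e1 : loopA w Md (k + 1) i T = loopA w Md k (i + 1) (stepA w Md i T) := by
        rw [loopA, hb]; rfl
      rw [e1]
      refine (ih _ _).trans ?_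
      refine (Int.ModEq.mul_right _ (stepA_spec w Md i T hMd)).trans ?_
      rw [prod_range_succ']
      have : ∏ l ∈ range k, ((1 + 2 * ((2 : ℤ) ^ w) ^ (2 * (i + 1 + l) + 1)) *
          (1 - ((2 : ℤ) ^ w) ^ (2 * (i + 1 + l) + 1)) *
            (1 + 2 * ((2 : ℤ) ^ w) ^ (2 * (i + 1 + l) + 2))) =
          ∏ l ∈ range k, ((1 + 2 * ((2 : ℤ) ^ w) ^ (2 * (i + (l + 1)) + 1)) *
          (1 - ((2 : ℤ) ^ w) ^ (2 * (i + (l + 1)) + 1)) *
            (1 + 2 * ((2 : ℤ) ^ w) ^ (2 * (i + (l + 1)) + 2))) := by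
        apply prod_congr rfl; intro l _
        rw [show i + 1 + l = i + (l + 1) by ring]
      rw [this, add_zero, mul_assoc, mul_comm (_ * _ * _) (∏ l ∈ range k, _)]

/-! ### Polynomial evaluation modulo a power -/

theorem eval_modEq (p : Polynomial ℤ) (x : ℤ) (N : ℕ) :
    p.eval x ≡ ∑ i ∈ range N, p.coeff i * x ^ i [ZMOD x ^ N] := by
  rw [Polynomial.eval_eq_sum_range' (n := N + (p.natDegree + 1)) (by omega)]
  rw [Finset.sum_range_add]
  have : (∑ i ∈ range N, p.coeff i * x ^ i) =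
    (∑ i ∈ range N, p.coeff i * x ^ i) + 0 := by ring
  conv_rhs => rw [this]
  refine Int.ModEq.add_left _ ?_
  rw [Int.modEq_zero_iff_dvd]
  apply Finset.dvd_sum
  intro i _
  rw [pow_add]
  exact Dvd.dvd.mul_left (Dvd.intro _ rfl) _

theorem prod_linear (x : ℤ) (c : ℕ → ℤ) (J N k : ℕ) (h : ∀ i, x ^ J ∣ c i) (hN : N ≤ 2 * J) :
    ∏ i ∈ range k, (1 + c i) ≡ 1 + ∑ i ∈ range k, c i [ZMOD x ^ N] := by
  induction k with
  | zero => simp
  | succ k ih =>
    rw [prod_range_succ, sum_range_succ]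
    refine (Int.ModEq.mul_right _ ih).trans ?_
    have h1 : x ^ J ∣ ∑ i ∈ range k, c i := Finset.dvd_sum (fun i _ => h i)
    have h2 : x ^ N ∣ (∑ i ∈ range k, c i) * c k := by
      refine (pow_dvd_pow x hN).trans ?_
      rw [two_mul, pow_add]
      exact mul_dvd_mul h1 (h k)
    have e : (1 + ∑ i ∈ range k, c i) * (1 + c k) =
      (1 + (∑ i ∈ range k, c i + c k)) + (∑ i ∈ range k, c i) * c k := by ring
    rw [e]
    have h3 : (∑ i ∈ range k, c i) * c k ≡ 0 [ZMOD x ^ N] := Int.modEq_zero_iff_dvd.2 h2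
    simpa using Int.ModEq.add_left (1 + (∑ i ∈ range k, c i + c k)) h3

theorem digits_lt (c : ℕ → ℕ) (X N : ℕ) (h : ∀ m < N, c m < X) :
    ∑ m ∈ range N, c m * X ^ m < X ^ N := by
  induction N with
  | zero => simp
  | succ N ih =>
    rw [sum_range_succ, pow_succ]
    have h1 := ih (fun m hm => h m (by omega))
    have h2 : c N + 1 ≤ X := h N (by omega)
    have h3 : (c N + 1) * X ^ N ≤ X * X ^ N := Nat.mul_le_mul_right _ h2
    nlinarith [Nat.zero_le (X ^ N)]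

theorem geom_nat (X : ℕ) (hX : 2 ≤ X) (n : ℕ) :
    ((X ^ n - 1) / (X - 1) : ℕ) = ∑ k ∈ range n, X ^ k := (Nat.geomSum_eq hX n).symm

/-! ### The packed values of `q` -/

theorem TQ_spec {w h : ℕ} (hw : 1 ≤ w) (hh : 1 ≤ h)
    (hb : ∀ m < 4 * h, (Nat.Partition.distincts m).card < 2 ^ w) :
    TQ w h = ∑ m ∈ range (4 * h), (Nat.Partition.distincts m).card * (2 ^ w) ^ m := by
  set X : ℕ := 2 ^ w with hX
  have hX2 : 2 ≤ X := by
    rw [hX]; calc 2 = 2 ^ 1 := by norm_num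
      _ ≤ 2 ^ w := Nat.pow_le_pow_right (by norm_num) hw
  have hMd : (2 : ℕ) ^ (w * (4 * h)) = X ^ (4 * h) := by rw [hX, ← pow_mul]
  have hlt2 := digits_lt (fun m => (Nat.Partition.distincts m).card) X (4 * h) hb
  have hlt1 : TQ w h < X ^ (4 * h) := by
    rw [← hMd]; unfold TQ; exact Nat.mod_lt _ (by positivity)
  have hmod : (TQ w h : ℤ) ≡
      ((∑ m ∈ range (4 * h), (Nat.Partition.distincts m).card * X ^ m : ℕ) : ℤ)
      [ZMOD ((X ^ (4 * h) : ℕ) : ℤ)] := by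
    have h1 : (TQ w h : ℤ) ≡ ((QQ (4 * h - 1)).eval (X : ℤ)) [ZMOD ((X ^ (4 * h) : ℕ) : ℤ)] := by
      unfold TQ
      rw [hMd]
      push_cast
      refine (Int.mod_modEq _ _).trans ?_
      have h2 := loopQ_spec w (X ^ (4 * h)) (2 * h - 1) 1 1
      have h3 : (((1 + 2 ^ (w * (2 * h)) * ((2 ^ (w * (2 * h)) - 1) / (2 ^ w - 1)) : ℕ) : ℤ)) =
          1 + ∑ i ∈ range (2 * h), (X : ℤ) ^ (2 * h + i) := by
        rw [pow_mul, ← hX, geom_nat X hX2]
        push_cast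
        rw [Finset.mul_sum]
        congr 1
        apply Finset.sum_congr rfl
        intro i _
        rw [pow_add]
      push_cast at h3
      rw [h3]
      have h4 := prod_linear (X : ℤ) (fun i => (X : ℤ) ^ (2 * h + i)) (2 * h) (4 * h) (2 * h)
        (fun i => by simp only [pow_add]; exact Dvd.intro _ rfl) (by omega)
      have h5 : (QQ (4 * h - 1)).eval (X : ℤ) =
          (∏ i ∈ range (2 * h - 1), (1 + (X : ℤ) ^ (1 + i))) *
            ∏ i ∈ range (2 * h), (1 + (X : ℤ) ^ (2 * h + i)) := by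
        unfold QQ
        rw [Polynomial.eval_prod]
        have e : 4 * h - 1 = (2 * h - 1) + 2 * h := by omega
        rw [e, Finset.prod_range_add]
        congr 1
        · apply prod_congr rfl; intro i _
          simp [add_comm]
        · apply prod_congr rfl; intro i _
          have : 2 * h - 1 + i + 1 = 2 * h + i := by omega
          simp [this]
      rw [h5]
      push_cast at h2 h4 ⊢
      refine Int.ModEq.mul ?_ h4.symm
      refine h2.trans ?_
      rw [one_mul]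
      rw [hX]
      push_cast
      rfl
    refine h1.trans ?_
    have h2 := eval_modEq (QQ (4 * h - 1)) (X : ℤ) (4 * h)
    push_cast
    refine h2.trans ?_
    have h3 : ∑ i ∈ range (4 * h), (QQ (4 * h - 1)).coeff i * (X : ℤ) ^ i =
        ∑ m ∈ range (4 * h), ((Nat.Partition.distincts m).card : ℤ) * (X : ℤ) ^ m := by
      apply Finset.sum_congr rfl
      intro i hi
      rw [mem_range] at hi
      rw [card_distincts_eq_coeff (n := i) (K := 4 * h - 1) (by omega)]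
    rw [h3]
  have h6 := (Int.natCast_modEq_iff).1 hmod
  exact Nat.ModEq.eq_of_lt_of_lt h6 hlt1 hlt2

/-! ### The packed values of the difference -/

/-- the coefficient `a(n)` -/
noncomputable def aa (n : ℕ) : ℤ := (PP n).coeff n

theorem aa_eq {n M : ℕ} (h : n ≤ 2 * M) : (PP M).coeff n = aa n := by
  unfold aa
  rcases le_total M n with hM | hM
  · exact (PP_coeff_stable h hM).symm
  · exact PP_coeff_stable (by omega) hM

theorem TA_spec {w h : ℕ} (hw : 1 ≤ w)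
    (hb : ∀ m < 4 * h, |aa m| < 2 ^ (w - 1)) :
    TA w h = ∑ m ∈ range (4 * h), (aa m + 2 ^ (w - 1)).toNat * (2 ^ w) ^ m := by
  set X : ℕ := 2 ^ w with hX
  have hX2 : 2 ≤ X := by
    rw [hX]; calc 2 = 2 ^ 1 := by norm_num
      _ ≤ 2 ^ w := Nat.pow_le_pow_right (by norm_num) hw
  have hXe : (X : ℤ) = 2 ^ (w - 1) + 2 ^ (w - 1) := by
    rw [hX]
    push_cast
    obtain ⟨v, rfl⟩ : ∃ v, w = v + 1 := ⟨w - 1, by omega⟩
    simp only [Nat.add_sub_cancel]
    ring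
  have hMd : (2 : ℕ) ^ (w * (4 * h)) = X ^ (4 * h) := by rw [hX, ← pow_mul]
  have hd : ∀ m < 4 * h, (((aa m + 2 ^ (w - 1)).toNat : ℕ) : ℤ) = aa m + 2 ^ (w - 1) := by
    intro m hm
    have := hb m hm
    rw [abs_lt] at this
    exact Int.toNat_of_nonneg (by linarith)
  have hd2 : ∀ m < 4 * h, (aa m + 2 ^ (w - 1)).toNat < X := by
    intro m hm
    have h1 := hd m hm
    have := hb m hm
    rw [abs_lt] at this
    have h2 : (((aa m + 2 ^ (w - 1)).toNat : ℕ) : ℤ) < X := by rw [h1, hXe]; linarith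
    exact_mod_cast h2
  have hlt2 := digits_lt (fun m => (aa m + 2 ^ (w - 1)).toNat) X (4 * h) hd2
  have hlt1 : TA w h < X ^ (4 * h) := by
    rw [← hMd]; unfold TA; exact Nat.mod_lt _ (by positivity)
  have hmod : (TA w h : ℤ) ≡
      ((∑ m ∈ range (4 * h), (aa m + 2 ^ (w - 1)).toNat * X ^ m : ℕ) : ℤ)
      [ZMOD ((X ^ (4 * h) : ℕ) : ℤ)] := by
    have h1 : (TA w h : ℤ) ≡ ((PP (2 * h)).eval (X : ℤ)) +
        2 ^ (w - 1) * ∑ i ∈ range (4 * h), (X : ℤ) ^ i [ZMOD ((X ^ (4 * h) : ℕ) : ℤ)] := by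
      unfold TA
      rw [hMd]
      push_cast
      refine (Int.mod_modEq _ _).trans ?_
      have g1 : ((((X ^ (4 * h) - 1) / (2 ^ w - 1)) : ℕ) : ℤ) =
          ∑ i ∈ range (4 * h), (X : ℤ) ^ i := by
        rw [← hX, geom_nat X hX2]; push_cast; rfl
      have g2 : ((1 + (2 ^ w + 2 * (2 ^ w) ^ 2) *
          (2 ^ (w * (2 * h)) * ((2 ^ (w * (2 * h)) - 1) / ((2 ^ w) ^ 2 - 1))) : ℕ) : ℤ) =
          1 + ∑ i ∈ range h, ((X : ℤ) ^ (2 * (h + i) + 1) + 2 * (X : ℤ) ^ (2 * (h + i) + 2)) := by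
        have e0 : (2 : ℕ) ^ (w * (2 * h)) = (X ^ 2) ^ h := by
          rw [hX, ← pow_mul, ← pow_mul]
        rw [e0, ← hX, geom_nat (X ^ 2) (by nlinarith)]
        push_cast
        rw [Finset.mul_sum, Finset.mul_sum]
        congr 1
        apply Finset.sum_congr rfl
        intro i _
        ring
      push_cast at g1 g2
      rw [g1, g2]
      refine Int.ModEq.add_right _ ?_
      have h2 := loopA_spec w (X ^ (4 * h)) (by positivity) h 0 1
      have h4 := prod_linear (X : ℤ) (fun i => (1 + 2 * (X : ℤ) ^ (2 * (h + i) + 1)) *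
        (1 - (X : ℤ) ^ (2 * (h + i) + 1)) * (1 + 2 * (X : ℤ) ^ (2 * (h + i) + 2)) - 1)
        (2 * h) (4 * h) h
        (fun i => by
          refine ⟨(X : ℤ) ^ (2 * i) * (X * (1 + 2 * X) + 2 * (X : ℤ) ^ (2 * (h + i) + 1) *
            (X ^ 2 - X - 2 * (X : ℤ) ^ (2 * (h + i) + 3)) ), ?_⟩
          ring) (by omega)
      have h4' : ∏ i ∈ range h, (1 + ((1 + 2 * (X : ℤ) ^ (2 * (h + i) + 1)) *
          (1 - (X : ℤ) ^ (2 * (h + i) + 1)) * (1 + 2 * (X : ℤ) ^ (2 * (h + i) + 2)) - 1)) ≡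
          1 + ∑ i ∈ range h, ((X : ℤ) ^ (2 * (h + i) + 1) + 2 * (X : ℤ) ^ (2 * (h + i) + 2))
          [ZMOD (X : ℤ) ^ (4 * h)] := by
        refine h4.trans ?_
        refine Int.ModEq.add_left _ ?_
        rw [Int.modEq_iff_dvd, ← Finset.sum_sub_distrib]
        apply Finset.dvd_sum
        intro i _
        refine ⟨(X : ℤ) ^ (4 * i) * (2 * X ^ 2 * (1 - X) + 4 * (X : ℤ) ^ (2 * (h + i) + 4)), ?_⟩
        ring
      have h5 : (PP (2 * h)).eval (X : ℤ) =
          (∏ l ∈ range h, ((1 + 2 * (X : ℤ) ^ (2 * (0 + l) + 1)) *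
            (1 - (X : ℤ) ^ (2 * (0 + l) + 1)) * (1 + 2 * (X : ℤ) ^ (2 * (0 + l) + 2)))) *
            ∏ i ∈ range h, (1 + ((1 + 2 * (X : ℤ) ^ (2 * (h + i) + 1)) *
              (1 - (X : ℤ) ^ (2 * (h + i) + 1)) * (1 + 2 * (X : ℤ) ^ (2 * (h + i) + 2)) - 1)) := by
        unfold PP
        rw [Polynomial.eval_prod, two_mul h, Finset.prod_range_add]
        congr 1
        · apply prod_congr rfl; intro i _
          simp
        · apply prod_congr rfl; intro i _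
          simp
      rw [h5]
      push_cast at h2 h4' ⊢
      refine Int.ModEq.mul ?_ h4'.symm
      refine h2.trans ?_
      rw [one_mul]
      rw [hX]
      push_cast
      rfl
    refine h1.trans ?_
    have h2 := eval_modEq (PP (2 * h)) (X : ℤ) (4 * h)
    push_cast
    refine (Int.ModEq.add_right _ h2).trans ?_
    have h3 : ∑ i ∈ range (4 * h), (PP (2 * h)).coeff i * (X : ℤ) ^ i +
        2 ^ (w - 1) * ∑ i ∈ range (4 * h), (X : ℤ) ^ i =
        ∑ m ∈ range (4 * h), (((aa m + 2 ^ (w - 1)).toNat : ℕ) : ℤ) * (X : ℤ) ^ m := by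
      rw [Finset.mul_sum, ← Finset.sum_add_distrib]
      apply Finset.sum_congr rfl
      intro i hi
      rw [mem_range] at hi
      rw [hd i hi, aa_eq (n := i) (M := 2 * h) (by omega)]
      ring
    rw [h3]
  have h6 := (Int.natCast_modEq_iff).1 hmod
  exact Nat.ModEq.eq_of_lt_of_lt h6 hlt1 hlt2

end Pool.Agent.Lib.MP781
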