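import Mathlib
import Pool.Agent.Lib.MP_781ce4_nt.KernelDefs

namespace Pool.Agent.Lib.MP781

open Finset

/-! ### A priori bounds for the digits -/

theorem aa_bound {m : ℕ} (hm : m < 4096) : |aa m| < 2 ^ (160 - 1) := by
  have ht : (0 : ℝ) < 1 / 76 := by norm_num
  have h1 := coeff_bound_limit ht (le_refl _) m (aa m) m (fun M hM => aa_eq (by omega))
  have hm' : (m : ℝ) ≤ 4096 := by exact_mod_cast hm.le
  have h2 : Real.exp (0.708 / (1 / 76) + m * (1 / 76)) ≤ Real.exp 108 := by
    rw [Real.exp_le_exp]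
    have : (m : ℝ) * (1 / 76) ≤ 4096 * (1 / 76) := by gcongr
    norm_num at this ⊢
    linarith
  have h3 : Real.exp 108 ≤ (2.7182818286 : ℝ) ^ 108 := by
    have e : Real.exp 108 = Real.exp 1 ^ 108 := by
      rw [← Real.exp_nat_mul]; norm_num
    rw [e]
    gcongr
    exact Real.exp_one_lt_d9.le
  have h4 : (2.7182818286 : ℝ) ^ 108 < 2 ^ 159 := by norm_num
  have h5 : |((aa m : ℤ) : ℝ)| < 2 ^ 159 := (h1.trans (h2.trans h3)).trans_lt h4
  have h6 : ((|aa m| : ℤ) : ℝ) < ((2 ^ 159 : ℤ) : ℝ) := by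
    rw [Int.cast_abs, Int.cast_pow, Int.cast_ofNat]
    exact h5
  exact_mod_cast h6

/-- natural-number version of `QQ` -/
noncomputable def QN (K : ℕ) : Polynomial ℕ := ∏ i ∈ range K, (1 + Polynomial.X ^ (i + 1))

theorem QN_map (K : ℕ) : (QN K).map (Nat.castRingHom ℤ) = QQ K := by
  unfold QN QQ
  rw [Polynomial.map_prod]
  apply prod_congr rfl
  intro i _
  simp

theorem QN_coeff {n K : ℕ} (h : n ≤ K) : (Nat.Partition.distincts n).card = (QN K).coeff n := by
  have h1 := card_distincts_eq_coeff h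
  rw [← QN_map, Polynomial.coeff_map] at h1
  simp only [Nat.coe_castRingHom] at h1
  exact_mod_cast h1

theorem QN_coeff_le (K n : ℕ) {r : ℝ} (hr : 0 ≤ r) :
    ((QN K).coeff n : ℝ) * r ^ n ≤ ∏ i ∈ range K, (1 + r ^ (i + 1)) := by
  have h1 : ((QN K).map (Nat.castRingHom ℝ)).eval r = ∏ i ∈ range K, (1 + r ^ (i + 1)) := by
    unfold QN
    rw [Polynomial.map_prod, Polynomial.eval_prod]
    apply prod_congr rfl
    intro i _
    simp
  rw [← h1, Polynomial.eval_eq_sum_range' (n := n + ((QN K).map (Nat.castRingHom ℝ)).natDegree + 1)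
    (by omega)]
  have h2 : ((QN K).coeff n : ℝ) * r ^ n = ((QN K).map (Nat.castRingHom ℝ)).coeff n * r ^ n := by
    rw [Polynomial.coeff_map]; simp
  rw [h2]
  apply Finset.single_le_sum (f := fun i => ((QN K).map (Nat.castRingHom ℝ)).coeff i * r ^ i)
  · intro i _
    rw [Polynomial.coeff_map]
    simp only [Nat.coe_castRingHom]
    positivity
  · rw [mem_range]; omega

theorem distincts_bound {m : ℕ} (hm : m < 4096) :
    (Nat.Partition.distincts m).card < 2 ^ 192 := by
  set r : ℝ := 63 / 64 with hr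
  have h1 := QN_coeff_le m m (r := r) (by norm_num [hr])
  rw [← QN_coeff (le_refl m)] at h1
  have h2 : ∏ i ∈ range m, (1 + r ^ (i + 1)) ≤ Real.exp 63 := by
    calc ∏ i ∈ range m, (1 + r ^ (i + 1)) ≤ ∏ i ∈ range m, Real.exp (r ^ (i + 1)) := by
          apply Finset.prod_le_prod
          · intro i _; positivity
          · intro i _
            rw [add_comm]
            exact Real.add_one_le_exp _
      _ = Real.exp (∑ i ∈ range m, r ^ (i + 1)) := by rw [Real.exp_sum]
      _ ≤ Real.exp 63 := by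
          rw [Real.exp_le_exp]
          have h3 : HasSum (fun i : ℕ => r * r ^ i) (r * (1 - r)⁻¹) :=
            (hasSum_geometric_of_lt_one (by norm_num [hr]) (by norm_num [hr])).mul_left _
          have h4 : ∑ i ∈ range m, r ^ (i + 1) = ∑ i ∈ range m, r * r ^ i := by
            apply Finset.sum_congr rfl; intro i _; ring
          rw [h4]
          refine (sum_le_hasSum _ (fun i _ => by positivity) h3).trans ?_
          norm_num [hr]
  have h5 : Real.exp (-(65 : ℝ)) ≤ r ^ m := by
    have h6 : Real.exp (-(1 / 63 : ℝ)) ≤ r := by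
      have h7 := Real.add_one_le_exp (1 / 63 : ℝ)
      rw [Real.exp_neg]
      rw [inv_le_comm₀ (Real.exp_pos _) (by norm_num [hr])]
      refine le_trans ?_ h7
      norm_num [hr]
    have h8 : Real.exp (-(1 / 63 : ℝ)) ^ m ≤ r ^ m := by gcongr
    refine le_trans ?_ h8
    rw [← Real.exp_nat_mul, Real.exp_le_exp]
    have : (m : ℝ) ≤ 4095 := by exact_mod_cast Nat.le_of_lt_succ hm
    linarith
  have h9 : ((Nat.Partition.distincts m).card : ℝ) ≤ Real.exp 128 := by
    have h10 : ((Nat.Partition.distincts m).card : ℝ) * Real.exp (-(65 : ℝ)) ≤ Real.exp 63 := by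
      calc ((Nat.Partition.distincts m).card : ℝ) * Real.exp (-(65 : ℝ))
          ≤ ((Nat.Partition.distincts m).card : ℝ) * r ^ m := by gcongr
        _ ≤ Real.exp 63 := h1.trans h2
    have e : Real.exp 128 = Real.exp 63 * Real.exp 65 := by rw [← Real.exp_add]; norm_num
    rw [e]
    have e2 : Real.exp (-(65 : ℝ)) * Real.exp 65 = 1 := by rw [← Real.exp_add]; simp
    calc ((Nat.Partition.distincts m).card : ℝ)
        = ((Nat.Partition.distincts m).card : ℝ) * Real.exp (-(65 : ℝ)) * Real.exp 65 := by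
          rw [mul_assoc, e2, mul_one]
      _ ≤ Real.exp 63 * Real.exp 65 := by gcongr
  have h3 : Real.exp 128 ≤ (2.7182818286 : ℝ) ^ 128 := by
    have e : Real.exp 128 = Real.exp 1 ^ 128 := by
      rw [← Real.exp_nat_mul]; norm_num
    rw [e]
    gcongr
    exact Real.exp_one_lt_d9.le
  have h4 : (2.7182818286 : ℝ) ^ 128 < 2 ^ 192 := by norm_num
  have h11 : ((Nat.Partition.distincts m).card : ℝ) < ((2 ^ 192 : ℕ) : ℝ) := by
    rw [Nat.cast_pow, Nat.cast_ofNat]
    exact (h9.trans h3).trans_lt h4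
  exact_mod_cast h11

end Pool.Agent.Lib.MP781
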