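import Mathlib

namespace Pool.Agent.Lib.MP781

open Finset Multiset

/-- adding `m` copies of the part `j` -/
def addCopies (n m j : ℕ) (hj : 0 < j) (h : j * m ≤ n) (p : Nat.Partition (n - j * m)) :
    Nat.Partition n where
  parts := p.parts + Multiset.replicate m j
  parts_pos := by
    intro i hi
    rw [Multiset.mem_add] at hi
    rcases hi with hi | hi
    · exact p.parts_pos hi
    · rw [Multiset.eq_of_mem_replicate hi]; exact hj
  parts_sum := by
    rw [Multiset.sum_add, p.parts_sum, Multiset.sum_replicate, smul_eq_mul, mul_comm m j]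
    omega

theorem addCopies_injective {n m j : ℕ} (hj : 0 < j) (h : j * m ≤ n) :
    Function.Injective (addCopies n m j hj h) := by
  intro p q hpq
  have h1 : p.parts + Multiset.replicate m j = q.parts + Multiset.replicate m j :=
    congrArg Nat.Partition.parts hpq
  exact Nat.Partition.ext (add_right_cancel h1)

theorem card_odds_sub_le (n m j : ℕ) (hj : Odd j) (h : j * m ≤ n) :
    (Nat.Partition.odds (n - j * m)).card ≤
      ((Nat.Partition.odds n).filter (fun p => m ≤ p.parts.count j)).card := by
  apply Finset.card_le_card_of_injOn (addCopies n m j hj.pos h)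
  · intro p hp
    have hp' : p ∈ Nat.Partition.odds (n - j * m) := hp
    unfold Nat.Partition.odds Nat.Partition.restricted at hp'
    simp only [Finset.mem_filter, Finset.mem_univ, true_and] at hp'
    show addCopies n m j hj.pos h p ∈ (Finset.filter _ _ : Finset _)
    unfold Nat.Partition.odds Nat.Partition.restricted
    simp only [Finset.mem_filter, Finset.mem_univ, true_and]
    constructor
    · intro i hi
      unfold addCopies at hi
      simp only [Multiset.mem_add] at hi
      rcases hi with hi | hi
      · exact hp' i hi
      · rw [Multiset.eq_of_mem_replicate hi]; exact Nat.not_even_iff_odd.2 hj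
    · unfold addCopies
      simp only [Multiset.count_add, Multiset.count_replicate_self]
      omega
  · exact (addCopies_injective hj.pos h).injOn

theorem sum_indicator_le (c M : ℕ) : ∑ m ∈ Finset.Icc 1 M, (if m ≤ c then 1 else 0) ≤ c := by
  rw [← Finset.card_filter]
  calc ((Finset.Icc 1 M).filter (fun m => m ≤ c)).card ≤ (Finset.Icc 1 c).card := by
        apply Finset.card_le_card
        intro m hm
        simp only [Finset.mem_filter, Finset.mem_Icc] at hm ⊢
        omega
    _ = c := by simp

theorem sum_count_odd_le {n : ℕ} (p : Nat.Partition n) (K : ℕ) :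
    ∑ i ∈ Finset.range K, (2 * i + 1) * p.parts.count (2 * i + 1) ≤ n := by
  have h1 : ∑ j ∈ p.parts.toFinset, p.parts.count j * j = n := by
    have := Finset.sum_multiset_count p.parts
    rw [p.parts_sum] at this
    simpa using this.symm
  have h2 : ∑ i ∈ Finset.range K, (2 * i + 1) * p.parts.count (2 * i + 1) =
      ∑ j ∈ (Finset.range K).image (fun i => 2 * i + 1), p.parts.count j * j := by
    rw [Finset.sum_image]
    · exact Finset.sum_congr rfl (fun i _ => by ring)
    · intro a _ b _ hab
      simp only at hab
      omega
  rw [h2]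
  calc ∑ j ∈ (Finset.range K).image (fun i => 2 * i + 1), p.parts.count j * j
      ≤ ∑ j ∈ p.parts.toFinset, p.parts.count j * j := by
        apply Finset.sum_le_sum_of_ne_zero
        intro j _ hj
        rw [Multiset.mem_toFinset]
        by_contra hc
        apply hj
        rw [Multiset.count_eq_zero_of_notMem hc, zero_mul]
    _ = n := h1

theorem odds_rec (n K M : ℕ) :
    ∑ m ∈ Finset.Icc 1 M, ∑ i ∈ Finset.range K,
      (if (2 * i + 1) * m ≤ n then
        (2 * i + 1) * (Nat.Partition.odds (n - (2 * i + 1) * m)).card else 0) ≤
      n * (Nat.Partition.odds n).card := by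
  calc ∑ m ∈ Finset.Icc 1 M, ∑ i ∈ Finset.range K,
      (if (2 * i + 1) * m ≤ n then
        (2 * i + 1) * (Nat.Partition.odds (n - (2 * i + 1) * m)).card else 0)
      ≤ ∑ m ∈ Finset.Icc 1 M, ∑ i ∈ Finset.range K,
        ∑ p ∈ Nat.Partition.odds n,
          (2 * i + 1) * (if m ≤ p.parts.count (2 * i + 1) then 1 else 0) := by
        apply Finset.sum_le_sum; intro m _
        apply Finset.sum_le_sum; intro i _
        rw [← Finset.mul_sum, ← Finset.card_filter]
        split_ifs with h
        · exact Nat.mul_le_mul_left _ (card_odds_sub_le n m (2 * i + 1) ⟨i, rfl⟩ h)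
        · exact Nat.zero_le _
    _ = ∑ p ∈ Nat.Partition.odds n, ∑ i ∈ Finset.range K, (2 * i + 1) *
          ∑ m ∈ Finset.Icc 1 M, (if m ≤ p.parts.count (2 * i + 1) then 1 else 0) := by
        rw [Finset.sum_congr rfl (fun m _ => Finset.sum_comm), Finset.sum_comm]
        apply Finset.sum_congr rfl; intro p _
        rw [Finset.sum_comm]
        apply Finset.sum_congr rfl; intro i _
        rw [Finset.mul_sum]
    _ ≤ ∑ p ∈ Nat.Partition.odds n, ∑ i ∈ Finset.range K,
          (2 * i + 1) * p.parts.count (2 * i + 1) := by
        apply Finset.sum_le_sum; intro p _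
        apply Finset.sum_le_sum; intro i _
        exact Nat.mul_le_mul_left _ (sum_indicator_le _ _)
    _ ≤ ∑ p ∈ Nat.Partition.odds n, n := by
        apply Finset.sum_le_sum; intro p _
        exact sum_count_odd_le p K
    _ = n * (Nat.Partition.odds n).card := by
        rw [Finset.sum_const, smul_eq_mul, mul_comm]

end Pool.Agent.Lib.MP781
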