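import Mathlib

namespace Pool.Agent.Lib.MP781

open Real Finset

theorem hasSum_odd1 {y : ℝ} (h0 : 0 ≤ y) (h1 : y < 1) :
    HasSum (fun i : ℕ => (2 * (i : ℝ) + 1) * y ^ i) ((1 + y) / (1 - y) ^ 2) := by
  have hn : ‖y‖ < 1 := by rwa [Real.norm_of_nonneg h0]
  have hA := hasSum_choose_mul_geometric_of_norm_lt_one 1 hn
  have hB := hasSum_geometric_of_lt_one h0 h1
  have e : (fun i : ℕ => (2 * (i : ℝ) + 1) * y ^ i) =
      fun i : ℕ => 2 * (((i + 1).choose 1 : ℕ) * y ^ i) - y ^ i := by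
    funext i
    rw [Nat.choose_one_right]
    push_cast
    ring
  rw [e]
  have hC := (hA.mul_left 2).sub hB
  have hy : (1 - y) ≠ 0 := by linarith
  have e2 : (1 + y) / (1 - y) ^ 2 = 2 * (1 / (1 - y) ^ (1 + 1)) - (1 - y)⁻¹ := by
    field_simp
    ring
  rw [e2]
  exact hC

theorem choose_two_cast (i : ℕ) : (((i + 2).choose 2 : ℕ) : ℝ) = ((i : ℝ) + 2) * (i + 1) / 2 := by
  rw [Nat.cast_choose_two]
  push_cast
  ring

theorem choose_three_cast (i : ℕ) :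
    (((i + 3).choose 3 : ℕ) : ℝ) = ((i : ℝ) + 3) * (i + 2) * (i + 1) / 6 := by
  have h := Nat.add_one_mul_choose_eq (i + 2) 2
  have h2 : ((i : ℝ) + 3) * (((i + 2).choose 2 : ℕ) : ℝ) = (((i + 3).choose 3 : ℕ) : ℝ) * 3 := by
    exact_mod_cast h
  rw [choose_two_cast] at h2
  linarith

theorem hasSum_odd3 {y : ℝ} (h0 : 0 ≤ y) (h1 : y < 1) :
    HasSum (fun i : ℕ => (2 * (i : ℝ) + 1) ^ 3 * y ^ i)
      ((1 + 23 * y + 23 * y ^ 2 + y ^ 3) / (1 - y) ^ 4) := by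
  have hn : ‖y‖ < 1 := by rwa [Real.norm_of_nonneg h0]
  have hA := hasSum_choose_mul_geometric_of_norm_lt_one 1 hn
  have hA2 := hasSum_choose_mul_geometric_of_norm_lt_one 2 hn
  have hA3 := hasSum_choose_mul_geometric_of_norm_lt_one 3 hn
  have hB := hasSum_geometric_of_lt_one h0 h1
  have e : (fun i : ℕ => (2 * (i : ℝ) + 1) ^ 3 * y ^ i) =
      fun i : ℕ => 48 * (((i + 3).choose 3 : ℕ) * y ^ i) - 72 * (((i + 2).choose 2 : ℕ) * y ^ i)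
        + 26 * (((i + 1).choose 1 : ℕ) * y ^ i) - y ^ i := by
    funext i
    rw [Nat.choose_one_right, choose_two_cast, choose_three_cast]
    push_cast
    ring
  rw [e]
  have hC := (((hA3.mul_left 48).sub (hA2.mul_left 72)).add (hA.mul_left 26)).sub hB
  have hy : (1 - y) ≠ 0 := by linarith
  have e2 : (1 + 23 * y + 23 * y ^ 2 + y ^ 3) / (1 - y) ^ 4 =
      48 * (1 / (1 - y) ^ (3 + 1)) - 72 * (1 / (1 - y) ^ (2 + 1)) + 26 * (1 / (1 - y) ^ (1 + 1))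
        - (1 - y)⁻¹ := by
    field_simp
    ring
  rw [e2]
  exact hC

/-- `∑_{j odd} j e^{-aj}` -/
noncomputable def S1 (a : ℝ) : ℝ := Real.cosh a / (2 * Real.sinh a ^ 2)

/-- `∑_{j odd} j^3 e^{-aj}` -/
noncomputable def S3 (a : ℝ) : ℝ :=
  Real.cosh a * (Real.cosh a ^ 2 + 5) / (2 * Real.sinh a ^ 4)

theorem hasSum_S1 {a : ℝ} (ha : 0 < a) :
    HasSum (fun i : ℕ => (2 * (i : ℝ) + 1) * Real.exp (-(a * (2 * i + 1)))) (S1 a) := by
  set x := Real.exp (-a) with hx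
  have hx0 : 0 < x := Real.exp_pos _
  have hx1 : x < 1 := by rw [hx, Real.exp_lt_one_iff]; linarith
  have h := (hasSum_odd1 (y := x ^ 2) (by positivity) (by nlinarith)).mul_left x
  have e : (fun i : ℕ => (2 * (i : ℝ) + 1) * Real.exp (-(a * (2 * i + 1)))) =
      fun i : ℕ => x * ((2 * (i : ℝ) + 1) * (x ^ 2) ^ i) := by
    funext i
    have : Real.exp (-(a * (2 * i + 1))) = x * (x ^ 2) ^ i := by
      rw [hx, ← pow_mul, ← Real.exp_nat_mul, ← Real.exp_add]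
      congr 1
      push_cast
      ring
    rw [this]
    ring
  rw [e]
  have hinv : Real.exp a = x⁻¹ := by rw [hx, ← Real.exp_neg]; simp
  have e2 : S1 a = x * ((1 + x ^ 2) / (1 - x ^ 2) ^ 2) := by
    unfold S1
    rw [Real.cosh_eq, Real.sinh_eq, hinv, ← hx]
    have h3 : (1 - x ^ 2) ≠ 0 := by nlinarith
    have h4 : x⁻¹ - x = (1 - x ^ 2) / x := by field_simp
    have h5 : x⁻¹ + x = (1 + x ^ 2) / x := by field_simp
    rw [h4, h5]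
    field_simp
    try ring
  rw [e2]
  exact h

theorem hasSum_S3 {a : ℝ} (ha : 0 < a) :
    HasSum (fun i : ℕ => (2 * (i : ℝ) + 1) ^ 3 * Real.exp (-(a * (2 * i + 1)))) (S3 a) := by
  set x := Real.exp (-a) with hx
  have hx0 : 0 < x := Real.exp_pos _
  have hx1 : x < 1 := by rw [hx, Real.exp_lt_one_iff]; linarith
  have h := (hasSum_odd3 (y := x ^ 2) (by positivity) (by nlinarith)).mul_left x
  have e : (fun i : ℕ => (2 * (i : ℝ) + 1) ^ 3 * Real.exp (-(a * (2 * i + 1)))) =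
      fun i : ℕ => x * ((2 * (i : ℝ) + 1) ^ 3 * (x ^ 2) ^ i) := by
    funext i
    have : Real.exp (-(a * (2 * i + 1))) = x * (x ^ 2) ^ i := by
      rw [hx, ← pow_mul, ← Real.exp_nat_mul, ← Real.exp_add]
      congr 1
      push_cast
      ring
    rw [this]
    ring
  rw [e]
  have hinv : Real.exp a = x⁻¹ := by rw [hx, ← Real.exp_neg]; simp
  have e2 : S3 a = x * ((1 + 23 * x ^ 2 + 23 * (x ^ 2) ^ 2 + (x ^ 2) ^ 3) / (1 - x ^ 2) ^ 4) := by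
    unfold S3
    rw [Real.cosh_eq, Real.sinh_eq, hinv, ← hx]
    have h3 : (1 - x ^ 2) ≠ 0 := by nlinarith
    have h4 : x⁻¹ - x = (1 - x ^ 2) / x := by field_simp
    have h5 : x⁻¹ + x = (1 + x ^ 2) / x := by field_simp
    rw [h4, h5]
    field_simp
    ring
  rw [e2]
  exact h

theorem exp_taylor_bounds {a : ℝ} (h0 : 0 ≤ a) (h1 : a ≤ 0.7) :
    |Real.exp a - (1 + a + a ^ 2 / 2 + a ^ 3 / 6 + a ^ 4 / 24 + a ^ 5 / 120)| ≤ a ^ 6 / 600 ∧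
    |Real.exp (-a) - (1 - a + a ^ 2 / 2 - a ^ 3 / 6 + a ^ 4 / 24 - a ^ 5 / 120)| ≤ a ^ 6 / 600 := by
  have h2 : |a| ≤ 1 := by rw [abs_of_nonneg h0]; linarith
  have h3 : |(-a)| ≤ 1 := by rwa [abs_neg]
  have hA := Real.exp_bound h2 (n := 6) (by norm_num)
  have hB := Real.exp_bound h3 (n := 6) (by norm_num)
  have hp : 0 ≤ a ^ 6 := by positivity
  constructor
  · have e1 : ∑ m ∈ range 6, a ^ m / (m.factorial : ℝ) =
      1 + a + a ^ 2 / 2 + a ^ 3 / 6 + a ^ 4 / 24 + a ^ 5 / 120 := by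
      simp only [Finset.sum_range_succ, Finset.sum_range_zero, Nat.factorial]
      push_cast
      ring
    rw [e1] at hA
    refine hA.trans ?_
    rw [abs_of_nonneg h0]
    have : ((Nat.succ 6 : ℕ) : ℝ) / ((Nat.factorial 6 : ℝ) * (6 : ℕ)) ≤ 1 / 600 := by
      norm_num [Nat.factorial]
    calc a ^ 6 * (((Nat.succ 6 : ℕ) : ℝ) / ((Nat.factorial 6 : ℝ) * (6 : ℕ)))
        ≤ a ^ 6 * (1 / 600) := by gcongr
      _ = a ^ 6 / 600 := by ring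
  · have e1 : ∑ m ∈ range 6, (-a) ^ m / (m.factorial : ℝ) =
      1 - a + a ^ 2 / 2 - a ^ 3 / 6 + a ^ 4 / 24 - a ^ 5 / 120 := by
      simp only [Finset.sum_range_succ, Finset.sum_range_zero, Nat.factorial]
      push_cast
      ring
    rw [e1] at hB
    refine hB.trans ?_
    rw [abs_neg, abs_of_nonneg h0]
    have : ((Nat.succ 6 : ℕ) : ℝ) / ((Nat.factorial 6 : ℝ) * (6 : ℕ)) ≤ 1 / 600 := by
      norm_num [Nat.factorial]
    calc a ^ 6 * (((Nat.succ 6 : ℕ) : ℝ) / ((Nat.factorial 6 : ℝ) * (6 : ℕ)))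
        ≤ a ^ 6 * (1 / 600) := by gcongr
      _ = a ^ 6 / 600 := by ring

theorem hyp_bounds {a : ℝ} (h0 : 0 < a) (h1 : a ≤ 0.7) :
    a * (1 + a ^ 2 / 6) ≤ Real.sinh a ∧ Real.sinh a ≤ a * (1 + a ^ 2 / 6 + a ^ 4 * 0.01) ∧
    1 + a ^ 2 / 2 ≤ Real.cosh a ∧ Real.cosh a ≤ 1 + a ^ 2 / 2 + a ^ 4 * 0.05 := by
  obtain ⟨hA, hB⟩ := exp_taylor_bounds h0.le h1
  rw [abs_le] at hA hB
  have p5 : 0 ≤ a ^ 5 := by positivity
  have p4 : 0 ≤ a ^ 4 := by positivity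
  have p6 : a ^ 6 ≤ 0.7 * a ^ 5 := by nlinarith
  have p64 : a ^ 6 ≤ 0.49 * a ^ 4 := by nlinarith
  rw [Real.cosh_eq, Real.sinh_eq]
  obtain ⟨hA1, hA2⟩ := hA
  obtain ⟨hB1, hB2⟩ := hB
  refine ⟨?_, ?_, ?_, ?_⟩ <;> nlinarith

theorem S1_ge {a : ℝ} (h0 : 0 < a) (h1 : a ≤ 0.7) : 1 / (2 * a ^ 2) ≤ S1 a := by
  obtain ⟨s1, s2, c1, c2⟩ := hyp_bounds h0 h1
  have hs : 0 < Real.sinh a := lt_of_lt_of_le (by positivity) s1
  unfold S1
  rw [div_le_div_iff₀ (by positivity) (by positivity)]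
  have hu : a ^ 2 ≤ 0.49 := by nlinarith
  have h2 : Real.sinh a ^ 2 ≤ (a * (1 + a ^ 2 / 6 + a ^ 4 * 0.01)) ^ 2 := by gcongr
  have h3 : (1 + a ^ 2 / 6 + a ^ 4 * 0.01) ^ 2 ≤ 1 + a ^ 2 / 2 := by
    have hu0 : 0 < a ^ 2 := by positivity
    have e : a ^ 4 = (a ^ 2) ^ 2 := by ring
    rw [e]
    set u := a ^ 2
    have h5 : u ^ 2 ≤ 0.49 * u := by nlinarith
    have h6 : 0 ≤ u ^ 2 := by positivity
    have h7 : (1 + u / 6 + u ^ 2 * 0.01) ≤ 1 + 0.172 * u := by nlinarith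
    calc (1 + u / 6 + u ^ 2 * 0.01) ^ 2 ≤ (1 + 0.172 * u) ^ 2 := by gcongr
      _ ≤ 1 + u / 2 := by nlinarith
  have h4 : Real.sinh a ^ 2 ≤ a ^ 2 * Real.cosh a := by
    calc Real.sinh a ^ 2 ≤ (a * (1 + a ^ 2 / 6 + a ^ 4 * 0.01)) ^ 2 := h2
      _ = a ^ 2 * (1 + a ^ 2 / 6 + a ^ 4 * 0.01) ^ 2 := by ring
      _ ≤ a ^ 2 * (1 + a ^ 2 / 2) := by gcongr
      _ ≤ a ^ 2 * Real.cosh a := by gcongr
  nlinarith

theorem S3_le {a : ℝ} (h0 : 0 < a) (h1 : a ≤ 0.7) : S3 a ≤ 3.3 / a ^ 4 := by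
  obtain ⟨s1, s2, c1, c2⟩ := hyp_bounds h0 h1
  have hs : 0 < Real.sinh a := lt_of_lt_of_le (by positivity) s1
  have hc : 0 < Real.cosh a := Real.cosh_pos a
  unfold S3
  rw [div_le_div_iff₀ (by positivity) (by positivity)]
  have hu : a ^ 2 ≤ 0.49 := by nlinarith
  have hu0 : 0 < a ^ 2 := by positivity
  have key : ∀ u c : ℝ, 0 < u → u ≤ 0.49 → 1 ≤ c → c ≤ 1 + u / 2 + u ^ 2 * 0.05 →
      c * (c ^ 2 + 5) ≤ 6.6 * (1 + u / 6) ^ 4 := by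
    intro u c h1 h2 h3 h4
    have h5 : u ^ 2 ≤ 0.49 * u := by nlinarith
    have h6 : c ≤ 1 + 0.5245 * u := by nlinarith
    have h7 : c * (c ^ 2 + 5) ≤ (1 + 0.5245 * u) * ((1 + 0.5245 * u) ^ 2 + 5) := by gcongr
    refine h7.trans ?_
    have h8 : (1 + 0.5245 * u) * ((1 + 0.5245 * u) ^ 2 + 5) ≤ 6 + 4.65 * u := by
      have : u ^ 3 ≤ 0.49 * u ^ 2 := by nlinarith [sq_nonneg u]
      nlinarith
    have h9 : 6.6 + 4.4 * u ≤ 6.6 * (1 + u / 6) ^ 4 := by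
      have : 1 + 4 * (u / 6) ≤ (1 + u / 6) ^ 4 := by
        have := one_add_mul_le_pow (a := u / 6) (by linarith) 4
        exact_mod_cast this
      nlinarith
    linarith
  have h2 := key (a ^ 2) (Real.cosh a) hu0 hu (Real.one_le_cosh a) (by
    refine c2.trans (le_of_eq ?_); ring)
  have h3 : (a * (1 + a ^ 2 / 6)) ^ 4 ≤ Real.sinh a ^ 4 := by gcongr
  have h4 : 0 < a ^ 4 := by positivity
  calc Real.cosh a * (Real.cosh a ^ 2 + 5) * a ^ 4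
      ≤ (6.6 * (1 + a ^ 2 / 6) ^ 4) * a ^ 4 := by gcongr
    _ = 6.6 * (a * (1 + a ^ 2 / 6)) ^ 4 := by ring
    _ ≤ 6.6 * Real.sinh a ^ 4 := by gcongr
    _ = 3.3 * (2 * Real.sinh a ^ 4) := by ring

end Pool.Agent.Lib.MP781
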