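import Mathlib
import Pool.Agent.Lib.MP_781ce4_nt.LowerRec
import Pool.Agent.Lib.MP_781ce4_nt.LowerSeries

namespace Pool.Agent.Lib.MP781

open Real Finset

theorem zeta50 : (1.625 : ℝ) ≤ ∑ m ∈ Finset.Icc (1 : ℕ) 50, 1 / (m : ℝ) ^ 2 := by
  have h : (1625 / 1000 : ℚ) ≤ ∑ m ∈ Finset.Icc (1 : ℕ) 50, 1 / (m : ℚ) ^ 2 := by
    decide +kernel
  have h2 : ((1625 / 1000 : ℚ) : ℝ) ≤
      ((∑ m ∈ Finset.Icc (1 : ℕ) 50, 1 / (m : ℚ) ^ 2 : ℚ) : ℝ) := by
    exact_mod_cast h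
  rw [Rat.cast_sum] at h2
  have e : (1.625 : ℝ) = ((1625 / 1000 : ℚ) : ℝ) := by norm_num
  rw [e]
  refine h2.trans (le_of_eq ?_)
  apply Finset.sum_congr rfl
  intro m _
  push_cast
  rfl

theorem sqrt_lower {r k : ℝ} (hr : 0 < r) (hk0 : 0 ≤ k) (hk : k ≤ r ^ 2 / 4) :
    r - k / (2 * r) - 0.144 * k ^ 2 / r ^ 3 ≤ Real.sqrt (r ^ 2 - k) := by
  apply Real.le_sqrt_of_sq_le
  set x := k / r ^ 2 with hx
  have hkx : k = x * r ^ 2 := by rw [hx]; field_simp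
  have hx0 : 0 ≤ x := by positivity
  have hx1 : x ≤ 1 / 4 := by
    rw [hx, div_le_iff₀ (by positivity)]; linarith
  have e : r - k / (2 * r) - 0.144 * k ^ 2 / r ^ 3 = r * (1 - x / 2 - 0.144 * x ^ 2) := by
    rw [hkx]; field_simp
  rw [e, mul_pow, hkx]
  have h : (1 - x / 2 - 0.144 * x ^ 2) ^ 2 ≤ 1 - x := by
    have h1 : 0 ≤ x ^ 2 := by positivity
    have h2 : (0.144 * x + 0.144 ^ 2 * x ^ 2) ≤ 0.038 := by nlinarith
    have e2 : (1 - x / 2 - 0.144 * x ^ 2) ^ 2 =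
      1 - x + x ^ 2 * ((0.144 * x + 0.144 ^ 2 * x ^ 2) - 0.038) := by ring
    rw [e2]
    nlinarith
  calc r ^ 2 * (1 - x / 2 - 0.144 * x ^ 2) ^ 2 ≤ r ^ 2 * (1 - x) := by gcongr
    _ = r ^ 2 - x * r ^ 2 := by ring

theorem exp_sqrt_lower {r k : ℝ} (hr : 64 ≤ r) (hk0 : 0 ≤ k) :
    Real.exp (1.77 * r) * (Real.exp (-(0.885 / r * k)) * (1 - 0.25488 / r ^ 3 * k ^ 2)) ≤
      Real.exp (1.77 * Real.sqrt (r ^ 2 - k)) := by
  have hr0 : 0 < r := by linarith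
  rcases le_or_gt k (r ^ 2 / 4) with h | h
  · have h1 := sqrt_lower hr0 hk0 h
    have h2 : 1.77 * r + (-(0.885 / r * k)) + (-(0.25488 / r ^ 3 * k ^ 2)) ≤
        1.77 * Real.sqrt (r ^ 2 - k) := by
      have : 1.77 * (r - k / (2 * r) - 0.144 * k ^ 2 / r ^ 3) =
        1.77 * r + (-(0.885 / r * k)) + (-(0.25488 / r ^ 3 * k ^ 2)) := by
        field_simp
        ring
      rw [← this]
      gcongr
    refine le_trans ?_ (Real.exp_le_exp.2 h2)
    rw [Real.exp_add, Real.exp_add, mul_assoc]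
    gcongr
    have := Real.add_one_le_exp (-(0.25488 / r ^ 3 * k ^ 2))
    linarith
  · have h1 : 1 - 0.25488 / r ^ 3 * k ^ 2 ≤ 0 := by
      have h3 : (r ^ 2 / 4) ^ 2 ≤ k ^ 2 := by gcongr
      have h4 : 1 ≤ 0.25488 / r ^ 3 * (r ^ 2 / 4) ^ 2 := by
        have : 0.25488 / r ^ 3 * (r ^ 2 / 4) ^ 2 = 0.01593 * r := by
          field_simp
          ring
        rw [this]; linarith
      have h5 : 0.25488 / r ^ 3 * (r ^ 2 / 4) ^ 2 ≤ 0.25488 / r ^ 3 * k ^ 2 := by gcongr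
      linarith
    have h2 : Real.exp (1.77 * r) * (Real.exp (-(0.885 / r * k)) *
        (1 - 0.25488 / r ^ 3 * k ^ 2)) ≤ 0 := by
      apply mul_nonpos_of_nonneg_of_nonpos (Real.exp_pos _).le
      exact mul_nonpos_of_nonneg_of_nonpos (Real.exp_pos _).le h1
    exact h2.trans (Real.exp_pos _).le

/-- the summand -/
noncomputable def Fm (r : ℝ) (m i : ℕ) : ℝ :=
  (2 * (i : ℝ) + 1) * (Real.exp (-(0.885 / r * ((2 * (i : ℝ) + 1) * m))) *
    (1 - 0.25488 / r ^ 3 * ((2 * (i : ℝ) + 1) * m) ^ 2))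

theorem Fm_hasSum {r : ℝ} (hr : 64 ≤ r) {m : ℕ} (hm : 1 ≤ m) :
    HasSum (fun i => Fm r m i)
      (S1 (0.885 / r * m) - 0.25488 / r ^ 3 * m ^ 2 * S3 (0.885 / r * m)) := by
  have hr0 : 0 < r := by linarith
  have hm0 : (0 : ℝ) < m := by exact_mod_cast hm
  have ha : 0 < 0.885 / r * m := by positivity
  have h := (hasSum_S1 ha).sub ((hasSum_S3 ha).mul_left (0.25488 / r ^ 3 * m ^ 2))
  have e : (fun i : ℕ => Fm r m i) = fun i : ℕ =>
      (2 * (i : ℝ) + 1) * Real.exp (-(0.885 / r * m * (2 * i + 1))) -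
      0.25488 / r ^ 3 * m ^ 2 *
        ((2 * (i : ℝ) + 1) ^ 3 * Real.exp (-(0.885 / r * m * (2 * i + 1)))) := by
    funext i
    unfold Fm
    have e1 : -(0.885 / r * ((2 * (i : ℝ) + 1) * m)) = -(0.885 / r * m * (2 * i + 1)) := by ring
    rw [e1]
    ring
  rw [e]
  exact h

theorem Fm_sum_ge {r : ℝ} (hr : 64 ≤ r) {m : ℕ} (hm : 1 ≤ m) (hm2 : m ≤ 50) (K : ℕ)
    (hK : r ^ 2 ≤ K) :
    1 / (m : ℝ) ^ 2 * (0.6383 * r ^ 2 - 1.37113 * r) ≤ ∑ i ∈ Finset.range K, Fm r m i := by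
  have hr0 : 0 < r := by linarith
  have hm0 : (1 : ℝ) ≤ m := by exact_mod_cast hm
  have hm50 : (m : ℝ) ≤ 50 := by exact_mod_cast hm2
  have hneg : ∀ i ∉ Finset.range K, 0 ≤ -Fm r m i := by
    intro i hi
    rw [Finset.mem_range, not_lt] at hi
    have hi2 : (K : ℝ) ≤ i := by exact_mod_cast hi
    unfold Fm
    have h1 : 1 - 0.25488 / r ^ 3 * ((2 * (i : ℝ) + 1) * m) ^ 2 ≤ 0 := by
      have h3 : (r ^ 2) ^ 2 ≤ ((2 * (i : ℝ) + 1) * m) ^ 2 := by
        gcongr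
        nlinarith
      have h4 : 1 ≤ 0.25488 / r ^ 3 * (r ^ 2) ^ 2 := by
        have : 0.25488 / r ^ 3 * (r ^ 2) ^ 2 = 0.25488 * r := by
          field_simp
        rw [this]; linarith
      have h5 : 0.25488 / r ^ 3 * (r ^ 2) ^ 2 ≤
        0.25488 / r ^ 3 * ((2 * (i : ℝ) + 1) * m) ^ 2 := by gcongr
      linarith
    have h2 : Real.exp (-(0.885 / r * ((2 * (i : ℝ) + 1) * m))) *
        (1 - 0.25488 / r ^ 3 * ((2 * (i : ℝ) + 1) * m) ^ 2) ≤ 0 :=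
      mul_nonpos_of_nonneg_of_nonpos (Real.exp_pos _).le h1
    have h6 : (0 : ℝ) ≤ 2 * (i : ℝ) + 1 := by positivity
    nlinarith
  have h := sum_le_hasSum (Finset.range K) hneg (Fm_hasSum hr hm).neg
  rw [Finset.sum_neg_distrib] at h
  have h2 : S1 (0.885 / r * m) - 0.25488 / r ^ 3 * m ^ 2 * S3 (0.885 / r * m) ≤
    ∑ i ∈ Finset.range K, Fm r m i := by linarith
  refine le_trans ?_ h2
  have ha : 0 < 0.885 / r * m := by positivity
  have ha1 : 0.885 / r * m ≤ 0.7 := by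
    rw [div_mul_eq_mul_div, div_le_iff₀ hr0]; nlinarith
  have hS1 := S1_ge ha ha1
  have hS3 := S3_le ha ha1
  have h3 : 0.25488 / r ^ 3 * m ^ 2 * S3 (0.885 / r * m) ≤
    0.25488 / r ^ 3 * m ^ 2 * (3.3 / (0.885 / r * m) ^ 4) := by gcongr
  have e1 : 1 / (2 * (0.885 / r * (m : ℝ)) ^ 2) = 1 / (m : ℝ) ^ 2 * (r ^ 2 / (2 * 0.885 ^ 2)) := by
    field_simp
  have e2 : 0.25488 / r ^ 3 * (m : ℝ) ^ 2 * (3.3 / (0.885 / r * m) ^ 4) =
    1 / (m : ℝ) ^ 2 * (r * (0.25488 * 3.3 / 0.885 ^ 4)) := by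
    field_simp
  rw [e1] at hS1
  rw [e2] at h3
  have h4 : 1 / (m : ℝ) ^ 2 * (0.6383 * r ^ 2 - 1.37113 * r) ≤
    1 / (m : ℝ) ^ 2 * (r ^ 2 / (2 * 0.885 ^ 2)) -
      1 / (m : ℝ) ^ 2 * (r * (0.25488 * 3.3 / 0.885 ^ 4)) := by
    rw [← mul_sub]
    gcongr ?_ * ?_
    have : 0.6383 * r ^ 2 ≤ r ^ 2 / (2 * 0.885 ^ 2) := by
      rw [le_div_iff₀ (by norm_num)]; nlinarith [sq_nonneg r]
    have : r * (0.25488 * 3.3 / 0.885 ^ 4) ≤ 1.37113 * r := by
      rw [mul_comm]; gcongr; norm_num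
    linarith
  linarith

theorem q_lower_step {n : ℕ} (hn : 4096 ≤ n)
    (ih : ∀ m : ℕ, m < n →
      1 / 250 * Real.exp (1.77 * Real.sqrt m) ≤ (Nat.Partition.odds m).card) :
    1 / 250 * Real.exp (1.77 * Real.sqrt n) ≤ (Nat.Partition.odds n).card := by
  set r := Real.sqrt n with hr
  have hrn : r ^ 2 = n := Real.sq_sqrt (Nat.cast_nonneg n)
  have hr64 : 64 ≤ r := by
    rw [hr]
    apply Real.le_sqrt_of_sq_le
    have : (4096 : ℝ) ≤ n := by exact_mod_cast hn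
    linarith
  have hr0 : 0 < r := by linarith
  have hrec := odds_rec n n 50
  have hrecR : ∑ m ∈ Finset.Icc 1 50, ∑ i ∈ Finset.range n,
      (if (2 * i + 1) * m ≤ n then
        (2 * (i : ℝ) + 1) * ((Nat.Partition.odds (n - (2 * i + 1) * m)).card : ℝ) else 0) ≤
      n * ((Nat.Partition.odds n).card : ℝ) := by
    have h : ((∑ m ∈ Finset.Icc 1 50, ∑ i ∈ Finset.range n,
      (if (2 * i + 1) * m ≤ n then
        (2 * i + 1) * (Nat.Partition.odds (n - (2 * i + 1) * m)).card else 0) : ℕ) : ℝ) ≤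
        ((n * (Nat.Partition.odds n).card : ℕ) : ℝ) := by exact_mod_cast hrec
    push_cast at h
    exact h
  have hterm : ∀ m ∈ Finset.Icc 1 50, ∀ i ∈ Finset.range n,
      1 / 250 * Real.exp (1.77 * r) * Fm r m i ≤
      (if (2 * i + 1) * m ≤ n then
        (2 * (i : ℝ) + 1) * ((Nat.Partition.odds (n - (2 * i + 1) * m)).card : ℝ) else 0) := by
    intro m hm i hi
    rw [Finset.mem_Icc] at hm
    split_ifs with h
    · have h1 := exp_sqrt_lower hr64 (k := (((2 * i + 1) * m : ℕ) : ℝ)) (Nat.cast_nonneg _)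
      have h2 := ih (n - (2 * i + 1) * m) (by
        have : 0 < (2 * i + 1) * m := by
          apply Nat.mul_pos <;> omega
        omega)
      rw [Nat.cast_sub h] at h2
      rw [hrn] at h1
      push_cast at h1 h2
      unfold Fm
      calc 1 / 250 * Real.exp (1.77 * r) * ((2 * (i : ℝ) + 1) *
            (Real.exp (-(0.885 / r * ((2 * (i : ℝ) + 1) * m))) *
              (1 - 0.25488 / r ^ 3 * ((2 * (i : ℝ) + 1) * m) ^ 2)))
          = (2 * (i : ℝ) + 1) * (1 / 250 * (Real.exp (1.77 * r) *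
            (Real.exp (-(0.885 / r * ((2 * (i : ℝ) + 1) * m))) *
              (1 - 0.25488 / r ^ 3 * ((2 * (i : ℝ) + 1) * m) ^ 2)))) := by ring
        _ ≤ (2 * (i : ℝ) + 1) * (1 / 250 *
              Real.exp (1.77 * Real.sqrt (n - (2 * (i : ℝ) + 1) * m))) := by gcongr
        _ ≤ _ := by gcongr
    · have hk : r ^ 2 < (2 * (i : ℝ) + 1) * m := by
        rw [hrn]
        have : n < (2 * i + 1) * m := by omega
        exact_mod_cast this
      have h1 : 1 - 0.25488 / r ^ 3 * ((2 * (i : ℝ) + 1) * m) ^ 2 ≤ 0 := by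
        have h3 : (r ^ 2) ^ 2 ≤ ((2 * (i : ℝ) + 1) * m) ^ 2 := by gcongr
        have h4 : 1 ≤ 0.25488 / r ^ 3 * (r ^ 2) ^ 2 := by
          have : 0.25488 / r ^ 3 * (r ^ 2) ^ 2 = 0.25488 * r := by
            field_simp
          rw [this]; linarith
        have h5 : 0.25488 / r ^ 3 * (r ^ 2) ^ 2 ≤
          0.25488 / r ^ 3 * ((2 * (i : ℝ) + 1) * m) ^ 2 := by gcongr
        linarith
      have h2 : Real.exp (-(0.885 / r * ((2 * (i : ℝ) + 1) * m))) *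
          (1 - 0.25488 / r ^ 3 * ((2 * (i : ℝ) + 1) * m) ^ 2) ≤ 0 :=
        mul_nonpos_of_nonneg_of_nonpos (Real.exp_pos _).le h1
      unfold Fm
      apply mul_nonpos_of_nonneg_of_nonpos (by positivity)
      exact mul_nonpos_of_nonneg_of_nonpos (by positivity) h2
  have hsum : 1 / 250 * Real.exp (1.77 * r) *
      ∑ m ∈ Finset.Icc 1 50, ∑ i ∈ Finset.range n, Fm r m i ≤
      n * ((Nat.Partition.odds n).card : ℝ) := by
    refine le_trans ?_ hrecR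
    rw [Finset.mul_sum]
    apply Finset.sum_le_sum
    intro m hm
    rw [Finset.mul_sum]
    apply Finset.sum_le_sum
    intro i hi
    exact hterm m hm i hi
  have hF : (n : ℝ) ≤ ∑ m ∈ Finset.Icc 1 50, ∑ i ∈ Finset.range n, Fm r m i := by
    have h1 : ∑ m ∈ Finset.Icc (1 : ℕ) 50, 1 / (m : ℝ) ^ 2 * (0.6383 * r ^ 2 - 1.37113 * r) ≤
        ∑ m ∈ Finset.Icc 1 50, ∑ i ∈ Finset.range n, Fm r m i := by
      apply Finset.sum_le_sum
      intro m hm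
      rw [Finset.mem_Icc] at hm
      exact Fm_sum_ge hr64 hm.1 hm.2 n hrn.le
    refine le_trans ?_ h1
    rw [← Finset.sum_mul]
    have h2 := zeta50
    have h3 : 0 ≤ 0.6383 * r ^ 2 - 1.37113 * r := by nlinarith
    calc (n : ℝ) = r ^ 2 := hrn.symm
      _ ≤ 1.625 * (0.6383 * r ^ 2 - 1.37113 * r) := by nlinarith
      _ ≤ _ := by gcongr
  have hfin : 1 / 250 * Real.exp (1.77 * r) * n ≤ n * ((Nat.Partition.odds n).card : ℝ) := by
    refine le_trans ?_ hsum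
    gcongr
  have hn0 : (0 : ℝ) < n := by
    have : 0 < n := by omega
    exact_mod_cast this
  rw [mul_comm] at hfin
  exact le_of_mul_le_mul_left hfin hn0

theorem q_lower
    (hbase : ∀ m : ℕ, m < 4096 →
      1 / 250 * Real.exp (1.77 * Real.sqrt m) ≤ (Nat.Partition.odds m).card)
    (n : ℕ) : 1 / 250 * Real.exp (1.77 * Real.sqrt n) ≤ (Nat.Partition.odds n).card := by
  induction n using Nat.strong_induction_on with
  | _ n ih =>
    rcases lt_or_ge n 4096 with h | h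
    · exact hbase n h
    · exact q_lower_step h ih

end Pool.Agent.Lib.MP781
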