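import Pool.Agent.Lib.MP_781ce4_nt.KernelChk

namespace Pool.Agent.Lib.MP781

theorem runA : chkA 160 (250 * 2 ^ 64) 4032 64 0 (2 ^ 64)
    (Nat.shiftRight (TA 160 1024) (160 * 64)) = true := by
  decide +kernel

theorem runS : chkS 160 192 53 (Nat.shiftRight (TA 160 16) (160 * 11))
    (Nat.shiftRight (TQ 192 16) (192 * 11)) = true := by
  decide +kernel

end Pool.Agent.Lib.MP781
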