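import Pool.Agent.Lib.MP_781ce4_nt.KernelChk

namespace Pool.Agent.Lib.MP781

theorem runQ : chkQ 192 (250 * 2 ^ 64) 4096 0 0 (2 ^ 64) (TQ 192 1024) = true := by
  decide +kernel

end Pool.Agent.Lib.MP781
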