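import Mathlib
import Pool.Agent.Lib.MP_781ce4_nt.DigitBounds
import Pool.Agent.Lib.MP_781ce4_nt.RunQ
import Pool.Agent.Lib.MP_781ce4_nt.RunA
import Pool.Agent.Lib.MP_781ce4_nt.LowerQ
import Pool.Agent.Lib.MP_781ce4_nt.Conj

namespace Pool.Agent.Lib.MP781

open Finset

theorem exp_step_up : Real.exp 0.04425 ≤ 17536279 / 2 ^ 24 := by
  have h := Real.exp_bound (x := 0.04425) (by norm_num [abs_of_nonneg]) (n := 6) (by norm_num)
  rw [abs_le] at h
  have e1 : ∑ m ∈ range 6, (0.04425 : ℝ) ^ m / (m.factorial : ℝ) =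
      1 + 0.04425 + 0.04425 ^ 2 / 2 + 0.04425 ^ 3 / 6 + 0.04425 ^ 4 / 24 + 0.04425 ^ 5 / 120 := by
    simp only [Finset.sum_range_succ, Finset.sum_range_zero, Nat.factorial]
    push_cast
    ring
  rw [e1] at h
  have e2 : |(0.04425 : ℝ)| = 0.04425 := by norm_num [abs_of_nonneg]
  rw [e2] at h
  have h2 := h.2
  norm_num [Nat.factorial] at h2 ⊢
  linarith

theorem exp_step_low : 20931846 / 2 ^ 24 ≤ Real.exp 0.22125 := by
  have h := Real.sum_le_exp_of_nonneg (x := 0.22125) (by norm_num) 8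
  refine le_trans ?_ h
  simp only [Finset.sum_range_succ, Finset.sum_range_zero, Nat.factorial]
  norm_num

theorem q_real {m i e c : ℕ} (h1 : 1600 * m ≤ i * i) (h2 : invQ i e)
    (h3 : e ≤ c * (250 * 2 ^ 64)) : 1 / 250 * Real.exp (1.77 * Real.sqrt m) ≤ c := by
  have hs : Real.sqrt m ≤ i / 40 := by
    apply Real.sqrt_le_iff.2
    refine ⟨by positivity, ?_⟩
    have : (1600 : ℝ) * m ≤ i * i := by exact_mod_cast h1
    nlinarith
  have h4 : Real.exp (1.77 * Real.sqrt m) ≤ (17536279 / 2 ^ 24) ^ i := by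
    calc Real.exp (1.77 * Real.sqrt m) ≤ Real.exp (i * 0.04425) := by
          rw [Real.exp_le_exp]; linarith
      _ = Real.exp 0.04425 ^ i := by rw [Real.exp_nat_mul]
      _ ≤ _ := by
          have := exp_step_up
          gcongr
  have h5 : ((17536279 : ℝ) / 2 ^ 24) ^ i * 2 ^ 64 ≤ e := by
    unfold invQ at h2
    have h6 : ((17536279 : ℝ)) ^ i * 2 ^ 64 ≤ e * (2 ^ 24) ^ i := by exact_mod_cast h2
    rw [div_pow, div_mul_eq_mul_div, div_le_iff₀ (by positivity)]
    exact h6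
  have h7 : (e : ℝ) ≤ c * (250 * 2 ^ 64) := by exact_mod_cast h3
  have h8 : Real.exp (1.77 * Real.sqrt m) * 2 ^ 64 ≤ (c * 250) * 2 ^ 64 := by
    calc Real.exp (1.77 * Real.sqrt m) * 2 ^ 64 ≤ (17536279 / 2 ^ 24) ^ i * 2 ^ 64 := by gcongr
      _ ≤ (e : ℝ) := h5
      _ ≤ c * (250 * 2 ^ 64) := h7
      _ = _ := by ring
  have h9 := le_of_mul_le_mul_right h8 (by positivity)
  linarith

theorem a_real {m i e : ℕ} {a : ℤ} (h1 : i * i ≤ 64 * m) (h2 : invA i e)
    (h3 : a * (250 * 2 ^ 64) < e) : (a : ℝ) < 1 / 250 * Real.exp (1.77 * Real.sqrt m) := by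
  have hs : (i : ℝ) / 8 ≤ Real.sqrt m := by
    apply Real.le_sqrt_of_sq_le
    have : (i : ℝ) * i ≤ 64 * m := by exact_mod_cast h1
    nlinarith
  have h4 : (20931846 / 2 ^ 24 : ℝ) ^ i ≤ Real.exp (1.77 * Real.sqrt m) := by
    calc (20931846 / 2 ^ 24 : ℝ) ^ i ≤ Real.exp 0.22125 ^ i := by
          have := exp_step_low
          gcongr
      _ = Real.exp (i * 0.22125) := by rw [Real.exp_nat_mul]
      _ ≤ _ := by rw [Real.exp_le_exp]; linarith
  have h5 : (e : ℝ) ≤ (20931846 / 2 ^ 24 : ℝ) ^ i * 2 ^ 64 := by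
    unfold invA at h2
    have h6 : (e : ℝ) * (2 ^ 24) ^ i ≤ 20931846 ^ i * 2 ^ 64 := by exact_mod_cast h2
    rw [div_pow, div_mul_eq_mul_div, le_div_iff₀ (by positivity)]
    exact h6
  have h7 : (a : ℝ) * (250 * 2 ^ 64) < e := by exact_mod_cast h3
  have h8 : ((a : ℝ) * 250) * 2 ^ 64 < Real.exp (1.77 * Real.sqrt m) * 2 ^ 64 := by
    calc ((a : ℝ) * 250) * 2 ^ 64 = (a : ℝ) * (250 * 2 ^ 64) := by ring
      _ < (e : ℝ) := h7
      _ ≤ (20931846 / 2 ^ 24 : ℝ) ^ i * 2 ^ 64 := h5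
      _ ≤ _ := by gcongr
  have h9 := lt_of_mul_lt_mul_right h8 (by positivity)
  linarith

theorem chkQ_spec' {w C : ℕ} {c : ℕ → ℕ} {k m i e U : ℕ} (hi : invQ i e)
    (hc : ∀ l < k, c (m + l) < 2 ^ w) (hU : U = ∑ l ∈ range k, c (m + l) * (2 ^ w) ^ l)
    (h : chkQ w C k m i e U = true) :
    ∀ l < k, ∃ i e, 1600 * (m + l) ≤ i * i ∧ invQ i e ∧ e ≤ c (m + l) * C := by
  subst hU
  exact chkQ_spec w C c k m i e hi hc h

theorem chkA_spec' {w C : ℕ} {c : ℕ → ℕ} {k m i e U : ℕ} (hi : invA i e)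
    (hc : ∀ l < k, c (m + l) < 2 ^ w) (hU : U = ∑ l ∈ range k, c (m + l) * (2 ^ w) ^ l)
    (h : chkA w C k m i e U = true) :
    ∀ l < k, ∃ i e, i * i ≤ 64 * (m + l) ∧ invA i e ∧
      c (m + l) * C + 1 ≤ 2 ^ (w - 1) * C + e := by
  subst hU
  exact chkA_spec w C c k m i e hi hc h

theorem chkS_spec' {w v : ℕ} {c d : ℕ → ℕ} {k m U V : ℕ} (hc : ∀ l < k, c (m + l) < 2 ^ w)
    (hd : ∀ l < k, d (m + l) < 2 ^ v) (hU : U = ∑ l ∈ range k, c (m + l) * (2 ^ w) ^ l)
    (hV : V = ∑ l ∈ range k, d (m + l) * (2 ^ v) ^ l)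
    (h : chkS w v k U V = true) :
    ∀ l < k, c (m + l) + 1 ≤ 2 ^ (w - 1) + d (m + l) := by
  subst hU hV
  exact chkS_spec w v c d k m hc hd h

/-- number of partitions into distinct parts -/
def dd (m : ℕ) : ℕ := (Nat.Partition.distincts m).card

theorem TQ_big : TQ 192 1024 = ∑ l ∈ range 4096, dd (0 + l) * (2 ^ 192) ^ l := by
  have hT := TQ_spec (w := 192) (h := 1024) (by norm_num) (by norm_num)
    (fun m hm => distincts_bound (by omega))
  refine hT.trans (Finset.sum_congr (by norm_num) (fun l _ => ?_))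
  rw [zero_add]; rfl

theorem q_base {m : ℕ} (hm : m < 4096) :
    1 / 250 * Real.exp (1.77 * Real.sqrt m) ≤ (Nat.Partition.odds m).card := by
  rw [Nat.Partition.card_odds_eq_card_distincts]
  have hinv : invQ 0 (2 ^ 64) := by unfold invQ; norm_num
  have h := chkQ_spec' (c := dd) hinv (fun l hl => by
      rw [zero_add]; exact distincts_bound hl) TQ_big runQ m hm
  rw [zero_add] at h
  obtain ⟨i, e, h1, h2, h3⟩ := h
  exact q_real h1 h2 h3

/-- digits of the packed difference -/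
noncomputable def uu (m : ℕ) : ℕ := (aa m + 2 ^ (160 - 1)).toNat

theorem uu_cast {m : ℕ} (hm : m < 4096) : ((uu m : ℕ) : ℤ) = aa m + 2 ^ (160 - 1) := by
  have := aa_bound hm
  rw [abs_lt] at this
  exact Int.toNat_of_nonneg (by linarith)

theorem uu_lt {m : ℕ} (hm : m < 4096) : uu m < 2 ^ 160 := by
  have h1 := uu_cast hm
  have := aa_bound hm
  rw [abs_lt] at this
  have h2 : ((uu m : ℕ) : ℤ) < ((2 ^ 160 : ℕ) : ℤ) := by
    rw [h1]
    push_cast
    have e : (2 : ℤ) ^ 160 = 2 ^ (160 - 1) + 2 ^ (160 - 1) := by norm_num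
    linarith [this.2]
  exact_mod_cast h2

theorem shift_sum (c : ℕ → ℕ) (w n k : ℕ) (h : ∀ l < n, c l < 2 ^ w) :
    Nat.shiftRight (∑ m ∈ range (n + k), c m * (2 ^ w) ^ m) (w * n) =
      ∑ l ∈ range k, c (n + l) * (2 ^ w) ^ l := by
  have h1 : Nat.shiftRight (∑ m ∈ range (n + k), c m * (2 ^ w) ^ m) (w * n) =
    (∑ m ∈ range (n + k), c m * (2 ^ w) ^ m) / 2 ^ (w * n) := Nat.shiftRight_eq_div_pow _ _
  rw [h1, pow_mul]
  have h2 := sum_div_pow c 0 k n (2 ^ w) (fun l hl => by rw [zero_add]; exact h l hl)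
    (by positivity)
  simpa only [zero_add] using h2

theorem shift_gen {U : ℕ} (c : ℕ → ℕ) (w n k : ℕ) (h : ∀ l < n, c l < 2 ^ w)
    (hU : U = ∑ m ∈ range (n + k), c m * (2 ^ w) ^ m) :
    Nat.shiftRight U (w * n) = ∑ l ∈ range k, c (n + l) * (2 ^ w) ^ l := by
  subst hU
  exact shift_sum c w n k h

theorem TA_big : Nat.shiftRight (TA 160 1024) (160 * 64) =
    ∑ l ∈ range 4032, uu (64 + l) * (2 ^ 160) ^ l := by
  have hT := TA_spec (w := 160) (h := 1024) (by norm_num)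
    (fun m hm => aa_bound (by omega))
  have hT2 : TA 160 1024 = ∑ m ∈ range (64 + 4032), uu m * (2 ^ 160) ^ m :=
    hT.trans (Finset.sum_congr (by norm_num) (fun l _ => rfl))
  exact shift_gen uu 160 64 4032 (fun l hl => uu_lt (by omega)) hT2

theorem TA_small : Nat.shiftRight (TA 160 16) (160 * 11) =
    ∑ l ∈ range 53, uu (11 + l) * (2 ^ 160) ^ l := by
  have hT := TA_spec (w := 160) (h := 16) (by norm_num)
    (fun m hm => aa_bound (by omega))
  have hT2 : TA 160 16 = ∑ m ∈ range (11 + 53), uu m * (2 ^ 160) ^ m :=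
    hT.trans (Finset.sum_congr (by norm_num) (fun l _ => rfl))
  exact shift_gen uu 160 11 53 (fun l hl => uu_lt (by omega)) hT2

theorem TQ_small : Nat.shiftRight (TQ 192 16) (192 * 11) =
    ∑ l ∈ range 53, dd (11 + l) * (2 ^ 192) ^ l := by
  have hT := TQ_spec (w := 192) (h := 16) (by norm_num) (by norm_num)
    (fun m hm => distincts_bound (by omega))
  have hT2 : TQ 192 16 = ∑ m ∈ range (11 + 53), dd m * (2 ^ 192) ^ m :=
    hT.trans (Finset.sum_congr (by norm_num) (fun l _ => rfl))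
  exact shift_gen dd 192 11 53 (fun l hl => distincts_bound (by omega)) hT2

theorem a_mid {m : ℕ} (h64 : 64 ≤ m) (hm : m < 4096) :
    (aa m : ℝ) < 1 / 250 * Real.exp (1.77 * Real.sqrt m) := by
  have hinv : invA 0 (2 ^ 64) := by unfold invA; norm_num
  have h := chkA_spec' (c := uu) hinv (fun l hl => uu_lt (by omega)) TA_big runA
    (m - 64) (by omega)
  rw [show 64 + (m - 64) = m by omega] at h
  obtain ⟨i, e, h1, h2, h3⟩ := h
  apply a_real h1 h2
  have h4 : ((uu m : ℕ) : ℤ) * (250 * 2 ^ 64) + 1 ≤ 2 ^ (160 - 1) * (250 * 2 ^ 64) + e := by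
    exact_mod_cast h3
  rw [uu_cast hm] at h4
  linarith

theorem a_small {m : ℕ} (h10 : 10 < m) (hm : m < 64) :
    aa m < (Nat.Partition.distincts m).card := by
  have h := chkS_spec' (c := uu) (d := dd)
    (fun l hl => uu_lt (by omega)) (fun l hl => distincts_bound (by omega)) TA_small TQ_small
    runS (m - 11) (by omega)
  rw [show 11 + (m - 11) = m by omega] at h
  have h4 : ((uu m : ℕ) : ℤ) + 1 ≤ 2 ^ (160 - 1) + ((dd m : ℕ) : ℤ) := by
    exact_mod_cast h
  rw [uu_cast (by omega)] at h4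
  show aa m < ((dd m : ℕ) : ℤ)
  linarith

theorem exp_compare {n : ℕ} (hn : 4096 ≤ n) :
    Real.exp (1.683 * Real.sqrt n) < 1 / 250 * Real.exp (1.77 * Real.sqrt n) := by
  have hs : (64 : ℝ) ≤ Real.sqrt n := by
    apply Real.le_sqrt_of_sq_le
    have : (4096 : ℝ) ≤ n := by exact_mod_cast hn
    linarith
  have h1 : (250 : ℝ) < Real.exp 5.568 := by
    have e : Real.exp 5.568 = Real.exp 0.696 ^ 8 := by
      rw [← Real.exp_nat_mul]; norm_num
    have h2 := Real.sum_le_exp_of_nonneg (x := 0.696) (by norm_num) 6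
    rw [e]
    refine lt_of_lt_of_le ?_ (pow_le_pow_left₀ (by
      apply Finset.sum_nonneg; intro i _; positivity) h2 8)
    simp only [Finset.sum_range_succ, Finset.sum_range_zero, Nat.factorial]
    norm_num
  have h3 : Real.exp (1.77 * Real.sqrt n) =
      Real.exp (1.683 * Real.sqrt n) * Real.exp (0.087 * Real.sqrt n) := by
    rw [← Real.exp_add]; congr 1; ring
  have h4 : Real.exp 5.568 ≤ Real.exp (0.087 * Real.sqrt n) := by
    rw [Real.exp_le_exp]; linarith
  rw [h3]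
  have h5 := Real.exp_pos (1.683 * Real.sqrt n)
  nlinarith

/-- The main inequality for the coefficients. -/
theorem aa_lt {n : ℕ} (hn : 10 < n) : aa n < (Nat.Partition.distincts n).card := by
  rcases lt_or_ge n 64 with h1 | h1
  · exact a_small hn h1
  · have hq := q_lower (fun m hm => q_base hm) n
    rw [Nat.Partition.card_odds_eq_card_distincts] at hq
    have ha : (aa n : ℝ) < ((Nat.Partition.distincts n).card : ℝ) := by
      rcases lt_or_ge n 4096 with h2 | h2
      · exact (a_mid h1 h2).trans_le hq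
      · have h3 := PP_coeff_le (n := n) (M := n) (by omega) h2
        exact ((le_abs_self _).trans h3).trans_lt ((exp_compare h2).trans_le hq)
    exact_mod_cast ha

/-- The theorem in terms of partitions. -/
theorem main {n : ℕ} (hn : 10 < n) :
    ((Finset.univ.filter (fun p : n.Partition => Even (missing p))).card : ℤ) -
      ((Finset.univ.filter (fun p : n.Partition => Odd (missing p))).card : ℤ) <
      (Nat.Partition.distincts n).card := by
  rw [even_sub_odd, sum_sgn_missing, sum_sgn_eq_coeff (n := n) (M := n) (by omega)]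
  exact aa_lt hn

end Pool.Agent.Lib.MP781
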