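import Mathlib
import Pool.Agent.Lib.MP_781ce4_nt.KernelDefs

namespace Pool.Agent.Lib.MP781

open Finset

/-! ### Splitting packed digits -/

theorem sum_shift (c : ℕ → ℕ) (m k X : ℕ) :
    ∑ l ∈ range (k + 1), c (m + l) * X ^ l =
      X * (∑ l ∈ range k, c (m + 1 + l) * X ^ l) + c m := by
  rw [sum_range_succ', Finset.mul_sum, add_zero, pow_zero, mul_one]
  congr 1
  apply Finset.sum_congr rfl
  intro l _
  rw [show m + (l + 1) = m + 1 + l by ring]
  ring

theorem sum_mod (c : ℕ → ℕ) (m k X : ℕ) (h : c m < X) :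
    (∑ l ∈ range (k + 1), c (m + l) * X ^ l) % X = c m := by
  rw [sum_shift, Nat.mul_add_mod, Nat.mod_eq_of_lt h]

theorem sum_div (c : ℕ → ℕ) (m k X : ℕ) (h : c m < X) :
    (∑ l ∈ range (k + 1), c (m + l) * X ^ l) / X = ∑ l ∈ range k, c (m + 1 + l) * X ^ l := by
  rw [sum_shift, Nat.mul_add_div (by omega), Nat.div_eq_of_lt h, add_zero]

theorem sum_div_pow (c : ℕ → ℕ) (m k n X : ℕ) (h : ∀ l < n, c (m + l) < X) (hX : 0 < X) :
    (∑ l ∈ range (n + k), c (m + l) * X ^ l) / X ^ n =
      ∑ l ∈ range k, c (m + n + l) * X ^ l := by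
  rw [Finset.sum_range_add]
  have h1 : ∑ l ∈ range k, c (m + (n + l)) * X ^ (n + l) =
      X ^ n * ∑ l ∈ range k, c (m + n + l) * X ^ l := by
    rw [Finset.mul_sum]
    apply Finset.sum_congr rfl
    intro l _
    rw [← add_assoc, pow_add]; ring
  rw [h1, add_comm, Nat.mul_add_div (pow_pos hX n),
    Nat.div_eq_of_lt (digits_lt (fun l => c (m + l)) X n h), add_zero]

/-! ### The check for `q` -/

/-- advance the grid point -/
def advQ : ℕ → ℕ → ℕ → ℕ → ℕ × ℕ
  | 0, _, i, e => (i, e)
  | k + 1, M, i, e =>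
    bif Nat.ble M (i * i) then (i, e) else advQ k M (i + 1) (e * 17536279 / 2 ^ 24 + 1)

/-- check of the packed values -/
def chkQ (w C : ℕ) : ℕ → ℕ → ℕ → ℕ → ℕ → Bool
  | 0, _, _, _, _ => true
  | k + 1, m, i, e, U =>
    match advQ 41 (1600 * m) i e with
    | (i', e') =>
      bif Nat.ble (1600 * m) (i' * i') then
        bif Nat.ble e' ((U % 2 ^ w) * C) then
          chkQ w C k (m + 1) i' e' (Nat.shiftRight U w)
        else false
      else false

/-- invariant -/
def invQ (i e : ℕ) : Prop := 17536279 ^ i * 2 ^ 64 ≤ e * (2 ^ 24) ^ i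

theorem invQ_succ {i e : ℕ} (h : invQ i e) : invQ (i + 1) (e * 17536279 / 2 ^ 24 + 1) := by
  unfold invQ at h ⊢
  have h1 : e * 17536279 ≤ (e * 17536279 / 2 ^ 24 + 1) * 2 ^ 24 := by
    have := Nat.lt_div_mul_add (a := e * 17536279) (b := 2 ^ 24) (by norm_num)
    rw [add_mul, one_mul]
    exact this.le
  calc 17536279 ^ (i + 1) * 2 ^ 64 = (17536279 ^ i * 2 ^ 64) * 17536279 := by ring
    _ ≤ (e * (2 ^ 24) ^ i) * 17536279 := Nat.mul_le_mul_right _ h
    _ = (e * 17536279) * (2 ^ 24) ^ i := by ring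
    _ ≤ ((e * 17536279 / 2 ^ 24 + 1) * 2 ^ 24) * (2 ^ 24) ^ i := Nat.mul_le_mul_right _ h1
    _ = (e * 17536279 / 2 ^ 24 + 1) * (2 ^ 24) ^ (i + 1) := by ring

theorem advQ_inv (k M i e : ℕ) (h : invQ i e) : invQ (advQ k M i e).1 (advQ k M i e).2 := by
  induction k generalizing i e with
  | zero => exact h
  | succ k ih =>
    rw [advQ]
    cases hb : Nat.ble M (i * i) with
    | true => exact h
    | false => exact ih _ _ (invQ_succ h)

theorem chkQ_spec (w C : ℕ) (c : ℕ → ℕ) (k m i e : ℕ) (hi : invQ i e)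
    (hc : ∀ l < k, c (m + l) < 2 ^ w)
    (h : chkQ w C k m i e (∑ l ∈ range k, c (m + l) * (2 ^ w) ^ l) = true) :
    ∀ l < k, ∃ i e, 1600 * (m + l) ≤ i * i ∧ invQ i e ∧ e ≤ c (m + l) * C := by
  induction k generalizing m i e with
  | zero => intro l hl; omega
  | succ k ih =>
    have hinv := advQ_inv 41 (1600 * m) i e hi
    have hcm : c m < 2 ^ w := by have := hc 0 (by omega); simpa using this
    rcases hr : advQ 41 (1600 * m) i e with ⟨i', e'⟩
    rw [hr] at hinv
    simp only at hinv
    simp only [chkQ, hr] at h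
    cases hb1 : Nat.ble (1600 * m) (i' * i') with
    | false => rw [hb1] at h; exact absurd h (by simp)
    | true =>
      rw [hb1, cond_true] at h
      cases hb2 : Nat.ble e' (((∑ l ∈ range (k + 1), c (m + l) * (2 ^ w) ^ l) % 2 ^ w) * C) with
      | false => rw [hb2] at h; exact absurd h (by simp)
      | true =>
        rw [hb2, cond_true] at h
        have h1 := Nat.le_of_ble_eq_true hb1
        have h2 := Nat.le_of_ble_eq_true hb2
        rw [sum_mod c m k (2 ^ w) hcm] at h2
        have e1 : Nat.shiftRight (∑ l ∈ range (k + 1), c (m + l) * (2 ^ w) ^ l) w =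
            ∑ l ∈ range k, c (m + 1 + l) * (2 ^ w) ^ l := by
          have : Nat.shiftRight (∑ l ∈ range (k + 1), c (m + l) * (2 ^ w) ^ l) w =
            (∑ l ∈ range (k + 1), c (m + l) * (2 ^ w) ^ l) / 2 ^ w := Nat.shiftRight_eq_div_pow _ _
          rw [this, sum_div c m k (2 ^ w) hcm]
        rw [e1] at h
        have h3 := ih (m + 1) i' e' hinv (fun l hl => by
          have := hc (l + 1) (by omega)
          rwa [show m + (l + 1) = m + 1 + l by ring] at this) h
        intro l hl
        rcases l with _ | l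
        · exact ⟨i', e', by simpa using h1, hinv, by simpa using h2⟩
        · have := h3 l (by omega)
          rwa [show m + 1 + l = m + (l + 1) by ring] at this

/-! ### The check for the difference -/

/-- advance the grid point -/
def advA : ℕ → ℕ → ℕ → ℕ → ℕ × ℕ
  | 0, _, i, e => (i, e)
  | k + 1, M, i, e =>
    bif Nat.ble ((i + 1) * (i + 1)) M then advA k M (i + 1) (e * 20931846 / 2 ^ 24) else (i, e)

/-- check of the packed values -/
def chkA (w C : ℕ) : ℕ → ℕ → ℕ → ℕ → ℕ → Bool
  | 0, _, _, _, _ => true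
  | k + 1, m, i, e, U =>
    match advA 70 (64 * m) i e with
    | (i', e') =>
      bif Nat.ble (i' * i') (64 * m) then
        bif Nat.ble ((U % 2 ^ w) * C + 1) (2 ^ (w - 1) * C + e') then
          chkA w C k (m + 1) i' e' (Nat.shiftRight U w)
        else false
      else false

/-- invariant -/
def invA (i e : ℕ) : Prop := e * (2 ^ 24) ^ i ≤ 20931846 ^ i * 2 ^ 64

theorem invA_succ {i e : ℕ} (h : invA i e) : invA (i + 1) (e * 20931846 / 2 ^ 24) := by
  unfold invA at h ⊢
  have h1 : (e * 20931846 / 2 ^ 24) * 2 ^ 24 ≤ e * 20931846 := Nat.div_mul_le_self _ _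
  calc (e * 20931846 / 2 ^ 24) * (2 ^ 24) ^ (i + 1)
      = ((e * 20931846 / 2 ^ 24) * 2 ^ 24) * (2 ^ 24) ^ i := by ring
    _ ≤ (e * 20931846) * (2 ^ 24) ^ i := Nat.mul_le_mul_right _ h1
    _ = (e * (2 ^ 24) ^ i) * 20931846 := by ring
    _ ≤ (20931846 ^ i * 2 ^ 64) * 20931846 := Nat.mul_le_mul_right _ h
    _ = 20931846 ^ (i + 1) * 2 ^ 64 := by ring

theorem advA_inv (k M i e : ℕ) (h : invA i e) : invA (advA k M i e).1 (advA k M i e).2 := by
  induction k generalizing i e with
  | zero => exact h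
  | succ k ih =>
    rw [advA]
    cases hb : Nat.ble ((i + 1) * (i + 1)) M with
    | true => exact ih _ _ (invA_succ h)
    | false => exact h

theorem chkA_spec (w C : ℕ) (c : ℕ → ℕ) (k m i e : ℕ) (hi : invA i e)
    (hc : ∀ l < k, c (m + l) < 2 ^ w)
    (h : chkA w C k m i e (∑ l ∈ range k, c (m + l) * (2 ^ w) ^ l) = true) :
    ∀ l < k, ∃ i e, i * i ≤ 64 * (m + l) ∧ invA i e ∧
      c (m + l) * C + 1 ≤ 2 ^ (w - 1) * C + e := by
  induction k generalizing m i e with
  | zero => intro l hl; omega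
  | succ k ih =>
    have hinv := advA_inv 70 (64 * m) i e hi
    have hcm : c m < 2 ^ w := by have := hc 0 (by omega); simpa using this
    rcases hr : advA 70 (64 * m) i e with ⟨i', e'⟩
    rw [hr] at hinv
    simp only at hinv
    simp only [chkA, hr] at h
    cases hb1 : Nat.ble (i' * i') (64 * m) with
    | false => rw [hb1] at h; exact absurd h (by simp)
    | true =>
      rw [hb1, cond_true] at h
      cases hb2 : Nat.ble (((∑ l ∈ range (k + 1), c (m + l) * (2 ^ w) ^ l) % 2 ^ w) * C + 1)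
        (2 ^ (w - 1) * C + e') with
      | false => rw [hb2] at h; exact absurd h (by simp)
      | true =>
        rw [hb2, cond_true] at h
        have h1 := Nat.le_of_ble_eq_true hb1
        have h2 := Nat.le_of_ble_eq_true hb2
        rw [sum_mod c m k (2 ^ w) hcm] at h2
        have e1 : Nat.shiftRight (∑ l ∈ range (k + 1), c (m + l) * (2 ^ w) ^ l) w =
            ∑ l ∈ range k, c (m + 1 + l) * (2 ^ w) ^ l := by
          have : Nat.shiftRight (∑ l ∈ range (k + 1), c (m + l) * (2 ^ w) ^ l) w =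
            (∑ l ∈ range (k + 1), c (m + l) * (2 ^ w) ^ l) / 2 ^ w := Nat.shiftRight_eq_div_pow _ _
          rw [this, sum_div c m k (2 ^ w) hcm]
        rw [e1] at h
        have h3 := ih (m + 1) i' e' hinv (fun l hl => by
          have := hc (l + 1) (by omega)
          rwa [show m + (l + 1) = m + 1 + l by ring] at this) h
        intro l hl
        rcases l with _ | l
        · exact ⟨i', e', by simpa using h1, hinv, by simpa using h2⟩
        · have := h3 l (by omega)
          rwa [show m + 1 + l = m + (l + 1) by ring] at this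

/-! ### Direct comparison for small arguments -/

/-- direct comparison -/
def chkS (w v : ℕ) : ℕ → ℕ → ℕ → Bool
  | 0, _, _ => true
  | k + 1, U, V =>
    bif Nat.ble ((U % 2 ^ w) + 1) (2 ^ (w - 1) + V % 2 ^ v) then
      chkS w v k (Nat.shiftRight U w) (Nat.shiftRight V v)
    else false

theorem chkS_spec (w v : ℕ) (c d : ℕ → ℕ) (k m : ℕ) (hc : ∀ l < k, c (m + l) < 2 ^ w)
    (hd : ∀ l < k, d (m + l) < 2 ^ v)
    (h : chkS w v k (∑ l ∈ range k, c (m + l) * (2 ^ w) ^ l)
      (∑ l ∈ range k, d (m + l) * (2 ^ v) ^ l) = true) :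
    ∀ l < k, c (m + l) + 1 ≤ 2 ^ (w - 1) + d (m + l) := by
  induction k generalizing m with
  | zero => intro l hl; omega
  | succ k ih =>
    have hcm : c m < 2 ^ w := by have := hc 0 (by omega); simpa using this
    have hdm : d m < 2 ^ v := by have := hd 0 (by omega); simpa using this
    rw [chkS] at h
    cases hb2 : Nat.ble (((∑ l ∈ range (k + 1), c (m + l) * (2 ^ w) ^ l) % 2 ^ w) + 1)
        (2 ^ (w - 1) + (∑ l ∈ range (k + 1), d (m + l) * (2 ^ v) ^ l) % 2 ^ v) with
    | false => rw [hb2] at h; exact absurd h (by simp)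
    | true =>
      rw [hb2, cond_true] at h
      have h2 := Nat.le_of_ble_eq_true hb2
      rw [sum_mod c m k (2 ^ w) hcm, sum_mod d m k (2 ^ v) hdm] at h2
      have e1 : Nat.shiftRight (∑ l ∈ range (k + 1), c (m + l) * (2 ^ w) ^ l) w =
          ∑ l ∈ range k, c (m + 1 + l) * (2 ^ w) ^ l := by
        have : Nat.shiftRight (∑ l ∈ range (k + 1), c (m + l) * (2 ^ w) ^ l) w =
          (∑ l ∈ range (k + 1), c (m + l) * (2 ^ w) ^ l) / 2 ^ w := Nat.shiftRight_eq_div_pow _ _
        rw [this, sum_div c m k (2 ^ w) hcm]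
      have e2 : Nat.shiftRight (∑ l ∈ range (k + 1), d (m + l) * (2 ^ v) ^ l) v =
          ∑ l ∈ range k, d (m + 1 + l) * (2 ^ v) ^ l := by
        have : Nat.shiftRight (∑ l ∈ range (k + 1), d (m + l) * (2 ^ v) ^ l) v =
          (∑ l ∈ range (k + 1), d (m + l) * (2 ^ v) ^ l) / 2 ^ v := Nat.shiftRight_eq_div_pow _ _
        rw [this, sum_div d m k (2 ^ v) hdm]
      rw [e1, e2] at h
      have h3 := ih (m + 1)
        (fun l hl => by
          have := hc (l + 1) (by omega)
          rwa [show m + (l + 1) = m + 1 + l by ring] at this)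
        (fun l hl => by
          have := hd (l + 1) (by omega)
          rwa [show m + (l + 1) = m + 1 + l by ring] at this) h
      intro l hl
      rcases l with _ | l
      · simpa using h2
      · have := h3 l (by omega)
        rwa [show m + 1 + l = m + (l + 1) by ring] at this

end Pool.Agent.Lib.MP781
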